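import Pool.Agent.Helper2.DualL1.Piece

/-! `L¹[0,1] ⊕ 𝕜 ≃ L¹[0,1]`. -/

namespace DualL1

open Filter Topology MeasureTheory
open scoped ENNReal

section Abstract

variable {𝕜 : Type*} [RCLike 𝕜] {E : Type*} [NormedAddCommGroup E] [NormedSpace 𝕜 E]
  [CompleteSpace E]

lemma summable_phi {φ : ℕ → (E →L[𝕜] 𝕜)} {C : ℝ}
    (hφ : ∀ (f : E) (N : Finset ℕ), ∑ n ∈ N, ‖φ n f‖ ≤ C * ‖f‖) {v : ℕ → E} {K : ℝ}
    (hv : ∀ n, ‖v n‖ ≤ K) (f : E) : Summable (fun n => φ n f • v n) := by
  have h1 : Summable (fun n => ‖φ n f‖) :=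
    summable_of_sum_le (fun n => norm_nonneg _) (hφ f)
  refine Summable.of_norm_bounded (h1.mul_right K) (fun n => ?_)
  rw [norm_smul]
  exact mul_le_mul_of_nonneg_left (hv n) (norm_nonneg _)

/-- `f ↦ ∑ φₙ(f) vₙ`. -/
noncomputable def topL (φ : ℕ → (E →L[𝕜] 𝕜)) (C : ℝ)
    (hφ : ∀ (f : E) (N : Finset ℕ), ∑ n ∈ N, ‖φ n f‖ ≤ C * ‖f‖) (v : ℕ → E) (K : ℝ)
    (hv : ∀ n, ‖v n‖ ≤ K) : E →L[𝕜] E :=
  LinearMap.mkContinuous
    { toFun := fun f => ∑' n, φ n f • v n
      map_add' := fun f g => by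
        rw [← (summable_phi hφ hv f).tsum_add (summable_phi hφ hv g)]
        congr 1
        funext n
        rw [map_add, add_smul]
      map_smul' := fun c f => by
        rw [RingHom.id_apply, ← (summable_phi hφ hv f).tsum_const_smul]
        congr 1
        funext n
        rw [map_smul, smul_assoc] } (C * K) (fun f => by
      have hK : 0 ≤ K := (norm_nonneg _).trans (hv 0)
      have h1 : Summable (fun n => ‖φ n f‖) :=
        summable_of_sum_le (fun n => norm_nonneg _) (hφ f)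
      show ‖∑' n, φ n f • v n‖ ≤ C * K * ‖f‖
      have h2 : ∀ n, ‖φ n f • v n‖ ≤ ‖φ n f‖ * K := by
        intro n
        rw [norm_smul]
        exact mul_le_mul_of_nonneg_left (hv n) (norm_nonneg _)
      calc ‖∑' n, φ n f • v n‖ ≤ ∑' n, ‖φ n f‖ * K :=
            tsum_of_norm_bounded (h1.mul_right K).hasSum h2
        _ = (∑' n, ‖φ n f‖) * K := tsum_mul_right
        _ ≤ (C * ‖f‖) * K := by
            refine mul_le_mul_of_nonneg_right ?_ hK
            exact h1.tsum_le_of_sum_le (hφ f)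
        _ = _ := by ring)

lemma topL_apply (φ : ℕ → (E →L[𝕜] 𝕜)) (C : ℝ)
    (hφ : ∀ (f : E) (N : Finset ℕ), ∑ n ∈ N, ‖φ n f‖ ≤ C * ‖f‖) (v : ℕ → E) (K : ℝ)
    (hv : ∀ n, ‖v n‖ ≤ K) (f : E) : topL φ C hφ v K hv f = ∑' n, φ n f • v n := rfl

omit [CompleteSpace E] [NormedSpace 𝕜 E] [NormedAddCommGroup E] in
lemma hasSum_ite_mul (a : ℕ → 𝕜) (m : ℕ) :
    HasSum (fun n => a n * (if m = n then 1 else 0)) (a m) := by
  have h := hasSum_single (f := fun n => a n * (if m = n then (1 : 𝕜) else 0)) m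
    (fun n hn => by simp [Ne.symm hn])
  simpa using h

theorem absorb_abstract (u : ℕ → E) (φ : ℕ → (E →L[𝕜] 𝕜)) (C : ℝ)
    (hφ : ∀ (f : E) (N : Finset ℕ), ∑ n ∈ N, ‖φ n f‖ ≤ C * ‖f‖) (hu : ∀ n, ‖u n‖ ≤ 1)
    (hb : ∀ m n, φ m (u n) = if m = n then 1 else 0) : Nonempty ((E × 𝕜) ≃L[𝕜] E) := by
  have hv : ∀ n, ‖u (n + 1) - u n‖ ≤ 2 := by
    intro n
    refine (norm_sub_le _ _).trans ?_
    have := hu n
    have := hu (n + 1)
    linarith
  set w : ℕ → E := fun n => Nat.rec (-(u 0)) (fun k _ => u k - u (k + 1)) n with hw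
  have hw0 : w 0 = -(u 0) := rfl
  have hw1 : ∀ n, w (n + 1) = u n - u (n + 1) := fun n => rfl
  have hwb : ∀ n, ‖w n‖ ≤ 2 := by
    intro n
    rcases n with _ | n
    · rw [hw0, norm_neg]; have := hu 0; linarith
    · rw [hw1, norm_sub_rev]; exact hv n
  set A := topL φ C hφ (fun n => u (n + 1) - u n) 2 hv with hA
  set B := topL φ C hφ w 2 hwb with hB
  have hAs : ∀ f, HasSum (fun n => φ n f • (u (n + 1) - u n)) (A f) := fun f =>
    (summable_phi hφ hv f).hasSum
  have hBs : ∀ f, HasSum (fun n => φ n f • w n) (B f) := fun f =>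
    (summable_phi hφ hwb f).hasSum
  -- values of the functionals
  have hφA0 : ∀ f, φ 0 (A f) = - φ 0 f := by
    intro f
    have h1 := (hAs f).mapL (φ 0)
    simp only [map_smul, map_sub, hb, smul_eq_mul] at h1
    have h2 := (hasSum_ite_mul (fun n => φ n f) 0).neg
    have h6 : (fun n : ℕ => φ n f * ((if 0 = n + 1 then 1 else 0) - if 0 = n then 1 else 0))
        = fun n => -(φ n f * if 0 = n then 1 else 0) := by
      funext n
      simp
    rw [h6] at h1
    exact h1.unique h2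
  have hφA : ∀ f m, φ (m + 1) (A f) = φ m f - φ (m + 1) f := by
    intro f m
    have h1 := (hAs f).mapL (φ (m + 1))
    simp only [map_smul, map_sub, hb, smul_eq_mul, mul_sub, add_left_inj] at h1
    exact h1.unique ((hasSum_ite_mul (fun n => φ n f) m).sub
      (hasSum_ite_mul (fun n => φ n f) (m + 1)))
  have hφB : ∀ g n, φ n (B g) = φ (n + 1) g - φ n g := by
    intro g n
    have h1 := (hBs g).mapL (φ n)
    simp only [map_smul, smul_eq_mul] at h1
    have hw' : ∀ m, φ n (w m) = (if n + 1 = m then 1 else 0) - (if n = m then 1 else 0) := by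
      intro m
      rcases m with _ | m
      · rw [hw0, map_neg, hb]
        have h4 : ¬ (n + 1 = 0) := by omega
        simp
      · rw [hw1, map_sub, hb, hb]
        simp
    simp only [hw', mul_sub] at h1
    exact h1.unique ((hasSum_ite_mul (fun n => φ n g) (n + 1)).sub
      (hasSum_ite_mul (fun m => φ m g) n))
  -- a shifted form of `B`
  have hBs' : ∀ g, HasSum (fun n => φ (n + 1) g • (u n - u (n + 1))) (B g + φ 0 g • u 0) := by
    intro g
    have h1 := (hasSum_nat_add_iff' 1).2 (hBs g)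
    simp only [Finset.range_one, Finset.sum_singleton, hw0, smul_neg, sub_neg_eq_add, hw1] at h1
    exact h1
  let S : (E × 𝕜) →L[𝕜] E :=
    (ContinuousLinearMap.id 𝕜 E + A).comp (ContinuousLinearMap.fst 𝕜 E 𝕜)
      + (ContinuousLinearMap.toSpanSingleton 𝕜 (u 0)).comp (ContinuousLinearMap.snd 𝕜 E 𝕜)
  let S' : E →L[𝕜] (E × 𝕜) := (ContinuousLinearMap.id 𝕜 E + B).prod (φ 0)
  have hS : ∀ f a, S (f, a) = f + A f + a • u 0 := fun f a => rfl
  have hS' : ∀ g, S' g = (g + B g, φ 0 g) := fun g => rfl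
  have left : ∀ p, S' (S p) = p := by
    rintro ⟨f, a⟩
    rw [hS, hS']
    set g := f + A f + a • u 0 with hg
    have g0 : φ 0 g = a := by
      rw [hg, map_add, map_add, hφA0, map_smul, hb]; simp
    have g1 : ∀ m, φ (m + 1) g = φ m f := by
      intro m
      rw [hg, map_add, map_add, hφA, map_smul, hb]; simp
    have h1 := hBs' g
    simp only [g0, g1] at h1
    have h2 : HasSum (fun n => φ n f • (u n - u (n + 1))) (-(A f)) := by
      have := (hAs f).neg
      simp only [← smul_neg, neg_sub] at this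
      exact this
    have h3 := h1.unique h2
    have h4 : B g = -(A f) - a • u 0 := by rw [← h3]; abel
    rw [Prod.mk.injEq]
    refine ⟨?_, g0⟩
    rw [h4, hg]; abel
  have right : ∀ g, S (S' g) = g := by
    intro g
    rw [hS', hS]
    have g1 : ∀ n, φ n (g + B g) = φ (n + 1) g := by
      intro n
      rw [map_add, hφB]; ring
    have h1 := hAs (g + B g)
    simp only [g1] at h1
    have h2 := (hBs' g).neg
    simp only [← smul_neg, neg_sub] at h2
    have h3 : A (g + B g) = -(B g + φ 0 g • u 0) := h1.unique h2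
    rw [h3]; abel
  exact ⟨ContinuousLinearEquiv.equivOfInverse S S' left right⟩

end Abstract

section Concrete

variable {Ω : Type*} [MeasurableSpace Ω] {ν : Measure Ω} {𝕜 : Type*} [RCLike 𝕜]

lemma setInt_ind [IsFiniteMeasure ν] {B C : Set Ω} (hB : MeasurableSet B)
    (hC : MeasurableSet C) :
    ∫ x in C, (ind ν 𝕜 B : Ω → 𝕜) x ∂ν = ((ν.real (B ∩ C) : ℝ) : 𝕜) := by
  rw [ind_of 𝕜 hB (measure_ne_top _ _), setIntegral_indicatorConstLp hC hB,
    RCLike.real_smul_eq_coe_mul, mul_one]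

/-- integral over a set as a functional -/
noncomputable def setIntL (ν : Measure Ω) (𝕜 : Type*) [RCLike 𝕜] (A : Set Ω) : Lp 𝕜 1 ν →L[𝕜] 𝕜 :=
  LinearMap.mkContinuous
    { toFun := fun f => ∫ x in A, f x ∂ν
      map_add' := fun f g => by
        rw [← integral_add (L1.integrable_coeFn f).restrict (L1.integrable_coeFn g).restrict]
        refine integral_congr_ae (ae_restrict_of_ae ?_)
        filter_upwards [Lp.coeFn_add f g] with x hx
        rw [hx, Pi.add_apply]
      map_smul' := fun c f => by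
        rw [RingHom.id_apply, smul_eq_mul, ← integral_const_mul]
        refine integral_congr_ae (ae_restrict_of_ae ?_)
        filter_upwards [Lp.coeFn_smul c f] with x hx
        rw [hx, Pi.smul_apply, smul_eq_mul] } 1 (fun f => by
      show ‖∫ x in A, f x ∂ν‖ ≤ 1 * ‖f‖
      rw [one_mul, L1.norm_eq_integral_norm]
      exact (norm_integral_le_integral_norm _).trans (setIntegral_le_integral
        (L1.integrable_coeFn f).norm (Eventually.of_forall (fun x => norm_nonneg _))))

lemma setIntL_apply (A : Set Ω) (f : Lp 𝕜 1 ν) : setIntL ν 𝕜 A f = ∫ x in A, f x ∂ν := rfl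

variable (𝕜) in
theorem absorb_UI : Nonempty ((Lp 𝕜 1 UI × 𝕜) ≃L[𝕜] Lp 𝕜 1 UI) := by
  set A : ℕ → Set ℝ := fun n => Set.Ioc ((1 / 2 : ℝ) ^ (n + 1)) ((1 / 2) ^ n) with hA
  have hAm : ∀ n, MeasurableSet (A n) := fun n => measurableSet_Ioc
  have hanti : Antitone (fun n : ℕ => (1 / 2 : ℝ) ^ n) :=
    antitone_nat_of_succ_le (fun n => by
      rw [pow_succ]
      have : (0 : ℝ) < (1 / 2) ^ n := by positivity
      linarith)
  have hd : Pairwise (Function.onFun Disjoint A) := hanti.pairwise_disjoint_on_Ioc_succ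
  have hAr : ∀ n, UI.real (A n) = (1 / 2) ^ (n + 1) := by
    intro n
    have h1 : A n ∩ Set.Icc 0 1 = A n := by
      refine Set.inter_eq_left.2 (fun x hx => ⟨?_, ?_⟩)
      · have : (0 : ℝ) < (1 / 2) ^ (n + 1) := by positivity
        exact (this.trans hx.1).le
      · exact hx.2.trans (pow_le_one₀ (by norm_num) (by norm_num))
    rw [measureReal_def, Measure.restrict_apply (hAm n), h1, Real.volume_Ioc,
      ENNReal.toReal_ofReal]
    · rw [pow_succ]; ring
    · have : (0 : ℝ) < (1 / 2) ^ n := by positivity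
      rw [pow_succ]; linarith
  have hpos : ∀ n, 0 < UI.real (A n) := fun n => by rw [hAr]; positivity
  refine absorb_abstract (fun n => (((UI.real (A n))⁻¹ : ℝ) : 𝕜) • ind UI 𝕜 (A n))
    (fun n => setIntL UI 𝕜 (A n)) 1 (fun f N => ?_) (fun n => ?_) (fun m n => ?_)
  · rw [one_mul]
    have h1 : ∑ n ∈ N, ‖setIntL UI 𝕜 (A n) f‖ ≤ ∑ n ∈ N, ∫ x in A n, ‖f x‖ ∂UI :=
      Finset.sum_le_sum (fun n _ => norm_integral_le_integral_norm _)
    refine h1.trans ?_
    rw [← integral_biUnion_finset N (fun n _ => hAm n) (fun i _ j _ hij => hd hij)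
      (fun n _ => (L1.integrable_coeFn f).norm.integrableOn), L1.norm_eq_integral_norm]
    exact setIntegral_le_integral (L1.integrable_coeFn f).norm
      (Eventually.of_forall (fun x => norm_nonneg _))
  · rw [norm_smul, norm_ind 𝕜 (hAm n) (measure_ne_top _ _), RCLike.norm_ofReal,
      abs_of_pos (inv_pos.2 (hpos n)), inv_mul_cancel₀ (hpos n).ne']
  · rw [map_smul, setIntL_apply, setInt_ind (hAm n) (hAm m), smul_eq_mul, ← RCLike.ofReal_mul]
    split_ifs with h
    · subst h
      rw [Set.inter_self, inv_mul_cancel₀ (hpos m).ne', RCLike.ofReal_one]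
    · have h2 : A n ∩ A m = ∅ := Set.disjoint_iff_inter_eq_empty.1 (hd (Ne.symm h))
      rw [h2]
      simp

end Concrete

end DualL1
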