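import Pool.Agent.Helper2.DualL1.Comb

/-! Rademacher averages of the functionals given by the scheme. -/

namespace DualL1

open Filter Topology

variable {𝕜 : Type*} [RCLike 𝕜] {Y : Type*} [NormedAddCommGroup Y] [NormedSpace 𝕜 Y]

/-- extension of a finite sequence by `false`. -/
def ext {N : ℕ} (r : Fin N → Bool) (k : ℕ) : Bool := if h : k < N then r ⟨k, h⟩ else false

lemma ext_coe {N : ℕ} (r : Fin N → Bool) (j : Fin N) : ext r j = r j := by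
  simp [ext]

/-- the sign pattern. -/
def pat (θ : ℕ → Bool) {N : ℕ} (r : Fin N → Bool) (m : ℕ) : Bool :=
  ext r (Nat.unpair m).1 == θ (Nat.unpair m).2

/-- Rademacher averages. -/
noncomputable def avg (G : ℕ → (ℕ → Bool) → (Y →L[𝕜] 𝕜)) (θ : ℕ → Bool) (N n : ℕ) : Y →L[𝕜] 𝕜 :=
  (((2 ^ N : ℝ)⁻¹ : ℝ) : 𝕜) • ∑ r : Fin N → Bool, ((sg (ext r n) : ℝ) : 𝕜) • G N (pat θ r)

lemma norm_sum_avg_le (G : ℕ → (ℕ → Bool) → (Y →L[𝕜] 𝕜)) {C : ℝ} (hG : ∀ N σ, ‖G N σ‖ ≤ C)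
    (θ : ℕ → Bool) (N : ℕ) (S : Finset ℕ) (hS : S ⊆ Finset.range N) (a : ℕ → 𝕜)
    (ha : ∀ n, ‖a n‖ ≤ 1) :
    ‖∑ n ∈ S, a n • avg G θ N n‖ ≤ C * Real.sqrt S.card := by
  classical
  have hC : 0 ≤ C := (norm_nonneg _).trans (hG 0 (fun _ => false))
  set a' : ℕ → 𝕜 := fun n => if n ∈ S then a n else 0 with ha'
  have h1 : ∑ n ∈ S, a n • avg G θ N n = (((2 ^ N : ℝ)⁻¹ : ℝ) : 𝕜) • ∑ r : Fin N → Bool,
      (∑ j : Fin N, ((sg (r j) : ℝ) : 𝕜) * a' j) • G N (pat θ r) := by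
    simp only [avg]
    rw [Finset.smul_sum]
    have h2 : ∀ n ∈ S, a n • (((2 ^ N : ℝ)⁻¹ : ℝ) : 𝕜) • ∑ r : Fin N → Bool,
        ((sg (ext r n) : ℝ) : 𝕜) • G N (pat θ r)
        = ∑ r : Fin N → Bool, (((2 ^ N : ℝ)⁻¹ : ℝ) : 𝕜) •
          (((sg (ext r n) : ℝ) : 𝕜) * a n) • G N (pat θ r) := by
      intro n _
      rw [Finset.smul_sum, Finset.smul_sum]
      refine Finset.sum_congr rfl (fun r _ => ?_)
      rw [smul_smul, smul_smul, smul_smul]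
      congr 1
      ring
    rw [Finset.sum_congr rfl h2, Finset.sum_comm]
    refine Finset.sum_congr rfl (fun r _ => ?_)
    rw [← Finset.smul_sum, ← Finset.sum_smul]
    congr 2
    have h3 : ∀ j : Fin N, ((sg (r j) : ℝ) : 𝕜) * a' j = ((sg (ext r j) : ℝ) : 𝕜) * a' j := by
      intro j
      rw [ext_coe]
    simp_rw [h3]
    rw [Fin.sum_univ_eq_sum_range (fun n => ((sg (ext r n) : ℝ) : 𝕜) * a' n) N]
    rw [← Finset.sum_subset hS]
    · refine Finset.sum_congr rfl (fun n hn => ?_)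
      simp only [ha', if_pos hn]
    · intro n _ hn
      simp only [ha', if_neg hn, mul_zero]
  rw [h1, norm_smul, RCLike.norm_ofReal, abs_of_pos (by positivity)]
  have h4 : ‖∑ r : Fin N → Bool, (∑ j : Fin N, ((sg (r j) : ℝ) : 𝕜) * a' j) • G N (pat θ r)‖
      ≤ (∑ r : Fin N → Bool, ‖∑ j : Fin N, ((sg (r j) : ℝ) : 𝕜) * a' j‖) * C := by
    refine (norm_sum_le _ _).trans ?_
    rw [Finset.sum_mul]
    refine Finset.sum_le_sum (fun r _ => ?_)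
    rw [norm_smul]
    exact mul_le_mul_of_nonneg_left (hG _ _) (norm_nonneg _)
  have h5 := sum_norm_sign_le (fun j : Fin N => a' j)
  rw [Fintype.card_fin] at h5
  have h6 : ∑ j : Fin N, ‖a' j‖ ^ 2 ≤ (S.card : ℝ) := by
    rw [Fin.sum_univ_eq_sum_range (fun n => ‖a' n‖ ^ 2) N, ← Finset.sum_subset hS]
    · calc ∑ n ∈ S, ‖a' n‖ ^ 2 ≤ ∑ n ∈ S, (1 : ℝ) := by
            refine Finset.sum_le_sum (fun n hn => ?_)
            simp only [ha', if_pos hn]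
            exact pow_le_one₀ (norm_nonneg _) (ha n)
        _ = (S.card : ℝ) := by simp
    · intro n _ hn
      simp only [ha', if_neg hn]
      simp
  calc (2 ^ N : ℝ)⁻¹ * ‖∑ r : Fin N → Bool,
        (∑ j : Fin N, ((sg (r j) : ℝ) : 𝕜) * a' j) • G N (pat θ r)‖
      ≤ (2 ^ N : ℝ)⁻¹ * ((∑ r : Fin N → Bool, ‖∑ j : Fin N, ((sg (r j) : ℝ) : 𝕜) * a' j‖) * C) := by
        gcongr
    _ ≤ (2 ^ N : ℝ)⁻¹ * ((2 ^ N * Real.sqrt (∑ j : Fin N, ‖a' j‖ ^ 2)) * C) := by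
        gcongr
    _ = C * Real.sqrt (∑ j : Fin N, ‖a' j‖ ^ 2) := by
        field_simp
    _ ≤ C * Real.sqrt S.card := by
        gcongr

lemma le_avg (G : ℕ → (ℕ → Bool) → (Y →L[𝕜] 𝕜)) (θ : ℕ → Bool) (y : ℕ → Y) {c : ℝ} (N : ℕ)
    (h : ∀ σ : ℕ → Bool, ∀ m < N, c ≤ sg (σ m) * RCLike.re (G N σ (y m))) (n i : ℕ)
    (hm : Nat.pair n i < N) :
    c ≤ sg (θ i) * RCLike.re (avg G θ N n (y (Nat.pair n i))) := by
  have h1 : sg (θ i) * RCLike.re (avg G θ N n (y (Nat.pair n i)))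
      = (2 ^ N : ℝ)⁻¹ * ∑ r : Fin N → Bool,
        sg (pat θ r (Nat.pair n i)) * RCLike.re (G N (pat θ r) (y (Nat.pair n i))) := by
    rw [avg, _root_.smul_apply, smul_eq_mul, RCLike.re_ofReal_mul, _root_.sum_apply, map_sum,
      mul_left_comm, Finset.mul_sum]
    congr 1
    refine Finset.sum_congr rfl (fun r _ => ?_)
    rw [_root_.smul_apply, smul_eq_mul, RCLike.re_ofReal_mul, pat, sg_beq, Nat.unpair_pair]
    ring
  rw [h1, le_inv_mul_iff₀ (by positivity)]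
  calc (2 ^ N : ℝ) * c = ∑ r : Fin N → Bool, c := by simp
    _ ≤ _ := Finset.sum_le_sum (fun r _ => h (pat θ r) _ hm)

theorem averages (y : ℕ → Y) {C c : ℝ}
    (h : ∀ (N : ℕ) (σ : ℕ → Bool), ∃ g : Y →L[𝕜] 𝕜, ‖g‖ ≤ C ∧
      ∀ m < N, c ≤ sg (σ m) * RCLike.re (g (y m))) (θ : ℕ → Bool) :
    ∃ Φ : ℕ → (Y →L[𝕜] 𝕜),
      (∀ (S : Finset ℕ) (a : ℕ → 𝕜), (∀ n, ‖a n‖ ≤ 1) →
        ‖∑ n ∈ S, a n • Φ n‖ ≤ C * Real.sqrt S.card) ∧
      ∀ n i, c ≤ sg (θ i) * RCLike.re (Φ n (y (Nat.pair n i))) := by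
  choose G hG hG' using h
  have hC : 0 ≤ C := (norm_nonneg _).trans (hG 0 (fun _ => false))
  have hb : ∀ n N, ‖avg G θ N n‖ ≤ C := by
    intro n N
    rw [avg, norm_smul, RCLike.norm_ofReal, abs_of_pos (by positivity),
      inv_mul_le_iff₀ (by positivity)]
    calc ‖∑ r : Fin N → Bool, ((sg (ext r n) : ℝ) : 𝕜) • G N (pat θ r)‖
        ≤ ∑ r : Fin N → Bool, ‖((sg (ext r n) : ℝ) : 𝕜) • G N (pat θ r)‖ := norm_sum_le _ _
      _ ≤ ∑ r : Fin N → Bool, C := by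
          refine Finset.sum_le_sum (fun r _ => ?_)
          rw [norm_smul, RCLike.norm_ofReal, abs_sg, one_mul]
          exact hG _ _
      _ = 2 ^ N * C := by simp
  have hlim : ∀ n, ∃ Φ : Y →L[𝕜] 𝕜, ∀ z, Tendsto (fun N => avg G θ N n z) (hyperfilter ℕ)
      (𝓝 (Φ z)) := fun n => exists_ultralimit (hyperfilter ℕ) (fun N => avg G θ N n) (hb n)
  choose Φ hΦ using hlim
  refine ⟨Φ, fun S a ha => ?_, fun n i => ?_⟩
  · refine ContinuousLinearMap.opNorm_le_bound _ (by positivity) (fun z => ?_)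
    have h1 : Tendsto (fun N => ‖(∑ n ∈ S, a n • avg G θ N n) z‖) (hyperfilter ℕ)
        (𝓝 ‖(∑ n ∈ S, a n • Φ n) z‖) := by
      refine Tendsto.norm ?_
      simp only [_root_.sum_apply, _root_.smul_apply]
      exact tendsto_finsetSum _ (fun n _ => (hΦ n z).const_smul (a n))
    refine le_of_tendsto h1 ?_
    have h2 : ∀ᶠ N in atTop, ‖(∑ n ∈ S, a n • avg G θ N n) z‖ ≤ C * Real.sqrt S.card * ‖z‖ := by
      filter_upwards [eventually_gt_atTop (S.sup id)] with N hN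
      refine ContinuousLinearMap.le_of_opNorm_le _ (norm_sum_avg_le G hG θ N S ?_ a ha) z
      intro n hn
      exact Finset.mem_range.2 ((Finset.le_sup (f := id) hn).trans_lt hN)
    exact Nat.hyperfilter_le_atTop h2
  · have h1 : Tendsto (fun N => sg (θ i) * RCLike.re (avg G θ N n (y (Nat.pair n i))))
        (hyperfilter ℕ) (𝓝 (sg (θ i) * RCLike.re (Φ n (y (Nat.pair n i))))) :=
      ((RCLike.continuous_re.tendsto _).comp (hΦ n _)).const_mul _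
    refine ge_of_tendsto h1 ?_
    have h2 : ∀ᶠ N in atTop, c ≤ sg (θ i) * RCLike.re (avg G θ N n (y (Nat.pair n i))) := by
      filter_upwards [eventually_gt_atTop (Nat.pair n i)] with N hN
      exact le_avg G θ y N (fun σ m hm => hG' N σ m hm) n i hN
    exact Nat.hyperfilter_le_atTop h2

end DualL1
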