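import Mathlib

/-! Combinatorial and soft functional analytic lemmas for the `L¹` dual space theorem. -/

namespace DualL1

open Filter Topology

/-- sign of a Boolean: `true ↦ 1`, `false ↦ -1`. -/
def sg (b : Bool) : ℝ := if b then 1 else -1

@[simp] lemma sg_true : sg true = 1 := rfl
@[simp] lemma sg_false : sg false = -1 := rfl

lemma sg_beq (a b : Bool) : sg (a == b) = sg a * sg b := by
  cases a <;> cases b <;> simp [sg]

lemma sg_not (a : Bool) : sg (!a) = - sg a := by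
  cases a <;> simp [sg]

lemma sg_mul_self (a : Bool) : sg a * sg a = 1 := by
  cases a <;> simp [sg]

lemma abs_sg (a : Bool) : |sg a| = 1 := by
  cases a <;> simp [sg]

section Khintchine

variable {𝕜 : Type*} [RCLike 𝕜] {J : Type*} [Fintype J] [DecidableEq J]

lemma sum_norm_sq_sign (c : J → 𝕜) (S : Finset J) :
    ∑ ε : J → Bool, ‖∑ j ∈ S, ((sg (ε j) : ℝ) : 𝕜) * c j‖ ^ 2
      = 2 ^ (Fintype.card J) * ∑ j ∈ S, ‖c j‖ ^ 2 := by
  classical
  induction S using Finset.induction_on with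
  | empty => simp
  | @insert a S ha ih =>
    set X : (J → Bool) → 𝕜 := fun ε => ∑ j ∈ S, ((sg (ε j) : ℝ) : 𝕜) * c j with hX
    let flip : (J → Bool) → (J → Bool) := fun ε => Function.update ε a (!(ε a))
    have hflip : Function.Involutive flip := by
      intro ε
      funext j
      by_cases hj : j = a
      · subst hj; simp [flip]
      · simp [flip, hj]
    have hXflip : ∀ ε, X (flip ε) = X ε := by
      intro ε
      refine Finset.sum_congr rfl (fun j hj => ?_)
      have : j ≠ a := fun h => ha (h ▸ hj)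
      simp [flip, this]
    have h1 : ∀ ε : J → Bool, ∑ j ∈ insert a S, ((sg (ε j) : ℝ) : 𝕜) * c j
        = ((sg (ε a) : ℝ) : 𝕜) * c a + X ε := fun ε => Finset.sum_insert ha
    simp_rw [h1]
    have h2 : ∑ ε : J → Bool, ‖((sg (ε a) : ℝ) : 𝕜) * c a + X ε‖ ^ 2
        = ∑ ε : J → Bool, ‖((sg (ε a) : ℝ) : 𝕜) * c a - X ε‖ ^ 2 := by
      refine Fintype.sum_bijective flip hflip.bijective _ _ (fun ε => ?_)
      rw [hXflip]
      have : flip ε a = !(ε a) := by simp [flip]
      rw [this, sg_not]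
      push_cast
      rw [show (-((sg (ε a) : ℝ) : 𝕜)) * c a - X ε = -(((sg (ε a) : ℝ) : 𝕜) * c a + X ε) by ring,
        norm_neg]
    have h3 : ∀ ε : J → Bool, ‖((sg (ε a) : ℝ) : 𝕜) * c a + X ε‖ ^ 2
        + ‖((sg (ε a) : ℝ) : 𝕜) * c a - X ε‖ ^ 2 = 2 * (‖c a‖ ^ 2 + ‖X ε‖ ^ 2) := by
      intro ε
      have := parallelogram_law_with_norm 𝕜 (((sg (ε a) : ℝ) : 𝕜) * c a) (X ε)
      have hn : ‖((sg (ε a) : ℝ) : 𝕜) * c a‖ = ‖c a‖ := by
        rw [norm_mul, RCLike.norm_ofReal, abs_sg, one_mul]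
      rw [hn] at this
      nlinarith [this]
    have h4 : 2 * ∑ ε : J → Bool, ‖((sg (ε a) : ℝ) : 𝕜) * c a + X ε‖ ^ 2
        = 2 * (2 ^ (Fintype.card J) * ‖c a‖ ^ 2 + ∑ ε : J → Bool, ‖X ε‖ ^ 2) := by
      calc 2 * ∑ ε : J → Bool, ‖((sg (ε a) : ℝ) : 𝕜) * c a + X ε‖ ^ 2
          = ∑ ε : J → Bool, ‖((sg (ε a) : ℝ) : 𝕜) * c a + X ε‖ ^ 2
            + ∑ ε : J → Bool, ‖((sg (ε a) : ℝ) : 𝕜) * c a - X ε‖ ^ 2 := by rw [← h2]; ring
        _ = ∑ ε : J → Bool, 2 * (‖c a‖ ^ 2 + ‖X ε‖ ^ 2) := by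
            rw [← Finset.sum_add_distrib]; exact Finset.sum_congr rfl (fun ε _ => h3 ε)
        _ = 2 * (2 ^ (Fintype.card J) * ‖c a‖ ^ 2 + ∑ ε : J → Bool, ‖X ε‖ ^ 2) := by
            rw [← Finset.mul_sum, Finset.sum_add_distrib]
            simp
    have h5 := mul_left_cancel₀ (two_ne_zero) h4
    rw [h5, ih, Finset.sum_insert ha]
    ring

/-- Upper Khintchine inequality (`L¹` against `L²`). -/
lemma sum_norm_sign_le (c : J → 𝕜) :
    ∑ ε : J → Bool, ‖∑ j, ((sg (ε j) : ℝ) : 𝕜) * c j‖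
      ≤ 2 ^ (Fintype.card J) * Real.sqrt (∑ j, ‖c j‖ ^ 2) := by
  have h1 := sum_norm_sq_sign c Finset.univ
  have h2 : (∑ ε : J → Bool, ‖∑ j, ((sg (ε j) : ℝ) : 𝕜) * c j‖) ^ 2
      ≤ (2 ^ (Fintype.card J)) * ∑ ε : J → Bool, ‖∑ j, ((sg (ε j) : ℝ) : 𝕜) * c j‖ ^ 2 := by
    have := sq_sum_le_card_mul_sum_sq (s := (Finset.univ : Finset (J → Bool)))
      (f := fun ε : J → Bool => ‖∑ j, ((sg (ε j) : ℝ) : 𝕜) * c j‖)
    simpa using this
  rw [h1] at h2
  have h3 : 0 ≤ ∑ j, ‖c j‖ ^ 2 := Finset.sum_nonneg (fun j _ => by positivity)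
  refine le_of_sq_le_sq ?_ (by positivity)
  · rw [mul_pow, Real.sq_sqrt h3]
    calc _ ≤ _ := h2
      _ = _ := by ring

end Khintchine

section Indep

/-- The prefix of length `k` of `α`. -/
def pre (α : ℕ → Bool) (k : ℕ) : List Bool := (List.range k).map α

lemma pre_length (α : ℕ → Bool) (k : ℕ) : (pre α k).length = k := by simp [pre]

lemma pre_inj {α β : ℕ → Bool} {k : ℕ} (h : pre α k = pre β k) : ∀ i < k, α i = β i := by
  intro i hi
  have := List.map_inj_left.1 h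
  exact this i (List.mem_range.2 hi)

/-- An independent family of size continuum of subsets of `ℕ`. -/
theorem exists_indep : ∃ θ : (ℕ → Bool) → ℕ → Bool,
    ∀ (s : Finset (ℕ → Bool)) (ε : (ℕ → Bool) → Bool), ∃ i, ∀ α ∈ s, θ α i = ε α := by
  classical
  obtain ⟨g, hg⟩ := exists_surjective_nat (Finset (List Bool))
  refine ⟨fun α i => decide (∃ l ∈ g i, l = pre α l.length), fun s ε => ?_⟩
  -- a level separating the elements of `s`
  have hk : ∃ k : ℕ, ∀ α ∈ s, ∀ β ∈ s, α ≠ β → pre α k ≠ pre β k := by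
    have h1 : ∀ p : (ℕ → Bool) × (ℕ → Bool), ∃ k, p.1 ≠ p.2 → p.1 k ≠ p.2 k := by
      intro p
      by_cases h : p.1 = p.2
      · exact ⟨0, fun h' => absurd h h'⟩
      · obtain ⟨k, hk⟩ := Function.ne_iff.1 h
        exact ⟨k, fun _ => hk⟩
    choose K hK using h1
    refine ⟨(s ×ˢ s).sup K + 1, fun α hα β hβ hne hpre => ?_⟩
    have h2 : K (α, β) ≤ (s ×ˢ s).sup K := Finset.le_sup (f := K) (Finset.mk_mem_product hα hβ)
    exact hK (α, β) hne (pre_inj hpre _ (by omega))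
  obtain ⟨k, hk⟩ := hk
  obtain ⟨i, hi⟩ := hg ((s.filter (fun α => ε α = true)).image (fun α => pre α k))
  refine ⟨i, fun α hα => ?_⟩
  have : (∃ l ∈ g i, l = pre α l.length) ↔ ε α = true := by
    rw [hi]
    constructor
    · rintro ⟨l, hl, hl'⟩
      obtain ⟨β, hβ, rfl⟩ := Finset.mem_image.1 hl
      rw [Finset.mem_filter] at hβ
      rw [pre_length] at hl'
      by_contra hne
      have hαβ : β ≠ α := by
        rintro rfl
        exact hne hβ.2
      exact hk β hβ.1 α hα hαβ hl'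
    · intro h
      refine ⟨pre α k, Finset.mem_image.2 ⟨α, Finset.mem_filter.2 ⟨hα, h⟩, rfl⟩, ?_⟩
      rw [pre_length]
  show decide _ = _
  by_cases h : ε α = true
  · rw [h]; exact decide_eq_true (this.2 h)
  · rw [Bool.not_eq_true] at h
    rw [h]
    refine decide_eq_false (fun h' => ?_)
    rw [this.1 h'] at h
    exact absurd h (by simp)

end Indep

section Minimax

variable {𝕜 : Type*} [RCLike 𝕜] {Y : Type*} [NormedAddCommGroup Y] [NormedSpace 𝕜 Y]

/-- The norm is the supremum of real parts on the unit ball. -/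
lemma norm_le_of_re_le (g : Y →L[𝕜] 𝕜) {a : ℝ} (ha0 : 0 ≤ a)
    (h : ∀ y : Y, ‖y‖ ≤ 1 → RCLike.re (g y) ≤ a) : ‖g‖ ≤ a := by
  refine g.opNorm_le_bound ha0 (fun y => ?_)
  by_cases hy : y = 0
  · simp [hy]
  · have hy' : 0 < ‖y‖ := norm_pos_iff.2 hy
    obtain ⟨c, hc, hc'⟩ := RCLike.exists_norm_eq_mul_self (g y)
    have h1 := h (((‖y‖⁻¹ : ℝ) : 𝕜) • (c • y)) (by
      rw [norm_smul, norm_smul, hc, RCLike.norm_ofReal, abs_of_pos (by positivity), one_mul,
        inv_mul_cancel₀ hy'.ne'])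
    have h2 : g (((‖y‖⁻¹ : ℝ) : 𝕜) • (c • y)) = ((‖y‖⁻¹ * ‖g y‖ : ℝ) : 𝕜) := by
      rw [map_smul, map_smul, smul_eq_mul, smul_eq_mul, ← hc', ← RCLike.ofReal_mul]
    rw [h2, RCLike.ofReal_re, inv_mul_le_iff₀ hy', mul_comm] at h1
    exact h1

/-- A minimax lemma. -/
theorem exists_ball_re_gt {ι : Type*} [Fintype ι] (g : ι → (Y →L[𝕜] 𝕜)) {δ δ' : ℝ} (hδ' : 0 ≤ δ')
    (hδ : δ' < δ)
    (h : ∀ t : ι → ℝ, (∀ j, 0 ≤ t j) → δ * ∑ j, t j ≤ ‖∑ j, ((t j : ℝ) : 𝕜) • g j‖) :
    ∃ y : Y, ‖y‖ ≤ 1 ∧ ∀ j, δ' < RCLike.re (g j y) := by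
  classical
  by_contra hcon
  push Not at hcon
  set T : Y → (ι → ℝ) := fun y j => RCLike.re (g j y) with hT
  set K : Set (ι → ℝ) := T '' (Metric.closedBall (0 : Y) 1) with hK
  set U : Set (ι → ℝ) := {x | ∀ j, δ' < x j} with hU
  have hUo : IsOpen U := by
    have : U = ⋂ j, {x : ι → ℝ | δ' < x j} := by ext x; simp [hU]
    rw [this]
    exact isOpen_iInter_of_finite (fun j => isOpen_lt continuous_const (continuous_apply j))
  have hUc : Convex ℝ U := by
    intro x hx y hy a b ha hb hab j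
    have h1 := hx j
    have h2 := hy j
    simp only [Pi.add_apply, Pi.smul_apply, smul_eq_mul]
    rcases ha.eq_or_lt with rfl | ha'
    · have : b = 1 := by linarith
      subst this; linarith
    · nlinarith [mul_lt_mul_of_pos_left h1 ha', mul_le_mul_of_nonneg_left h2.le hb]
  have hKc : Convex ℝ K := by
    rintro _ ⟨x, hx, rfl⟩ _ ⟨y, hy, rfl⟩ a b ha hb hab
    refine ⟨((a : ℝ) : 𝕜) • x + ((b : ℝ) : 𝕜) • y, ?_, ?_⟩
    · rw [mem_closedBall_zero_iff] at *
      calc ‖((a : ℝ) : 𝕜) • x + ((b : ℝ) : 𝕜) • y‖ ≤ ‖((a : ℝ) : 𝕜) • x‖ + ‖((b : ℝ) : 𝕜) • y‖ :=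
            norm_add_le _ _
        _ = a * ‖x‖ + b * ‖y‖ := by
            rw [norm_smul, norm_smul, RCLike.norm_ofReal, RCLike.norm_ofReal, abs_of_nonneg ha,
              abs_of_nonneg hb]
        _ ≤ a * 1 + b * 1 := by gcongr
        _ = 1 := by linarith
    · funext j
      simp only [hT, map_add, map_smul, smul_eq_mul, RCLike.re_ofReal_mul, Pi.add_apply,
        Pi.smul_apply]
  have hdisj : Disjoint U K := by
    rw [Set.disjoint_left]
    rintro _ hx ⟨y, hy, rfl⟩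
    obtain ⟨j, hj⟩ := hcon y (mem_closedBall_zero_iff.1 hy)
    exact absurd (hx j) (not_lt.2 hj)
  obtain ⟨f, u, hf1, hf2⟩ := geometric_hahn_banach_open hUc hUo hKc hdisj
  -- coordinates of `f`
  set l : ι → ℝ := fun j => f (Pi.single j 1) with hl
  have hfl : ∀ x : ι → ℝ, f x = ∑ j, x j * l j := by
    intro x
    conv_lhs => rw [← Finset.univ_sum_single x]
    rw [map_sum]
    refine Finset.sum_congr rfl (fun j _ => ?_)
    have : (Pi.single j (x j) : ι → ℝ) = x j • (Pi.single j 1 : ι → ℝ) := by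
      rw [← Pi.single_smul]; simp
    rw [this, map_smul, smul_eq_mul]
  have h0K : (0 : ι → ℝ) ∈ K := ⟨0, by simp, by funext j; simp [hT]⟩
  have hu0 : u ≤ 0 := by simpa using hf2 0 h0K
  -- nonpositivity of coordinates
  have hlneg : ∀ j, l j ≤ 0 := by
    intro j
    by_contra hj
    push Not at hj
    -- move far in the direction `j`
    have hbase : (fun _ => δ' + 1 : ι → ℝ) ∈ U := fun i => by show δ' < δ' + 1; linarith
    have hmove : ∀ s : ℝ, 0 ≤ s → f (fun _ => δ' + 1) + s * l j < u := by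
      intro s hs
      have hm : ((fun _ => δ' + 1 : ι → ℝ) + s • (Pi.single j 1 : ι → ℝ)) ∈ U := by
        intro i
        by_cases hij : i = j
        · subst hij
          simp only [Pi.add_apply, Pi.smul_apply, Pi.single_eq_same, smul_eq_mul, mul_one]
          linarith
        · simp only [Pi.add_apply, Pi.smul_apply, smul_eq_mul]
          rw [Pi.single_eq_of_ne hij]
          linarith
      have := hf1 _ hm
      rwa [map_add, map_smul, smul_eq_mul] at this
    have h3 := hmove ((|f (fun _ => δ' + 1)| + 1) / l j) (by positivity)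
    rw [div_mul_cancel₀ _ hj.ne'] at h3
    have := neg_abs_le (f (fun _ => δ' + 1))
    linarith
  set t : ι → ℝ := fun j => - l j with ht
  have htn : ∀ j, 0 ≤ t j := fun j => by simp only [ht]; linarith [hlneg j]
  -- upper bound on `U`
  have hU2 : - (δ' * ∑ j, t j) ≤ u := by
    have hlim : Tendsto (fun s : ℝ => f (fun _ => δ' + s)) (𝓝[>] 0) (𝓝 (f (fun _ => δ' + 0))) := by
      refine (Continuous.tendsto ?_ 0).mono_left nhdsWithin_le_nhds
      exact f.continuous.comp (continuous_pi (fun _ => continuous_const.add continuous_id))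
    have h4 : f (fun _ => δ' + 0) ≤ u := by
      refine le_of_tendsto hlim ?_
      filter_upwards [self_mem_nhdsWithin] with s hs
      exact (hf1 _ (fun i => by show δ' < δ' + s; linarith [Set.mem_Ioi.1 hs])).le
    rw [hfl] at h4
    have h5 : ∑ j : ι, (δ' + 0) * l j = - (δ' * ∑ j, t j) := by
      rw [Finset.mul_sum, ← Finset.sum_neg_distrib]
      refine Finset.sum_congr rfl (fun j _ => ?_)
      simp only [ht]; ring
    linarith
  -- the functional
  have hnorm : ‖∑ j, ((t j : ℝ) : 𝕜) • g j‖ ≤ δ' * ∑ j, t j := by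
    refine norm_le_of_re_le _ (mul_nonneg hδ' (Finset.sum_nonneg (fun j _ => htn j))) (fun y hy => ?_)
    have h6 := hf2 (T y) ⟨y, mem_closedBall_zero_iff.2 hy, rfl⟩
    rw [hfl] at h6
    have h7 : RCLike.re ((∑ j, ((t j : ℝ) : 𝕜) • g j) y) = - ∑ j, T y j * l j := by
      rw [_root_.sum_apply, map_sum, ← Finset.sum_neg_distrib]
      refine Finset.sum_congr rfl (fun j _ => ?_)
      rw [_root_.smul_apply, smul_eq_mul, RCLike.re_ofReal_mul]
      simp only [ht, hT]; ring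
    rw [h7]
    linarith
  have h8 := h t htn
  have h9 : ∑ j, t j = 0 := by
    by_contra hne
    have hpos : 0 < ∑ j, t j := lt_of_le_of_ne (Finset.sum_nonneg (fun j _ => htn j)) (Ne.symm hne)
    have := mul_lt_mul_of_pos_right hδ hpos
    linarith
  have h10 : ∀ j, t j = 0 := fun j =>
    (Finset.sum_eq_zero_iff_of_nonneg (fun j _ => htn j)).1 h9 j (Finset.mem_univ j)
  have h11 : ∀ x, f x = 0 := by
    intro x
    rw [hfl]
    refine Finset.sum_eq_zero (fun j _ => ?_)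
    have := h10 j
    simp only [ht] at this
    have h12 : l j = 0 := by linarith
    rw [h12, mul_zero]
  have h13 := hf1 (fun _ => δ' + 1) (fun i => by show δ' < δ' + 1; linarith)
  rw [h11] at h13
  have h14 := hf2 0 h0K
  rw [h11] at h14
  linarith

end Minimax

section UltraLimit

variable {𝕜 : Type*} [RCLike 𝕜] {Y : Type*} [NormedAddCommGroup Y] [NormedSpace 𝕜 Y]

/-- Bounded sequences of functionals have pointwise limits along an ultrafilter. -/
theorem exists_ultralimit (U : Ultrafilter ℕ) (g : ℕ → (Y →L[𝕜] 𝕜)) {C : ℝ}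
    (hg : ∀ N, ‖g N‖ ≤ C) :
    ∃ G : Y →L[𝕜] 𝕜, ∀ y, Tendsto (fun N => g N y) U (𝓝 (G y)) := by
  have hcomp := WeakDual.isCompact_closedBall (0 : StrongDual 𝕜 Y) C
  have hmem : ∀ N, (StrongDual.toWeakDual (g N)) ∈
      (WeakDual.toStrongDual ⁻¹' Metric.closedBall (0 : StrongDual 𝕜 Y) C) := by
    intro N
    rw [Set.mem_preimage]
    simpa using hg N
  obtain ⟨G, hG, hlim⟩ := hcomp.ultrafilter_le_nhds (U.map (fun N => StrongDual.toWeakDual (g N)))
    (by
      rw [Filter.le_principal_iff, Ultrafilter.coe_map, Filter.mem_map]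
      exact Filter.Eventually.of_forall hmem)
  refine ⟨WeakDual.toStrongDual G, fun y => ?_⟩
  have h1 : Tendsto (fun N => StrongDual.toWeakDual (g N)) U (𝓝 G) := hlim
  have h2 := (WeakDual.eval_continuous y).tendsto G
  exact h2.comp h1

end UltraLimit

end DualL1
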