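import Pool.Agent.Helper2.DualL1.Struct
import Pool.Agent.Helper2.DualL1.Comb

/-! The dual of a `c₀`-sum. -/

namespace DualL1

open Filter Topology
open scoped ZeroAtInfty

section Single

variable {𝕜 : Type*} [RCLike 𝕜] {V : Type*} [NormedAddCommGroup V] [NormedSpace 𝕜 V]
variable {J : Type*} [TopologicalSpace J] [DiscreteTopology J]

lemma c0_norm_le {f : C₀(J, V)} {C : ℝ} (hC : 0 ≤ C) (h : ∀ x, ‖f x‖ ≤ C) : ‖f‖ ≤ C := by
  rw [← ZeroAtInftyContinuousMap.norm_toBCF_eq_norm]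
  exact (BoundedContinuousFunction.norm_le hC).2 h

lemma c0_le_norm (f : C₀(J, V)) (x : J) : ‖f x‖ ≤ ‖f‖ := by
  rw [← ZeroAtInftyContinuousMap.norm_toBCF_eq_norm]
  exact f.toBCF.norm_coe_le_norm x

open Classical in
/-- The finitely supported element of `C₀(J, V)` given by `v` on `S`. -/
noncomputable def ofFin (S : Finset J) (v : J → V) : C₀(J, V) where
  toFun i := if i ∈ S then v i else 0
  continuous_toFun := continuous_of_discreteTopology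
  zero_at_infty' := by
    refine tendsto_const_nhds.congr' ?_
    have h : (↑S : Set J)ᶜ ∈ cocompact J := (S.finite_toSet.isCompact).compl_mem_cocompact
    filter_upwards [h] with i hi
    rw [if_neg]
    exact hi

open Classical in
lemma ofFin_apply (S : Finset J) (v : J → V) (i : J) :
    ofFin S v i = if i ∈ S then v i else 0 := rfl

lemma ofFin_norm_le (S : Finset J) (v : J → V) {C : ℝ} (hC : 0 ≤ C) (h : ∀ i ∈ S, ‖v i‖ ≤ C) :
    ‖ofFin S v‖ ≤ C := by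
  classical
  refine c0_norm_le hC (fun i => ?_)
  rw [ofFin_apply]
  split_ifs with hi
  · exact h i hi
  · simpa using hC

variable (𝕜) in
/-- evaluation at a point -/
noncomputable def evalL (j : J) : C₀(J, V) →L[𝕜] V :=
  LinearMap.mkContinuous
    { toFun := fun f => f j
      map_add' := fun f g => rfl
      map_smul' := fun c f => rfl } 1 (fun f => by
        rw [one_mul]; exact c0_le_norm f j)

@[simp] lemma evalL_apply (j : J) (f : C₀(J, V)) : evalL 𝕜 j f = f j := rfl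

variable (𝕜) in
/-- the elements supported at one point -/
noncomputable def singleL (j : J) : V →L[𝕜] C₀(J, V) :=
  LinearMap.mkContinuous
    { toFun := fun v => ofFin {j} (fun _ => v)
      map_add' := fun v w => by
        classical
        ext i
        simp only [ofFin_apply, ZeroAtInftyContinuousMap.add_apply]
        split_ifs <;> simp
      map_smul' := fun c v => by
        classical
        ext i
        simp only [ofFin_apply, ZeroAtInftyContinuousMap.smul_apply, RingHom.id_apply]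
        split_ifs <;> simp } 1 (fun v => by
        rw [one_mul]; exact ofFin_norm_le _ _ (norm_nonneg _) (fun _ _ => le_rfl))

open Classical in
lemma singleL_apply (j : J) (v : V) (i : J) :
    singleL 𝕜 j v i = if i = j then v else 0 := by
  show ofFin {j} (fun _ => v) i = _
  rw [ofFin_apply]
  simp

lemma ofFin_eq_sum (S : Finset J) (v : J → V) : ofFin S v = ∑ j ∈ S, singleL 𝕜 j (v j) := by
  classical
  ext i
  have h1 : (∑ j ∈ S, singleL 𝕜 j (v j)) i = ∑ j ∈ S, singleL 𝕜 j (v j) i :=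
    map_sum (evalL 𝕜 (V := V) i) (fun j => singleL 𝕜 j (v j)) S
  rw [h1, ofFin_apply]
  simp only [singleL_apply]
  rw [Finset.sum_ite_eq]

lemma exists_approx_fin (f : C₀(J, V)) {ε : ℝ} (hε : 0 < ε) :
    ∃ S : Finset J, ‖f - ofFin S f‖ ≤ ε := by
  classical
  have h1 : ∀ᶠ x in cocompact J, ‖f x‖ < ε := by
    have := f.zero_at_infty'
    have h2 := this.norm
    rw [norm_zero] at h2
    exact h2.eventually (gt_mem_nhds hε)
  obtain ⟨K, hK, hK'⟩ := mem_cocompact.1 h1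
  have hKf : K.Finite := hK.finite_of_discrete
  refine ⟨hKf.toFinset, c0_norm_le hε.le (fun x => ?_)⟩
  rw [ZeroAtInftyContinuousMap.sub_apply, ofFin_apply]
  split_ifs with hx
  · simpa using hε.le
  · rw [sub_zero]
    have : x ∈ Kᶜ := fun h => hx (hKf.mem_toFinset.2 h)
    exact (hK' this).le

lemma ext_single {Φ Ψ : C₀(J, V) →L[𝕜] 𝕜}
    (h : ∀ j v, Φ (singleL 𝕜 j v) = Ψ (singleL 𝕜 j v)) : Φ = Ψ := by
  ext f
  rw [← sub_eq_zero, ← norm_eq_zero, ← _root_.sub_apply]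
  refine le_antisymm ?_ (norm_nonneg _)
  refine le_of_forall_pos_le_add (fun ε hε => ?_)
  rw [zero_add]
  set D := Φ - Ψ with hD
  obtain ⟨S, hS⟩ := exists_approx_fin f (ε := ε / (‖D‖ + 1)) (by positivity)
  have h1 : D (ofFin S f) = 0 := by
    rw [ofFin_eq_sum (𝕜 := 𝕜), map_sum]
    refine Finset.sum_eq_zero (fun j _ => ?_)
    rw [hD, _root_.sub_apply, h, sub_self]
  have h2 : D f = D (f - ofFin S f) := by rw [map_sub, h1, sub_zero]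
  rw [h2]
  calc ‖D (f - ofFin S f)‖ ≤ ‖D‖ * ‖f - ofFin S f‖ := D.le_opNorm _
    _ ≤ (‖D‖ + 1) * (ε / (‖D‖ + 1)) := by
      refine mul_le_mul (by linarith) hS (norm_nonneg _) (by positivity)
    _ = ε := by field_simp

end Single

section Dual

variable {𝕜 : Type*} [RCLike 𝕜] {V : Type*} [NormedAddCommGroup V] [NormedSpace 𝕜 V]
variable {J : Type*} [TopologicalSpace J] [DiscreteTopology J]
variable {Γ : Type*} [TopologicalSpace Γ] [DiscreteTopology Γ]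

lemma exists_half (φ : V →L[𝕜] 𝕜) : ∃ v : V, ‖v‖ ≤ 1 ∧ ‖φ‖ / 2 ≤ RCLike.re (φ v) := by
  by_contra hcon
  push Not at hcon
  have h1 : ‖φ‖ ≤ ‖φ‖ / 2 := norm_le_of_re_le φ (by positivity) (fun y hy => (hcon y hy).le)
  have h2 : ‖φ‖ = 0 := by
    have := norm_nonneg φ
    linarith
  have h3 := hcon 0 (by simp)
  rw [map_zero, map_zero, h2] at h3
  simp at h3

lemma sum_norm_le (Φ : C₀(J, V) →L[𝕜] 𝕜) (S : Finset J) :
    ∑ j ∈ S, ‖Φ.comp (singleL 𝕜 j)‖ ≤ 2 * ‖Φ‖ := by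
  choose v hv hv' using fun j => exists_half (Φ.comp (singleL 𝕜 j))
  have h1 : ‖ofFin S v‖ ≤ 1 := ofFin_norm_le S v zero_le_one (fun i _ => hv i)
  have h2 : ∑ j ∈ S, ‖Φ.comp (singleL 𝕜 j)‖ / 2 ≤ RCLike.re (Φ (ofFin S v)) := by
    rw [ofFin_eq_sum (𝕜 := 𝕜), map_sum, map_sum]
    exact Finset.sum_le_sum (fun j _ => hv' j)
  have h3 : RCLike.re (Φ (ofFin S v)) ≤ ‖Φ‖ := by
    calc RCLike.re (Φ (ofFin S v)) ≤ ‖Φ (ofFin S v)‖ := RCLike.re_le_norm _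
      _ ≤ ‖Φ‖ * ‖ofFin S v‖ := Φ.le_opNorm _
      _ ≤ ‖Φ‖ * 1 := mul_le_mul_of_nonneg_left h1 (norm_nonneg Φ)
      _ = ‖Φ‖ := mul_one _
  rw [← Finset.sum_div] at h2
  linarith

variable (𝕜 V J Γ) in
/-- The predual. -/
abbrev Pre : Type _ := C₀(J, V) × C₀(Γ, 𝕜)

variable (𝕜 V J Γ) in
/-- embedding of a dual space into the dual of the sum -/
noncomputable def dI (j : J) : (V →L[𝕜] 𝕜) →L[𝕜] (Pre 𝕜 V J Γ →L[𝕜] 𝕜) :=
  (ContinuousLinearMap.compL 𝕜 (Pre 𝕜 V J Γ) V 𝕜).flip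
    ((evalL 𝕜 j).comp (ContinuousLinearMap.fst 𝕜 _ _))

variable (𝕜 V J Γ) in
/-- embedding of the scalars into the dual of the sum -/
noncomputable def dK (γ : Γ) : 𝕜 →L[𝕜] (Pre 𝕜 V J Γ →L[𝕜] 𝕜) :=
  ContinuousLinearMap.toSpanSingleton 𝕜
    ((evalL 𝕜 γ).comp (ContinuousLinearMap.snd 𝕜 C₀(J, V) C₀(Γ, 𝕜)))

lemma dI_apply (j : J) (φ : V →L[𝕜] 𝕜) (p : Pre 𝕜 V J Γ) : dI 𝕜 V J Γ j φ p = φ (p.1 j) := rfl

lemma dK_apply (γ : Γ) (a : 𝕜) (p : Pre 𝕜 V J Γ) : dK 𝕜 V J Γ γ a p = a * p.2 γ := rfl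

lemma norm_dI_le (j : J) (φ : V →L[𝕜] 𝕜) : ‖dI 𝕜 V J Γ j φ‖ ≤ ‖φ‖ := by
  refine ContinuousLinearMap.opNorm_le_bound _ (norm_nonneg φ) (fun p => ?_)
  rw [dI_apply]
  calc ‖φ (p.1 j)‖ ≤ ‖φ‖ * ‖p.1 j‖ := φ.le_opNorm _
    _ ≤ ‖φ‖ * ‖p‖ := mul_le_mul_of_nonneg_left ((c0_le_norm p.1 j).trans (norm_fst_le p))
      (norm_nonneg φ)

lemma norm_dK_le (γ : Γ) (a : 𝕜) : ‖dK 𝕜 V J Γ γ a‖ ≤ ‖a‖ := by
  refine ContinuousLinearMap.opNorm_le_bound _ (norm_nonneg a) (fun p => ?_)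
  rw [dK_apply, norm_mul]
  exact mul_le_mul_of_nonneg_left ((c0_le_norm p.2 γ).trans (norm_snd_le p)) (norm_nonneg a)

lemma dual_lower (S : Finset J) (T : Finset Γ) (x : J → (V →L[𝕜] 𝕜)) (y : Γ → 𝕜) :
    (1 / 2 : ℝ) * (∑ j ∈ S, ‖x j‖ + ∑ γ ∈ T, ‖y γ‖)
      ≤ ‖∑ j ∈ S, dI 𝕜 V J Γ j (x j) + ∑ γ ∈ T, dK 𝕜 V J Γ γ (y γ)‖ := by
  classical
  choose v hv hv' using fun j => exists_half (x j)
  choose a ha ha' using fun γ => RCLike.exists_norm_eq_mul_self (y γ)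
  set p : Pre 𝕜 V J Γ := (ofFin S v, ofFin T a) with hp
  have hp1 : ‖p‖ ≤ 1 := by
    rw [hp, Prod.norm_def]
    exact max_le (ofFin_norm_le S v zero_le_one (fun i _ => hv i))
      (ofFin_norm_le T a zero_le_one (fun i _ => (ha i).le))
  set Φ := ∑ j ∈ S, dI 𝕜 V J Γ j (x j) + ∑ γ ∈ T, dK 𝕜 V J Γ γ (y γ) with hΦ
  have h1 : Φ p = ∑ j ∈ S, x j (v j) + ∑ γ ∈ T, ((‖y γ‖ : ℝ) : 𝕜) := by
    rw [hΦ, _root_.add_apply, _root_.sum_apply, _root_.sum_apply]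
    congr 1
    · refine Finset.sum_congr rfl (fun j hj => ?_)
      rw [dI_apply, hp, ofFin_apply, if_pos hj]
    · refine Finset.sum_congr rfl (fun γ hγ => ?_)
      rw [dK_apply, hp, ofFin_apply, if_pos hγ, ha', mul_comm]
  have h2 : (1 / 2 : ℝ) * (∑ j ∈ S, ‖x j‖ + ∑ γ ∈ T, ‖y γ‖) ≤ RCLike.re (Φ p) := by
    rw [h1, map_add, map_sum, map_sum, mul_add, Finset.mul_sum, Finset.mul_sum]
    refine add_le_add (Finset.sum_le_sum (fun j _ => ?_)) (Finset.sum_le_sum (fun γ _ => ?_))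
    · have := hv' j
      linarith
    · rw [RCLike.ofReal_re]
      have := norm_nonneg (y γ)
      linarith
  calc (1 / 2 : ℝ) * (∑ j ∈ S, ‖x j‖ + ∑ γ ∈ T, ‖y γ‖) ≤ RCLike.re (Φ p) := h2
    _ ≤ ‖Φ p‖ := RCLike.re_le_norm _
    _ ≤ ‖Φ‖ * ‖p‖ := Φ.le_opNorm _
    _ ≤ ‖Φ‖ * 1 := mul_le_mul_of_nonneg_left hp1 (norm_nonneg Φ)
    _ = ‖Φ‖ := mul_one _

lemma summable_single (Φ : C₀(J, V) →L[𝕜] 𝕜) : Summable (fun j => ‖Φ.comp (singleL 𝕜 j)‖) :=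
  summable_of_sum_le (c := 2 * ‖Φ‖) (fun j => norm_nonneg (Φ.comp (singleL 𝕜 j)))
    (fun S => sum_norm_le Φ S)

lemma norm_comp_singleL_one (Φ : C₀(Γ, 𝕜) →L[𝕜] 𝕜) (γ : Γ) :
    ‖Φ (singleL 𝕜 γ 1)‖ ≤ ‖Φ.comp (singleL 𝕜 γ)‖ := by
  have h := (Φ.comp (singleL 𝕜 γ)).le_opNorm 1
  rw [norm_one, mul_one] at h
  exact h

omit [TopologicalSpace J] [DiscreteTopology J] [TopologicalSpace Γ] [DiscreteTopology Γ] in
lemma summable_gen {Y ι : Type*} [NormedAddCommGroup Y] [NormedSpace 𝕜 Y] (f : ι → (Y →L[𝕜] 𝕜))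
    (g : ι → ℝ) (hg : Summable g) (h : ∀ i, ‖f i‖ ≤ g i) : Summable f :=
  Summable.of_norm_bounded hg h

lemma summable_dI (Φ : C₀(J, V) →L[𝕜] 𝕜) :
    Summable (fun j => dI 𝕜 V J Γ j (Φ.comp (singleL 𝕜 j))) := by
  refine summable_gen _ (fun j => ‖Φ.comp (singleL 𝕜 j)‖) ?_ ?_
  · exact summable_single Φ
  · intro j
    exact norm_dI_le j (Φ.comp (singleL 𝕜 j))

lemma summable_dK (Φ : C₀(Γ, 𝕜) →L[𝕜] 𝕜) :
    Summable (fun γ => dK 𝕜 V J Γ γ (Φ (singleL 𝕜 γ 1))) := by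
  refine summable_gen _ (fun j => ‖Φ.comp (singleL 𝕜 j)‖) ?_ ?_
  · exact summable_single Φ
  · intro γ
    exact (norm_dK_le γ (Φ (singleL 𝕜 γ 1))).trans (norm_comp_singleL_one Φ γ)

lemma tsum_dI (Φ : C₀(J, V) →L[𝕜] 𝕜) (p : Pre 𝕜 V J Γ) :
    (∑' j, dI 𝕜 V J Γ j (Φ.comp (singleL 𝕜 j))) p = Φ p.1 := by
  have h0 : ∀ p : Pre 𝕜 V J Γ, HasSum (fun j => Φ (singleL 𝕜 j (p.1 j)))
      ((∑' j, dI 𝕜 V J Γ j (Φ.comp (singleL 𝕜 j))) p) := fun p =>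
    (summable_dI (Γ := Γ) Φ).hasSum.mapL (ContinuousLinearMap.apply 𝕜 𝕜 p)
  have h1 : (∑' j, dI 𝕜 V J Γ j (Φ.comp (singleL 𝕜 j))).comp (ContinuousLinearMap.inl 𝕜 _ _)
      = Φ := by
    classical
    refine ext_single (fun j v => ?_)
    have h3 := h0 (singleL 𝕜 j v, 0)
    have h4 : HasSum (fun j' => Φ (singleL 𝕜 j' (singleL 𝕜 j v j'))) (Φ (singleL 𝕜 j v)) := by
      have h5 : Φ (singleL 𝕜 j (singleL 𝕜 j v j)) = Φ (singleL 𝕜 j v) := by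
        rw [singleL_apply, if_pos rfl]
      rw [← h5]
      refine hasSum_single j (fun j' hj' => ?_)
      rw [singleL_apply, if_neg hj', map_zero, map_zero]
    exact h3.unique h4
  have h2 : ∀ g : C₀(Γ, 𝕜), (∑' j, dI 𝕜 V J Γ j (Φ.comp (singleL 𝕜 j))) (0, g) = 0 := by
    intro g
    have h3 := h0 (0, g)
    have h4 : ∀ j : J, Φ (singleL 𝕜 j ((0 : C₀(J, V)) j)) = 0 := by
      intro j
      rw [ZeroAtInftyContinuousMap.zero_apply, map_zero, map_zero]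
    simp only [h4] at h3
    exact h3.unique hasSum_zero
  have h5 : p = (p.1, 0) + (0, p.2) := by simp
  have h6 : (∑' j, dI 𝕜 V J Γ j (Φ.comp (singleL 𝕜 j))) (p.1, 0) = Φ p.1 :=
    congrArg (fun L : C₀(J, V) →L[𝕜] 𝕜 => L p.1) h1
  conv_lhs => rw [h5]
  rw [map_add, h6, h2, add_zero]

lemma tsum_dK (Φ : C₀(Γ, 𝕜) →L[𝕜] 𝕜) (p : Pre 𝕜 V J Γ) :
    (∑' γ, dK 𝕜 V J Γ γ (Φ (singleL 𝕜 γ 1))) p = Φ p.2 := by
  have hs : ∀ (γ : Γ) (b : 𝕜), Φ (singleL 𝕜 γ 1) * b = Φ (singleL 𝕜 γ b) := by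
    intro γ b
    have e2 : singleL 𝕜 γ b = b • singleL 𝕜 γ (1 : 𝕜) := by
      rw [← map_smul, smul_eq_mul, mul_one]
    rw [e2, map_smul, smul_eq_mul, mul_comm]
  have h0 : ∀ p : Pre 𝕜 V J Γ, HasSum (fun γ => Φ (singleL 𝕜 γ 1) * p.2 γ)
      ((∑' γ, dK 𝕜 V J Γ γ (Φ (singleL 𝕜 γ 1))) p) := fun p =>
    (summable_dK (V := V) (J := J) Φ).hasSum.mapL (ContinuousLinearMap.apply 𝕜 𝕜 p)
  simp only [hs] at h0
  have h1 : (∑' γ, dK 𝕜 V J Γ γ (Φ (singleL 𝕜 γ 1))).comp (ContinuousLinearMap.inr 𝕜 _ _)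
      = Φ := by
    classical
    refine ext_single (fun j v => ?_)
    have h3 := h0 (0, singleL 𝕜 j v)
    have h4 : HasSum (fun j' => Φ (singleL 𝕜 j' (singleL 𝕜 j v j'))) (Φ (singleL 𝕜 j v)) := by
      have h5 : Φ (singleL 𝕜 j (singleL 𝕜 j v j)) = Φ (singleL 𝕜 j v) := by
        rw [singleL_apply, if_pos rfl]
      rw [← h5]
      refine hasSum_single j (fun j' hj' => ?_)
      rw [singleL_apply, if_neg hj', map_zero, map_zero]
    exact h3.unique h4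
  have h2 : ∀ g : C₀(J, V), (∑' γ, dK 𝕜 V J Γ γ (Φ (singleL 𝕜 γ 1))) (g, 0) = 0 := by
    intro g
    have h3 := h0 (g, 0)
    have h4 : ∀ γ : Γ, Φ (singleL 𝕜 γ ((0 : C₀(Γ, 𝕜)) γ)) = 0 := by
      intro j
      rw [ZeroAtInftyContinuousMap.zero_apply, map_zero, map_zero]
    simp only [h4] at h3
    exact h3.unique hasSum_zero
  have h5 : p = (p.1, 0) + (0, p.2) := by simp
  have h6 : (∑' γ, dK 𝕜 V J Γ γ (Φ (singleL 𝕜 γ 1))) (0, p.2) = Φ p.2 :=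
    congrArg (fun L : C₀(Γ, 𝕜) →L[𝕜] 𝕜 => L p.2) h1
  conv_lhs => rw [h5]
  rw [map_add, h6, h2, zero_add]

variable (𝕜 V J Γ) in
/-- The dual of a `c₀`-sum is the `ℓ¹`-sum of the duals. -/
noncomputable def dualStruct :
    LStruct 𝕜 (V →L[𝕜] 𝕜) 𝕜 (Pre 𝕜 V J Γ →L[𝕜] 𝕜) J Γ where
  i j := dI 𝕜 V J Γ j
  k γ := dK 𝕜 V J Γ γ
  c := 1 / 2
  C := 1
  hc := by norm_num
  upper_i j φ := by rw [one_mul]; exact norm_dI_le j φ
  upper_k γ a := by rw [one_mul]; exact norm_dK_le γ a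
  lower S T x y := dual_lower S T x y
  dense M hM h1 h2 := by
    rw [eq_top_iff]
    intro Φ _
    have hm₁ : (∑' j, dI 𝕜 V J Γ j ((Φ.comp (ContinuousLinearMap.inl 𝕜 _ _)).comp
        (singleL 𝕜 j))) ∈ M :=
      hM.mem_of_tendsto (summable_dI _).hasSum
        (Eventually.of_forall (fun S => M.sum_mem (fun j _ => h1 j _)))
    have hm₂ : (∑' γ, dK 𝕜 V J Γ γ ((Φ.comp (ContinuousLinearMap.inr 𝕜 _ _))
        (singleL 𝕜 γ 1))) ∈ M :=
      hM.mem_of_tendsto (summable_dK _).hasSum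
        (Eventually.of_forall (fun S => M.sum_mem (fun j _ => h2 j _)))
    have hfinal : Φ = (∑' j, dI 𝕜 V J Γ j ((Φ.comp (ContinuousLinearMap.inl 𝕜 _ _)).comp
        (singleL 𝕜 j))) + ∑' γ, dK 𝕜 V J Γ γ ((Φ.comp (ContinuousLinearMap.inr 𝕜 _ _))
        (singleL 𝕜 γ 1)) := by
      refine ContinuousLinearMap.ext (fun p => ?_)
      rw [_root_.add_apply, tsum_dI, tsum_dK]
      simp only [ContinuousLinearMap.comp_apply, ContinuousLinearMap.inl_apply,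
        ContinuousLinearMap.inr_apply]
      rw [← map_add]
      simp
    rw [hfinal]
    exact M.add_mem hm₁ hm₂

end Dual

end DualL1
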