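import Mathlib

/-! Banach spaces that are `ℓ¹`-sums of copies of two given spaces. -/

namespace DualL1

open Filter Topology

variable {𝕜 : Type*} [RCLike 𝕜]
variable {E F W X X' : Type*}
variable [NormedAddCommGroup E] [NormedSpace 𝕜 E] [NormedAddCommGroup F] [NormedSpace 𝕜 F]
variable [NormedAddCommGroup W] [NormedSpace 𝕜 W]
variable [NormedAddCommGroup X] [NormedSpace 𝕜 X] [NormedAddCommGroup X'] [NormedSpace 𝕜 X']

variable (𝕜 E F X) in
/-- `X` is (isomorphically) the `ℓ¹`-sum of `J` copies of `E` and `Γ` copies of `F`. -/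
structure LStruct (J Γ : Type*) where
  /-- embeddings of `E` -/
  i : J → E →L[𝕜] X
  /-- embeddings of `F` -/
  k : Γ → F →L[𝕜] X
  /-- lower constant -/
  c : ℝ
  /-- upper constant -/
  C : ℝ
  hc : 0 < c
  upper_i : ∀ j x, ‖i j x‖ ≤ C * ‖x‖
  upper_k : ∀ γ y, ‖k γ y‖ ≤ C * ‖y‖
  lower : ∀ (S : Finset J) (T : Finset Γ) (x : J → E) (y : Γ → F),
    c * (∑ j ∈ S, ‖x j‖ + ∑ γ ∈ T, ‖y γ‖) ≤ ‖∑ j ∈ S, i j (x j) + ∑ γ ∈ T, k γ (y γ)‖
  dense : ∀ M : Submodule 𝕜 X, IsClosed (M : Set X) → (∀ j x, i j x ∈ M) → (∀ γ y, k γ y ∈ M) →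
    M = ⊤

namespace LStruct

variable {J Γ : Type*}

/-- the map from finitely supported families. -/
noncomputable def T (s : LStruct 𝕜 E F X J Γ) : ((J →₀ E) × (Γ →₀ F)) →ₗ[𝕜] X :=
  (Finsupp.lsum 𝕜 (fun j => (s.i j : E →ₗ[𝕜] X))).coprod
    (Finsupp.lsum 𝕜 (fun γ => (s.k γ : F →ₗ[𝕜] X)))

lemma T_apply (s : LStruct 𝕜 E F X J Γ) (d : (J →₀ E) × (Γ →₀ F)) :
    s.T d = ∑ j ∈ d.1.support, s.i j (d.1 j) + ∑ γ ∈ d.2.support, s.k γ (d.2 γ) := by
  simp [T, Finsupp.lsum_apply, Finsupp.sum]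

lemma T_single_left (s : LStruct 𝕜 E F X J Γ) (j : J) (x : E) :
    s.T (Finsupp.single j x, 0) = s.i j x := by
  simp [T, Finsupp.lsum_apply]

lemma T_single_right (s : LStruct 𝕜 E F X J Γ) (γ : Γ) (y : F) :
    s.T (0, Finsupp.single γ y) = s.k γ y := by
  simp [T, Finsupp.lsum_apply]

lemma T_lower (s : LStruct 𝕜 E F X J Γ) (d : (J →₀ E) × (Γ →₀ F)) :
    s.c * (∑ j ∈ d.1.support, ‖d.1 j‖ + ∑ γ ∈ d.2.support, ‖d.2 γ‖) ≤ ‖s.T d‖ := by
  rw [T_apply]
  exact s.lower _ _ _ _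

lemma T_upper (s : LStruct 𝕜 E F X J Γ) (d : (J →₀ E) × (Γ →₀ F)) :
    ‖s.T d‖ ≤ s.C * (∑ j ∈ d.1.support, ‖d.1 j‖ + ∑ γ ∈ d.2.support, ‖d.2 γ‖) := by
  rw [T_apply, mul_add, Finset.mul_sum, Finset.mul_sum]
  refine (norm_add_le _ _).trans (add_le_add ?_ ?_)
  · exact (norm_sum_le _ _).trans (Finset.sum_le_sum (fun j _ => s.upper_i _ _))
  · exact (norm_sum_le _ _).trans (Finset.sum_le_sum (fun j _ => s.upper_k _ _))

lemma T_dense (s : LStruct 𝕜 E F X J Γ) : DenseRange s.T := by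
  have h := s.dense (LinearMap.range s.T).topologicalClosure
    (Submodule.isClosed_topologicalClosure _)
    (fun j x => Submodule.le_topologicalClosure _ ⟨(Finsupp.single j x, 0), s.T_single_left j x⟩)
    (fun γ y => Submodule.le_topologicalClosure _ ⟨(0, Finsupp.single γ y), s.T_single_right γ y⟩)
  rw [DenseRange, dense_iff_closure_eq]
  have h2 := congrArg (fun M : Submodule 𝕜 X => (M : Set X)) h
  rw [Submodule.topologicalClosure_coe, LinearMap.coe_range] at h2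
  exact h2

lemma T_compare (a : LStruct 𝕜 E F X J Γ) (b : LStruct 𝕜 E F X' J Γ) :
    ∃ C : ℝ, ∀ d, ‖b.T d‖ ≤ C * ‖a.T d‖ := by
  refine ⟨|b.C| / a.c, fun d => ?_⟩
  set n := (∑ j ∈ d.1.support, ‖d.1 j‖ + ∑ γ ∈ d.2.support, ‖d.2 γ‖) with hn
  have hn0 : 0 ≤ n := by positivity
  have h1 := a.T_lower d
  have h2 := b.T_upper d
  have h3 : n ≤ ‖a.T d‖ / a.c := by
    rw [le_div_iff₀ a.hc, mul_comm]; exact h1
  calc ‖b.T d‖ ≤ b.C * n := h2
    _ ≤ |b.C| * n := mul_le_mul_of_nonneg_right (le_abs_self _) hn0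
    _ ≤ |b.C| * (‖a.T d‖ / a.c) := mul_le_mul_of_nonneg_left h3 (abs_nonneg _)
    _ = |b.C| / a.c * ‖a.T d‖ := by ring

/-- Two spaces with the same structure are isomorphic. -/
theorem nonempty_equiv [CompleteSpace X] [CompleteSpace X'] (s : LStruct 𝕜 E F X J Γ)
    (s' : LStruct 𝕜 E F X' J Γ) : Nonempty (X ≃L[𝕜] X') :=
  ⟨(LinearEquiv.refl 𝕜 ((J →₀ E) × (Γ →₀ F))).extend s.T s'.T s.T_dense (T_compare s s')
    s'.T_dense (T_compare s' s)⟩

lemma lower_of_cofinal {i : J → E →L[𝕜] X} {k : Γ → F →L[𝕜] X} {c : ℝ}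
    (h : ∀ (S : Finset J) (T : Finset Γ), ∃ S₂ T₂, S ⊆ S₂ ∧ T ⊆ T₂ ∧
      ∀ (x : J → E) (y : Γ → F), c * (∑ j ∈ S₂, ‖x j‖ + ∑ γ ∈ T₂, ‖y γ‖)
        ≤ ‖∑ j ∈ S₂, i j (x j) + ∑ γ ∈ T₂, k γ (y γ)‖)
    (S : Finset J) (T : Finset Γ) (x : J → E) (y : Γ → F) :
    c * (∑ j ∈ S, ‖x j‖ + ∑ γ ∈ T, ‖y γ‖) ≤ ‖∑ j ∈ S, i j (x j) + ∑ γ ∈ T, k γ (y γ)‖ := by
  classical
  obtain ⟨S₂, T₂, hS, hT, h2⟩ := h S T
  have h3 := h2 (fun j => if j ∈ S then x j else 0) (fun γ => if γ ∈ T then y γ else 0)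
  have e1 : ∑ j ∈ S₂, ‖(if j ∈ S then x j else 0 : E)‖ = ∑ j ∈ S, ‖x j‖ := by
    rw [← Finset.sum_subset hS]
    · exact Finset.sum_congr rfl (fun j hj => by rw [if_pos hj])
    · intro j _ hj
      rw [if_neg hj, norm_zero]
  have e2 : ∑ γ ∈ T₂, ‖(if γ ∈ T then y γ else 0 : F)‖ = ∑ γ ∈ T, ‖y γ‖ := by
    rw [← Finset.sum_subset hT]
    · exact Finset.sum_congr rfl (fun j hj => by rw [if_pos hj])
    · intro j _ hj
      rw [if_neg hj, norm_zero]
  have e3 : ∑ j ∈ S₂, i j (if j ∈ S then x j else 0 : E) = ∑ j ∈ S, i j (x j) := by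
    rw [← Finset.sum_subset hS]
    · exact Finset.sum_congr rfl (fun j hj => by rw [if_pos hj])
    · intro j _ hj
      rw [if_neg hj, map_zero]
  have e4 : ∑ γ ∈ T₂, k γ (if γ ∈ T then y γ else 0 : F) = ∑ γ ∈ T, k γ (y γ) := by
    rw [← Finset.sum_subset hT]
    · exact Finset.sum_congr rfl (fun j hj => by rw [if_pos hj])
    · intro j _ hj
      rw [if_neg hj, map_zero]
  rw [e1, e2, e3, e4] at h3
  exact h3

/-- Change of index types. -/
noncomputable def reindex {J' Γ' : Type*} (s : LStruct 𝕜 E F X J Γ) (σ : J' ≃ J) (τ : Γ' ≃ Γ) :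
    LStruct 𝕜 E F X J' Γ' where
  i j := s.i (σ j)
  k γ := s.k (τ γ)
  c := s.c
  C := s.C
  hc := s.hc
  upper_i j x := s.upper_i _ _
  upper_k γ y := s.upper_k _ _
  lower S T x y := by
    have h := s.lower (S.map σ.toEmbedding) (T.map τ.toEmbedding) (fun j => x (σ.symm j))
      (fun γ => y (τ.symm γ))
    simpa using h
  dense M hM h1 h2 := by
    refine s.dense M hM (fun j x => ?_) (fun γ y => ?_)
    · have := h1 (σ.symm j) x
      simpa using this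
    · have := h2 (τ.symm γ) y
      simpa using this

/-- Iterated `ℓ¹`-sums. -/
noncomputable def comp {P Q : Type*} (s : LStruct 𝕜 W F X J Γ) (t : LStruct 𝕜 E F W P Q) :
    LStruct 𝕜 E F X (J × P) ((J × Q) ⊕ Γ) where
  i p := (s.i p.1).comp (t.i p.2)
  k q := Sum.elim (fun p => (s.i p.1).comp (t.k p.2)) (fun γ => s.k γ) q
  c := s.c * min t.c 1
  C := |s.C| * max |t.C| 1
  hc := mul_pos s.hc (lt_min t.hc one_pos)
  upper_i p x := by
    have h1 := s.upper_i p.1 (t.i p.2 x)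
    have h2 := t.upper_i p.2 x
    calc ‖(s.i p.1).comp (t.i p.2) x‖ ≤ s.C * ‖t.i p.2 x‖ := h1
      _ ≤ |s.C| * ‖t.i p.2 x‖ := mul_le_mul_of_nonneg_right (le_abs_self _) (norm_nonneg _)
      _ ≤ |s.C| * (max |t.C| 1 * ‖x‖) := by
        refine mul_le_mul_of_nonneg_left (h2.trans ?_) (abs_nonneg _)
        exact mul_le_mul_of_nonneg_right ((le_abs_self _).trans (le_max_left _ _)) (norm_nonneg _)
      _ = _ := by ring
  upper_k q y := by
    rcases q with p | γ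
    · have h1 := s.upper_i p.1 (t.k p.2 y)
      have h2 := t.upper_k p.2 y
      calc ‖(s.i p.1).comp (t.k p.2) y‖ ≤ s.C * ‖t.k p.2 y‖ := h1
        _ ≤ |s.C| * ‖t.k p.2 y‖ := mul_le_mul_of_nonneg_right (le_abs_self _) (norm_nonneg _)
        _ ≤ |s.C| * (max |t.C| 1 * ‖y‖) := by
          refine mul_le_mul_of_nonneg_left (h2.trans ?_) (abs_nonneg _)
          exact mul_le_mul_of_nonneg_right ((le_abs_self _).trans (le_max_left _ _)) (norm_nonneg _)
        _ = _ := by ring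
    · calc ‖s.k γ y‖ ≤ s.C * ‖y‖ := s.upper_k γ y
        _ ≤ |s.C| * ‖y‖ := mul_le_mul_of_nonneg_right (le_abs_self _) (norm_nonneg _)
        _ ≤ |s.C| * (max |t.C| 1 * ‖y‖) := by
          refine mul_le_mul_of_nonneg_left ?_ (abs_nonneg _)
          have : (1 : ℝ) ≤ max |t.C| 1 := le_max_right _ _
          nlinarith [norm_nonneg y]
        _ = _ := by ring
  lower := by
    classical
    refine lower_of_cofinal (fun S T => ?_)
    set S₁ : Finset J := S.image Prod.fst ∪ T.toLeft.image Prod.fst with hS₁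
    set P₁ : Finset P := S.image Prod.snd with hP₁
    set Q₁ : Finset Q := T.toLeft.image Prod.snd with hQ₁
    refine ⟨S₁ ×ˢ P₁, (S₁ ×ˢ Q₁).disjSum T.toRight, ?_, ?_, ?_⟩
    · intro p hp
      rw [Finset.mem_product]
      exact ⟨Finset.mem_union_left _ (Finset.mem_image_of_mem _ hp), Finset.mem_image_of_mem _ hp⟩
    · intro q hq
      rcases q with p | γ
      · rw [Finset.inl_mem_disjSum, Finset.mem_product]
        have : p ∈ T.toLeft := Finset.mem_toLeft.2 hq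
        exact ⟨Finset.mem_union_right _ (Finset.mem_image_of_mem _ this),
          Finset.mem_image_of_mem _ this⟩
      · rw [Finset.inr_mem_disjSum]
        exact Finset.mem_toRight.2 hq
    · intro x y
      rw [Finset.sum_disjSum, Finset.sum_disjSum, Finset.sum_product, Finset.sum_product,
        Finset.sum_product, Finset.sum_product]
      simp only [Sum.elim_inl, Sum.elim_inr, ContinuousLinearMap.comp_apply]
      have h1 : ∑ j ∈ S₁, ∑ p ∈ P₁, s.i j (t.i p (x (j, p)))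
          + (∑ j ∈ S₁, ∑ q ∈ Q₁, s.i j (t.k q (y (Sum.inl (j, q))))
            + ∑ γ ∈ T.toRight, s.k γ (y (Sum.inr γ)))
          = ∑ j ∈ S₁, s.i j (∑ p ∈ P₁, t.i p (x (j, p)) + ∑ q ∈ Q₁, t.k q (y (Sum.inl (j, q))))
            + ∑ γ ∈ T.toRight, s.k γ (y (Sum.inr γ)) := by
        rw [← add_assoc, ← Finset.sum_add_distrib]
        congr 1
        refine Finset.sum_congr rfl (fun j _ => ?_)
        rw [map_add, map_sum, map_sum]
      rw [h1]
      refine le_trans ?_ (s.lower S₁ T.toRight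
        (fun j => ∑ p ∈ P₁, t.i p (x (j, p)) + ∑ q ∈ Q₁, t.k q (y (Sum.inl (j, q))))
        (fun γ => y (Sum.inr γ)))
      rw [mul_assoc]
      refine mul_le_mul_of_nonneg_left ?_ s.hc.le
      have h2 : ∀ j, min t.c 1 * (∑ p ∈ P₁, ‖x (j, p)‖ + ∑ q ∈ Q₁, ‖y (Sum.inl (j, q))‖) ≤
          ‖∑ p ∈ P₁, t.i p (x (j, p)) + ∑ q ∈ Q₁, t.k q (y (Sum.inl (j, q)))‖ := by
        intro j
        refine le_trans (mul_le_mul_of_nonneg_right (min_le_left _ _) (by positivity)) ?_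
        exact t.lower P₁ Q₁ (fun p => x (j, p)) (fun q => y (Sum.inl (j, q)))
      have h3 : min t.c 1 * ∑ γ ∈ T.toRight, ‖y (Sum.inr γ)‖ ≤ ∑ γ ∈ T.toRight, ‖y (Sum.inr γ)‖ := by
        have : min t.c 1 ≤ 1 := min_le_right _ _
        have h0 : 0 ≤ ∑ γ ∈ T.toRight, ‖y (Sum.inr γ)‖ := by positivity
        nlinarith
      calc min t.c 1 * (∑ j ∈ S₁, ∑ p ∈ P₁, ‖x (j, p)‖ +
            (∑ j ∈ S₁, ∑ q ∈ Q₁, ‖y (Sum.inl (j, q))‖ + ∑ γ ∈ T.toRight, ‖y (Sum.inr γ)‖))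
          = ∑ j ∈ S₁, min t.c 1 * (∑ p ∈ P₁, ‖x (j, p)‖ + ∑ q ∈ Q₁, ‖y (Sum.inl (j, q))‖)
            + min t.c 1 * ∑ γ ∈ T.toRight, ‖y (Sum.inr γ)‖ := by
            rw [← Finset.mul_sum, Finset.sum_add_distrib]
            ring
        _ ≤ _ := add_le_add (Finset.sum_le_sum (fun j _ => h2 j)) h3
  dense M hM h1 h2 := by
    refine s.dense M hM (fun j w => ?_) (fun γ y => h2 (Sum.inr γ) y)
    have h3 : (M.comap (s.i j : W →ₗ[𝕜] X)) = ⊤ := by
      refine t.dense _ (hM.preimage (s.i j).continuous) (fun p x => ?_) (fun q y => ?_)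
      · exact h1 (j, p) x
      · exact h2 (Sum.inl (j, q)) y
    have h4 : w ∈ M.comap (s.i j : W →ₗ[𝕜] X) := by rw [h3]; trivial
    exact h4

/-- If `E ≃ E × F`, then `E` has the structure with one copy of each. -/
noncomputable def ofEquiv (φ : (E × F) ≃L[𝕜] E) : LStruct 𝕜 E F E Unit Unit where
  i _ := (φ : (E × F) →L[𝕜] E).comp (ContinuousLinearMap.inl 𝕜 E F)
  k _ := (φ : (E × F) →L[𝕜] E).comp (ContinuousLinearMap.inr 𝕜 E F)
  c := (2 * (‖(φ.symm : E →L[𝕜] (E × F))‖ + 1))⁻¹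
  C := ‖(φ : (E × F) →L[𝕜] E)‖
  hc := by positivity
  upper_i _ x := by
    refine ((φ : (E × F) →L[𝕜] E).le_opNorm _).trans ?_
    simp
  upper_k _ y := by
    refine ((φ : (E × F) →L[𝕜] E).le_opNorm _).trans ?_
    simp
  lower := by
    classical
    refine lower_of_cofinal (fun S T => ⟨Finset.univ, Finset.univ, Finset.subset_univ _,
      Finset.subset_univ _, fun x y => ?_⟩)
    simp only [Finset.univ_unique, Finset.sum_singleton, ContinuousLinearMap.comp_apply,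
      ContinuousLinearMap.inl_apply, ContinuousLinearMap.inr_apply]
    rw [← map_add]
    set z : E × F := (x default, 0) + (0, y default) with hz
    have hz' : z = (x default, y default) := by simp [hz]
    have h1 : ‖z‖ ≤ ‖(φ.symm : E →L[𝕜] (E × F))‖ * ‖φ z‖ := by
      calc ‖z‖ = ‖φ.symm (φ z)‖ := by simp
        _ ≤ _ := (φ.symm : E →L[𝕜] (E × F)).le_opNorm _
    have h2 : ‖x default‖ + ‖y default‖ ≤ 2 * ‖z‖ := by
      rw [hz', Prod.norm_def]
      have := le_max_left ‖x default‖ ‖y default‖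
      have := le_max_right ‖x default‖ ‖y default‖
      linarith
    rw [inv_mul_le_iff₀ (by positivity)]
    calc ‖x default‖ + ‖y default‖ ≤ 2 * ‖z‖ := h2
      _ ≤ 2 * (‖(φ.symm : E →L[𝕜] (E × F))‖ * ‖φ z‖) := by linarith
      _ ≤ 2 * (‖(φ.symm : E →L[𝕜] (E × F))‖ + 1) * ‖φ z‖ := by
        nlinarith [norm_nonneg (φ z)]
  dense M hM h1 h2 := by
    rw [eq_top_iff]
    intro e _
    have h3 := M.add_mem (h1 () (φ.symm e).1) (h2 () (φ.symm e).2)
    simp only [ContinuousLinearMap.comp_apply, ContinuousLinearMap.inl_apply,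
      ContinuousLinearMap.inr_apply] at h3
    rw [← map_add] at h3
    simpa using h3

end LStruct

end DualL1
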