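import Pool.Agent.Helper2.DualL1.Piece
import Pool.Agent.Helper2.DualL1.Struct

/-! Decomposition of `L¹` of an arbitrary measure with separable pieces. -/

namespace DualL1

open Filter Topology MeasureTheory
open scoped ENNReal Classical

variable {Ω : Type*} [MeasurableSpace Ω] {μ : Measure Ω} {𝕜 : Type*} [RCLike 𝕜]

variable (μ) in
/-- Pieces: sets of finite positive measure that are atoms or contain no atom. -/
def IsPiece (A : Set Ω) : Prop :=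
  MeasurableSet A ∧ 0 < μ A ∧ μ A ≠ ∞ ∧ (IsAtomOf μ A ∨ ∀ B ⊆ A, ¬ IsAtomOf μ B)

variable (μ) in
/-- almost disjoint families of pieces -/
def IsFam (𝒟 : Set (Set Ω)) : Prop :=
  (∀ A ∈ 𝒟, IsPiece μ A) ∧ 𝒟.Pairwise (fun A B => μ (A ∩ B) = 0)

lemma exists_maximal (𝒞 : Set (Set Ω)) (h𝒞 : IsFam μ 𝒞) :
    ∃ 𝒟, 𝒞 ⊆ 𝒟 ∧ IsFam μ 𝒟 ∧ ∀ B, MeasurableSet B → 0 < μ B → μ B ≠ ∞ →
      ∃ A ∈ 𝒟, μ (A ∩ B) ≠ 0 := by
  obtain ⟨m, hm, hmax⟩ := zorn_subset_nonempty {𝒟 | IsFam μ 𝒟} (by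
    intro c hc hchain hne
    refine ⟨⋃₀ c, ⟨?_, ?_⟩, fun s hs => Set.subset_sUnion_of_mem hs⟩
    · rintro A ⟨s, hs, hA⟩
      exact (hc hs).1 A hA
    · rw [Set.pairwise_sUnion hchain.directedOn]
      intro s hs
      exact (hc hs).2) 𝒞 h𝒞
  refine ⟨m, hm, hmax.prop, fun B hB hB0 hBt => ?_⟩
  by_contra hcon
  push Not at hcon
  have key : ∀ B' ⊆ B, IsPiece μ B' → False := by
    intro B' hB' hp
    have h1 : IsFam μ (insert B' m) := by
      refine ⟨?_, ?_⟩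
      · rintro A (rfl | hA)
        · exact hp
        · exact hmax.prop.1 A hA
      · refine hmax.prop.2.insert (fun A hA hne => ?_)
        have h2 : μ (A ∩ B') = 0 :=
          measure_mono_null (Set.inter_subset_inter_right _ hB') (hcon A hA)
        exact ⟨by rwa [Set.inter_comm], h2⟩
    have h2 : B' ∈ m := hmax.le_of_ge h1 (Set.subset_insert _ _) (Set.mem_insert _ _)
    have h3 := hcon B' h2
    rw [Set.inter_eq_left.2 hB'] at h3
    exact hp.2.1.ne' h3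
  by_cases hat : ∃ a ⊆ B, IsAtomOf μ a
  · obtain ⟨a, ha, ha'⟩ := hat
    exact key a ha ⟨ha'.1, ha'.2.1, measure_ne_top_of_subset ha hBt, Or.inl ha'⟩
  · push Not at hat
    exact key B subset_rfl ⟨hB, hB0, hBt, Or.inr hat⟩

lemma atomless_restrict {A : Set Ω} (hA : MeasurableSet A) (h : ∀ B ⊆ A, ¬ IsAtomOf μ B) :
    Atomless (μ.restrict A) := by
  intro E hE hE0
  rw [Measure.restrict_apply hE] at hE0
  have h1 := h (E ∩ A) Set.inter_subset_right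
  rw [IsAtomOf] at h1
  push Not at h1
  obtain ⟨P, hP, hPm, hP1, hP2⟩ := h1 (hE.inter hA) hE0
  have hPA : P ⊆ A := hP.trans Set.inter_subset_right
  refine ⟨P, hP.trans Set.inter_subset_left, hPm, ?_, ?_⟩
  · rw [Measure.restrict_apply hPm, Set.inter_eq_left.2 hPA]
    exact pos_iff_ne_zero.2 hP1
  · rw [Measure.restrict_apply (hE.diff hPm)]
    have : (E \ P) ∩ A = (E ∩ A) \ P := by
      ext x; simp only [Set.mem_inter_iff, Set.mem_sdiff]; tauto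
    rw [this]
    exact pos_iff_ne_zero.2 hP2

lemma atom_restrict {A : Set Ω} (hA : IsAtomOf μ A) : IsAtomOf (μ.restrict A) Set.univ := by
  obtain ⟨hAm, hA0, hA1⟩ := hA
  refine ⟨MeasurableSet.univ, by rwa [Measure.restrict_apply_univ], fun B _ hB => ?_⟩
  rcases hA1 (B ∩ A) Set.inter_subset_right (hB.inter hAm) with h | h
  · left
    rw [Measure.restrict_apply hB]; exact h
  · right
    rw [Measure.restrict_apply (MeasurableSet.univ.diff hB)]
    have : (Set.univ \ B) ∩ A = A \ (B ∩ A) := by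
      ext x; simp only [Set.mem_inter_iff, Set.mem_sdiff, Set.mem_univ]; tauto
    rw [this]
    exact h

/-- The class of sets `B` such that `f 1_B` lies in `M` for all `f`. -/
def goodClass (M : Submodule 𝕜 (Lp 𝕜 1 μ)) : Set (Set Ω) :=
  {B | MeasurableSet B ∧ ∀ f : Ω → 𝕜, Integrable f μ → tl μ (B.indicator f) ∈ M}

lemma goodClass_union (M : Submodule 𝕜 (Lp 𝕜 1 μ)) :
    ∀ B ∈ goodClass M, ∀ B' ∈ goodClass M, B ∪ B' ∈ goodClass M := by
  rintro B ⟨hB, h⟩ B' ⟨hB', h'⟩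
  refine ⟨hB.union hB', fun f hf => ?_⟩
  have h1 : (B ∪ B').indicator f = B.indicator f + B'.indicator (Bᶜ.indicator f) := by
    funext x
    by_cases hx : x ∈ B
    · simp [hx]
    · by_cases hx' : x ∈ B'
      · simp [hx, hx']
      · simp [hx, hx']
  rw [h1, tl_add (hf.indicator hB) ((hf.indicator hB.compl).indicator hB')]
  exact M.add_mem (h f hf) (h' _ (hf.indicator hB.compl))

lemma zero_tl : tl μ (fun _ => (0 : 𝕜)) = 0 := by
  rw [← norm_eq_zero, norm_tl (integrable_zero _ _ _)]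
  simp

/-- A closed subspace containing all `f 1_A` for `A` in a maximal family is everything. -/
lemma eq_top_of_family (𝒟 : Set (Set Ω)) (hD : ∀ A ∈ 𝒟, MeasurableSet A)
    (hmax : ∀ B, MeasurableSet B → 0 < μ B → μ B ≠ ∞ → ∃ A ∈ 𝒟, μ (A ∩ B) ≠ 0)
    (M : Submodule 𝕜 (Lp 𝕜 1 μ)) (hM : IsClosed (M : Set (Lp 𝕜 1 μ)))
    (h : ∀ A ∈ 𝒟, ∀ f : Ω → 𝕜, Integrable f μ → tl μ (A.indicator f) ∈ M) : M = ⊤ := by
  rw [eq_top_iff]
  intro f _
  have hfi : Integrable f μ := L1.integrable_coeFn f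
  have hfm : Measurable f := (Lp.stronglyMeasurable f).measurable
  have hfin : IsFiniteMeasure (μ.withDensity (fun x => ‖f x‖ₑ)) :=
    isFiniteMeasure_withDensity hfi.2.ne
  rw [← SetLike.mem_coe, ← hM.closure_eq, Metric.mem_closure_iff]
  intro ε hε
  obtain ⟨B, hB, hB'⟩ := exhaust (μ.withDensity (fun x => ‖f x‖ₑ)) (goodClass M)
    ⟨MeasurableSet.empty, fun g hg => by
      rw [Set.indicator_empty, zero_tl]; exact M.zero_mem⟩ (goodClass_union M)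
    (fun B hB => hB.1) (by
      intro V hV hpos
      rw [withDensity_apply _ hV, setLIntegral_pos_iff hfm.enorm] at hpos
      have hex : ∃ k : ℕ, 0 < μ (V ∩ {x | 1 / ((k : ℝ) + 1) ≤ ‖f x‖}) := by
        by_contra hcon
        push Not at hcon
        have h1 : μ (⋃ k : ℕ, V ∩ {x | 1 / ((k : ℝ) + 1) ≤ ‖f x‖}) = 0 :=
          measure_iUnion_null (fun k => nonpos_iff_eq_zero.1 (hcon k))
        refine hpos.ne' (measure_mono_null ?_ h1)
        intro x hx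
        have hfx : 0 < ‖f x‖ := by
          rw [norm_pos_iff]
          intro h0
          have := hx.1
          simp [Function.mem_support, h0] at this
        obtain ⟨k, hk⟩ := exists_nat_one_div_lt hfx
        exact Set.mem_iUnion.2 ⟨k, hx.2, hk.le⟩
      obtain ⟨k, hk⟩ := hex
      have hk0 : (0 : ℝ) < 1 / ((k : ℝ) + 1) := by positivity
      have hmeas : MeasurableSet (V ∩ {x | 1 / ((k : ℝ) + 1) ≤ ‖f x‖}) :=
        hV.inter (measurableSet_le measurable_const hfm.norm)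
      have hfinite : μ (V ∩ {x | 1 / ((k : ℝ) + 1) ≤ ‖f x‖}) ≠ ∞ :=
        measure_ne_top_of_subset Set.inter_subset_right (hfi.measure_norm_ge_lt_top hk0).ne
      obtain ⟨A, hA, hA'⟩ := hmax _ hmeas hk hfinite
      refine ⟨A, ⟨hD A hA, h A hA⟩, ?_⟩
      rw [withDensity_apply _ ((hD A hA).inter hV), setLIntegral_pos_iff hfm.enorm]
      refine lt_of_lt_of_le (pos_iff_ne_zero.2 hA') (measure_mono ?_)
      rintro x ⟨hxA, hxV, hxk⟩
      refine ⟨?_, hxA, hxV⟩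
      have hxk' : 1 / ((k : ℝ) + 1) ≤ ‖f x‖ := hxk
      simp only [Function.mem_support, ne_eq, enorm_eq_zero]
      intro h0
      rw [h0, norm_zero] at hxk'
      linarith) hε
  refine ⟨tl μ (B.indicator f), hB.2 f hfi, ?_⟩
  rw [measureReal_def, withDensity_apply _ hB.1.compl,
    ← integral_norm_eq_lintegral_enorm hfi.aestronglyMeasurable.restrict] at hB'
  have h1 : f = tl μ (f : Ω → 𝕜) := (tl_coeFn f).symm
  have h2 : dist f (tl μ (B.indicator f)) = ∫ x in Bᶜ, ‖f x‖ ∂μ := by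
    conv_lhs => rw [h1]
    rw [tl_coeFn, dist_eq_norm]
    have h3 : f - tl μ (B.indicator f) = tl μ (Bᶜ.indicator f) := by
      have h4 : tl μ (Bᶜ.indicator f) + tl μ (B.indicator f) = f := by
        rw [← tl_add (hfi.indicator hB.1.compl) (hfi.indicator hB.1),
          Set.indicator_compl_add_self, tl_coeFn]
      rw [sub_eq_iff_eq_add, h4]
    rw [h3, norm_tl (hfi.indicator hB.1.compl), ← integral_indicator hB.1.compl]
    refine integral_congr_ae (Eventually.of_forall (fun x => ?_))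
    simp only
    rw [norm_indicator_eq_indicator_norm]
  rw [h2]
  exact hB'


variable (μ) in
/-- atomless members of a family -/
abbrev JIdx (𝒟 : Set (Set Ω)) : Type _ := {A : Set Ω // A ∈ 𝒟 ∧ ¬ IsAtomOf μ A}

variable (μ) in
/-- atoms in a family -/
abbrev GIdx (𝒟 : Set (Set Ω)) : Type _ := {A : Set Ω // A ∈ 𝒟 ∧ IsAtomOf μ A}

lemma exists_emb_J (hsep : LocallySeparable μ 𝕜) {𝒟 : Set (Set Ω)} (h𝒟 : IsFam μ 𝒟) (A : JIdx μ 𝒟) :
    ∃ T : Lp 𝕜 1 UI →L[𝕜] Lp 𝕜 1 μ, (∀ x, ‖T x‖ = ‖x‖) ∧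
      (∀ x, ∀ᵐ ω ∂μ, ω ∉ (A : Set Ω) → (T x : Ω → 𝕜) ω = 0) ∧
      ∀ f : Ω → 𝕜, Integrable f μ → ∃ x, T x = tl μ ((A : Set Ω).indicator f) := by
  obtain ⟨A, hA, hAat⟩ := A
  obtain ⟨hAm, hA0, hAt, hAor⟩ := h𝒟.1 A hA
  have hfin : IsFiniteMeasure (μ.restrict A) := ⟨by
    rw [Measure.restrict_apply_univ]; exact hAt.lt_top⟩
  have hne : μ.restrict A ≠ 0 := by
    rw [Ne, Measure.restrict_eq_zero]; exact hA0.ne'
  have hs := hsep A hAm hAt
  have hno : ∀ B ⊆ A, ¬ IsAtomOf μ B := hAor.resolve_left hAat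
  obtain ⟨φ⟩ := piece_atomless (μ.restrict A) 𝕜 hne (atomless_restrict hAm hno)
  refine ⟨((extL μ 𝕜 hAm).comp φ.toLinearIsometry).toContinuousLinearMap, fun x => ?_,
    fun x => ?_, fun f hf => ?_⟩
  · exact ((extL μ 𝕜 hAm).comp φ.toLinearIsometry).norm_map x
  · exact extL_zero_off hAm (φ x)
  · refine ⟨φ.symm (tl (μ.restrict A) f), ?_⟩
    show extL μ 𝕜 hAm (φ (φ.symm (tl (μ.restrict A) f))) = _
    rw [φ.apply_symm_apply, extL_tl hAm hf]

variable (𝕜) in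
lemma exists_emb_G {𝒟 : Set (Set Ω)} (h𝒟 : IsFam μ 𝒟) (A : GIdx μ 𝒟) :
    ∃ T : 𝕜 →L[𝕜] Lp 𝕜 1 μ, (∀ x, ‖T x‖ = ‖x‖) ∧
      (∀ x, ∀ᵐ ω ∂μ, ω ∉ (A : Set Ω) → (T x : Ω → 𝕜) ω = 0) ∧
      ∀ f : Ω → 𝕜, Integrable f μ → ∃ x, T x = tl μ ((A : Set Ω).indicator f) := by
  obtain ⟨A, hA, hAat⟩ := A
  obtain ⟨hAm, hA0, hAt, hAor⟩ := h𝒟.1 A hA
  have hfin : IsFiniteMeasure (μ.restrict A) := ⟨by
    rw [Measure.restrict_apply_univ]; exact hAt.lt_top⟩
  obtain ⟨φ⟩ := piece_atom (μ.restrict A) 𝕜 (atom_restrict hAat)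
  refine ⟨((extL μ 𝕜 hAm).comp φ.toLinearIsometry).toContinuousLinearMap, fun x => ?_,
    fun x => ?_, fun f hf => ?_⟩
  · exact ((extL μ 𝕜 hAm).comp φ.toLinearIsometry).norm_map x
  · exact extL_zero_off hAm (φ x)
  · refine ⟨φ.symm (tl (μ.restrict A) f), ?_⟩
    show extL μ 𝕜 hAm (φ (φ.symm (tl (μ.restrict A) f))) = _
    rw [φ.apply_symm_apply, extL_tl hAm hf]

lemma ae_zero_or {A B : Set Ω} (h : μ (A ∩ B) = 0) {f g : Lp 𝕜 1 μ}
    (hf : ∀ᵐ ω ∂μ, ω ∉ A → (f : Ω → 𝕜) ω = 0) (hg : ∀ᵐ ω ∂μ, ω ∉ B → (g : Ω → 𝕜) ω = 0) :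
    ∀ᵐ ω ∂μ, (f : Ω → 𝕜) ω = 0 ∨ (g : Ω → 𝕜) ω = 0 := by
  filter_upwards [hf, hg, measure_eq_zero_iff_ae_notMem.1 h] with ω h1 h2 h3
  by_cases hA : ω ∈ A
  · exact Or.inr (h2 (fun hB => h3 ⟨hA, hB⟩))
  · exact Or.inl (h1 hA)

/-- The structure of `L¹` of a locally separable measure. -/
theorem l1_struct (hsep : LocallySeparable μ 𝕜) {𝒟 : Set (Set Ω)} (h𝒟 : IsFam μ 𝒟)
    (hmax : ∀ B, MeasurableSet B → 0 < μ B → μ B ≠ ∞ → ∃ A ∈ 𝒟, μ (A ∩ B) ≠ 0) :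
    Nonempty (LStruct 𝕜 (Lp 𝕜 1 UI) 𝕜 (Lp 𝕜 1 μ) (JIdx μ 𝒟) (GIdx μ 𝒟)) := by
  choose i hi1 hi2 hi3 using exists_emb_J hsep h𝒟
  choose k hk1 hk2 hk3 using exists_emb_G 𝕜 h𝒟
  refine ⟨{ i := i, k := k, c := 1, C := 1, hc := one_pos, upper_i := ?_, upper_k := ?_,
            lower := ?_, dense := ?_ }⟩
  · intro j x; rw [one_mul, hi1]
  · intro j x; rw [one_mul, hk1]
  · intro S T x y
    have h1 := norm_sum_of_disjoint (S.disjSum T)
      (Sum.elim (fun j => i j (x j)) (fun γ => k γ (y γ))) (by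
        intro a _ b _ hab
        rcases a with a | a <;> rcases b with b | b
        · have hne : (a : Set Ω) ≠ b := fun h => hab (by rw [Subtype.ext h])
          exact ae_zero_or (h𝒟.2 a.2.1 b.2.1 hne) (hi2 a _) (hi2 b _)
        · have hne : (a : Set Ω) ≠ b := fun h => a.2.2 (h ▸ b.2.2)
          exact ae_zero_or (h𝒟.2 a.2.1 b.2.1 hne) (hi2 a _) (hk2 b _)
        · have hne : (a : Set Ω) ≠ b := fun h => b.2.2 (h ▸ a.2.2)
          exact ae_zero_or (h𝒟.2 a.2.1 b.2.1 hne) (hk2 a _) (hi2 b _)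
        · have hne : (a : Set Ω) ≠ b := fun h => hab (by rw [Subtype.ext h])
          exact ae_zero_or (h𝒟.2 a.2.1 b.2.1 hne) (hk2 a _) (hk2 b _))
    rw [Finset.sum_disjSum, Finset.sum_disjSum] at h1
    simp only [Sum.elim_inl, Sum.elim_inr, hi1, hk1] at h1
    rw [h1, one_mul]
  · intro M hM h1 h2
    refine eq_top_of_family 𝒟 (fun A hA => (h𝒟.1 A hA).1) hmax M hM (fun A hA f hf => ?_)
    by_cases hat : IsAtomOf μ A
    · obtain ⟨x, hx⟩ := hk3 ⟨A, hA, hat⟩ f hf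
      rw [← hx]; exact h2 _ _
    · obtain ⟨x, hx⟩ := hi3 ⟨A, hA, hat⟩ f hf
      rw [← hx]; exact h1 _ _

end DualL1
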