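import Pool.Agent.Helper2.DualL1.Repr
import Pool.Agent.Helper2.DualL1.Decomp

/-! The dual of `C(Δ)` as an `ℓ¹`-sum of `L¹` spaces. -/

namespace DualL1

open Filter Topology MeasureTheory
open scoped ENNReal Classical

variable {𝕜 : Type*} [RCLike 𝕜]

lemma int_mul {ρ : Measure Δ} {h : Δ → 𝕜} (hh : Integrable h ρ) (f : C(Δ, 𝕜)) :
    Integrable (fun x => h x * f x) ρ :=
  hh.mul_bdd f.continuous.aestronglyMeasurable
    (Eventually.of_forall (fun x => f.norm_coe_le_norm x))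

lemma norm_int_mul_le {ρ : Measure Δ} {h : Δ → 𝕜} (hh : Integrable h ρ) (f : C(Δ, 𝕜)) :
    ‖∫ x, h x * f x ∂ρ‖ ≤ (∫ x, ‖h x‖ ∂ρ) * ‖f‖ := by
  refine (norm_integral_le_integral_norm _).trans ?_
  rw [← integral_mul_const]
  refine integral_mono (int_mul hh f).norm (hh.norm.mul_const _) (fun x => ?_)
  simp only [norm_mul]
  exact mul_le_mul_of_nonneg_left (f.norm_coe_le_norm x) (norm_nonneg _)

variable (𝕜) in
/-- the functional with a given density. -/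
noncomputable def dens (ρ : Measure Δ) : Lp 𝕜 1 ρ →L[𝕜] (C(Δ, 𝕜) →L[𝕜] 𝕜) :=
  LinearMap.mkContinuous₂ (LinearMap.mk₂ 𝕜 (fun (h : Lp 𝕜 1 ρ) (f : C(Δ, 𝕜)) => ∫ x, h x * f x ∂ρ)
    (fun h₁ h₂ f => by
      rw [← integral_add (int_mul (L1.integrable_coeFn h₁) f) (int_mul (L1.integrable_coeFn h₂) f)]
      refine integral_congr_ae ?_
      filter_upwards [Lp.coeFn_add h₁ h₂] with x hx
      rw [hx, Pi.add_apply, add_mul])
    (fun c h f => by
      rw [smul_eq_mul, ← integral_const_mul]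
      refine integral_congr_ae ?_
      filter_upwards [Lp.coeFn_smul c h] with x hx
      rw [hx, Pi.smul_apply, smul_eq_mul, mul_assoc])
    (fun h f₁ f₂ => by
      rw [← integral_add (int_mul (L1.integrable_coeFn h) f₁) (int_mul (L1.integrable_coeFn h) f₂)]
      refine integral_congr_ae (Eventually.of_forall (fun x => ?_))
      simp only [ContinuousMap.add_apply, mul_add])
    (fun c h f => by
      rw [smul_eq_mul, ← integral_const_mul]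
      refine integral_congr_ae (Eventually.of_forall (fun x => ?_))
      simp only [ContinuousMap.smul_apply, smul_eq_mul]
      ring)) 1 (fun h f => by
      rw [one_mul, LinearMap.mk₂_apply, L1.norm_eq_integral_norm]
      exact norm_int_mul_le (L1.integrable_coeFn h) f)

lemma dens_apply (ρ : Measure Δ) (h : Lp 𝕜 1 ρ) (f : C(Δ, 𝕜)) :
    dens 𝕜 ρ h f = ∫ x, h x * f x ∂ρ := rfl

lemma dens_tl {ρ : Measure Δ} {h : Δ → 𝕜} (hh : Integrable h ρ) (f : C(Δ, 𝕜)) :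
    dens 𝕜 ρ (tl ρ h) f = ∫ x, h x * f x ∂ρ := by
  rw [dens_apply]
  refine integral_congr_ae ?_
  filter_upwards [coeFn_tl hh] with x hx
  rw [hx]

lemma norm_dens_le (ρ : Measure Δ) (h : Lp 𝕜 1 ρ) : ‖dens 𝕜 ρ h‖ ≤ ‖h‖ := by
  refine ContinuousLinearMap.opNorm_le_bound _ (norm_nonneg _) (fun f => ?_)
  rw [dens_apply, L1.norm_eq_integral_norm]
  exact norm_int_mul_le (L1.integrable_coeFn h) f

lemma le_norm_dens (ρ : Measure Δ) [IsFiniteMeasure ρ] (h : Lp 𝕜 1 ρ) :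
    ‖h‖ ≤ ‖dens 𝕜 ρ h‖ := by
  refine le_of_forall_pos_le_add (fun ε₀ hε₀ => ?_)
  set ε : ℝ := ε₀ / (2 + ρ.real Set.univ) with hε
  have hden : 0 < 2 + ρ.real Set.univ := by positivity
  have hεpos : 0 < ε := by positivity
  -- approximation by a continuous function
  have hd : DenseRange (ContinuousMap.toLp 1 ρ 𝕜 : C(Δ, 𝕜) →L[𝕜] Lp 𝕜 1 ρ) :=
    ContinuousMap.toLp_denseRange 𝕜 ρ 𝕜 (by norm_num)
  obtain ⟨g, hg⟩ := hd.exists_dist_lt h hεpos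
  set g' : Lp 𝕜 1 ρ := ContinuousMap.toLp 1 ρ 𝕜 g with hg'
  have hgint : Integrable (g : Δ → 𝕜) ρ := by
    have := L1.integrable_coeFn g'
    exact this.congr (ContinuousMap.coeFn_toLp ρ g)
  have hgtl : g' = tl ρ (g : Δ → 𝕜) := by
    rw [← tl_coeFn g']
    exact tl_congr (ContinuousMap.coeFn_toLp ρ g)
  rw [dist_eq_norm] at hg
  -- the test function
  let f : C(Δ, 𝕜) := ⟨fun x => (starRingEnd 𝕜) (g x) * (((‖g x‖ + ε)⁻¹ : ℝ) : 𝕜), by
    refine (RCLike.continuous_conj.comp g.continuous).mul (RCLike.continuous_ofReal.comp ?_)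
    refine (g.continuous.norm.add continuous_const).inv₀ (fun x => ?_)
    exact (by positivity : (0 : ℝ) < ‖g x‖ + ε).ne'⟩
  have hf1 : ‖f‖ ≤ 1 := by
    rw [ContinuousMap.norm_le _ zero_le_one]
    intro x
    have h0 : 0 < ‖g x‖ + ε := by positivity
    show ‖(starRingEnd 𝕜) (g x) * (((‖g x‖ + ε)⁻¹ : ℝ) : 𝕜)‖ ≤ 1
    rw [norm_mul, RCLike.norm_conj, RCLike.norm_ofReal, abs_of_pos (by positivity),
      mul_inv_le_iff₀ h0]
    linarith
  have hgf : ∀ x, g x * f x = ((‖g x‖ ^ 2 * (‖g x‖ + ε)⁻¹ : ℝ) : 𝕜) := by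
    intro x
    show g x * ((starRingEnd 𝕜) (g x) * (((‖g x‖ + ε)⁻¹ : ℝ) : 𝕜)) = _
    rw [← mul_assoc, RCLike.mul_conj]
    push_cast
    rfl
  have h1 : ‖g'‖ - ε * ρ.real Set.univ ≤ ‖dens 𝕜 ρ g' f‖ := by
    have h2 : dens 𝕜 ρ g' f = ((∫ x, ‖g x‖ ^ 2 * (‖g x‖ + ε)⁻¹ ∂ρ : ℝ) : 𝕜) := by
      rw [hgtl, dens_tl hgint]
      simp_rw [hgf]
      exact integral_ofReal
    have h3 : ‖g'‖ - ε * ρ.real Set.univ = ∫ x, (‖g x‖ - ε) ∂ρ := by
      rw [integral_sub hgint.norm (integrable_const _), hgtl, norm_tl hgint]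
      simp [mul_comm]
    rw [h2, RCLike.norm_ofReal, h3]
    refine le_trans ?_ (le_abs_self _)
    have h5 : Continuous (fun x => ‖g x‖ ^ 2 * (‖g x‖ + ε)⁻¹) := by
      refine (g.continuous.norm.pow 2).mul ?_
      refine (g.continuous.norm.add continuous_const).inv₀ (fun x => ?_)
      exact (by positivity : (0 : ℝ) < ‖g x‖ + ε).ne'
    have h4 : Integrable (fun x => ‖g x‖ ^ 2 * (‖g x‖ + ε)⁻¹) ρ :=
      h5.integrable_of_hasCompactSupport (HasCompactSupport.of_compactSpace _)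
    refine integral_mono (hgint.norm.sub (integrable_const _)) h4 (fun x => ?_)
    have h0 : 0 < ‖g x‖ + ε := by positivity
    simp only
    rw [← div_eq_mul_inv, le_div_iff₀ h0]
    nlinarith [norm_nonneg (g x)]
  have h2 : ‖dens 𝕜 ρ g' f‖ ≤ ‖dens 𝕜 ρ h‖ + ε := by
    have h3 : dens 𝕜 ρ g' f = dens 𝕜 ρ h f - dens 𝕜 ρ (h - g') f := by
      rw [map_sub, _root_.sub_apply]; ring
    rw [h3]
    refine (norm_sub_le _ _).trans (add_le_add ?_ ?_)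
    · calc ‖dens 𝕜 ρ h f‖ ≤ ‖dens 𝕜 ρ h‖ * ‖f‖ := (dens 𝕜 ρ h).le_opNorm f
        _ ≤ ‖dens 𝕜 ρ h‖ * 1 := mul_le_mul_of_nonneg_left hf1 (norm_nonneg _)
        _ = _ := mul_one _
    · calc ‖dens 𝕜 ρ (h - g') f‖ ≤ ‖dens 𝕜 ρ (h - g')‖ * ‖f‖ := (dens 𝕜 ρ (h - g')).le_opNorm f
        _ ≤ ‖dens 𝕜 ρ (h - g')‖ * 1 := mul_le_mul_of_nonneg_left hf1 (norm_nonneg _)
        _ = ‖dens 𝕜 ρ (h - g')‖ := mul_one _
        _ ≤ ‖h - g'‖ := norm_dens_le _ _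
        _ ≤ ε := hg.le
  have h3 : ‖h‖ ≤ ‖g'‖ + ε := by
    have h4 : h = g' + (h - g') := by abel
    calc ‖h‖ = ‖g' + (h - g')‖ := by rw [← h4]
      _ ≤ ‖g'‖ + ‖h - g'‖ := norm_add_le _ _
      _ ≤ _ := by linarith
  have h4 : ε * (2 + ρ.real Set.univ) = ε₀ := by
    rw [hε]; field_simp
  nlinarith

lemma norm_dens (ρ : Measure Δ) [IsFiniteMeasure ρ] (h : Lp 𝕜 1 ρ) : ‖dens 𝕜 ρ h‖ = ‖h‖ :=
  le_antisymm (norm_dens_le ρ h) (le_norm_dens ρ h)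


section Family

/-- Gluing two densities of mutually singular measures. -/
lemma glue {ρ₁ ρ₂ : Measure Δ} [IsFiniteMeasure ρ₁] [IsFiniteMeasure ρ₂] (h : ρ₁ ⟂ₘ ρ₂)
    (h₁ : Lp 𝕜 1 ρ₁) (h₂ : Lp 𝕜 1 ρ₂) :
    ∃ g : Lp 𝕜 1 (ρ₁ + ρ₂), ‖g‖ = ‖h₁‖ + ‖h₂‖ ∧
      dens 𝕜 (ρ₁ + ρ₂) g = dens 𝕜 ρ₁ h₁ + dens 𝕜 ρ₂ h₂ := by
  obtain ⟨N, hN, hN1, hN2⟩ := h
  -- `ρ₁ N = 0`, `ρ₂ Nᶜ = 0`
  have a1 : ∀ᵐ x ∂ρ₁, x ∉ N := measure_eq_zero_iff_ae_notMem.1 hN1
  have a2 : ∀ᵐ x ∂ρ₂, x ∈ N := by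
    filter_upwards [measure_eq_zero_iff_ae_notMem.1 hN2] with x hx
    by_contra h'
    exact hx h'
  set F : Δ → 𝕜 := fun x => if x ∈ N then h₂ x else h₁ x with hF
  have e1 : F =ᵐ[ρ₁] h₁ := by
    filter_upwards [a1] with x hx
    simp only [hF, if_neg hx]
  have e2 : F =ᵐ[ρ₂] h₂ := by
    filter_upwards [a2] with x hx
    simp only [hF, if_pos hx]
  have i1 : Integrable F ρ₁ := (L1.integrable_coeFn h₁).congr e1.symm
  have i2 : Integrable F ρ₂ := (L1.integrable_coeFn h₂).congr e2.symm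
  have i : Integrable F (ρ₁ + ρ₂) := i1.add_measure i2
  refine ⟨tl _ F, ?_, ?_⟩
  · rw [norm_tl i, integral_add_measure i1.norm i2.norm, L1.norm_eq_integral_norm,
      L1.norm_eq_integral_norm]
    congr 1
    · exact integral_congr_ae (e1.mono (fun x hx => by simp only [hx]))
    · exact integral_congr_ae (e2.mono (fun x hx => by simp only [hx]))
  · ext f
    rw [dens_tl i, _root_.add_apply, dens_apply, dens_apply,
      integral_add_measure (int_mul i1 f) (int_mul i2 f)]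
    congr 1
    · exact integral_congr_ae (e1.mono (fun x hx => by simp only [hx]))
    · exact integral_congr_ae (e2.mono (fun x hx => by simp only [hx]))

lemma glue_finset {ι : Type*} (s : Finset ι) (ν : ι → Measure Δ) (hfin : ∀ a, IsFiniteMeasure (ν a))
    (hs : ∀ a ∈ s, ∀ b ∈ s, a ≠ b → ν a ⟂ₘ ν b) (h : ∀ a, Lp 𝕜 1 (ν a)) :
    IsFiniteMeasure (∑ a ∈ s, ν a) ∧ (∃ g : Lp 𝕜 1 (∑ a ∈ s, ν a), ‖g‖ = ∑ a ∈ s, ‖h a‖ ∧
      dens 𝕜 (∑ a ∈ s, ν a) g = ∑ a ∈ s, dens 𝕜 (ν a) (h a)) ∧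
      ∀ ρ : Measure Δ, (∀ a ∈ s, ρ ⟂ₘ ν a) → ρ ⟂ₘ ∑ a ∈ s, ν a := by
  induction s using Finset.induction_on with
  | empty =>
    refine ⟨by rw [Finset.sum_empty]; infer_instance,
      ⟨0, by rw [norm_zero, Finset.sum_empty], by rw [map_zero, Finset.sum_empty]⟩, fun ρ _ => ?_⟩
    rw [Finset.sum_empty]
    exact Measure.MutuallySingular.zero_right
  | @insert a s ha ih =>
    obtain ⟨ih1, ⟨g, hg1, hg2⟩, ih3⟩ := ih (fun b hb c hc hbc =>
      hs b (Finset.mem_insert_of_mem hb) c (Finset.mem_insert_of_mem hc) hbc)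
    have hfa := hfin a
    rw [Finset.sum_insert ha]
    refine ⟨inferInstance, ?_, fun ρ hρ => ?_⟩
    · have hsing : ν a ⟂ₘ ∑ b ∈ s, ν b := ih3 (ν a) (fun b hb =>
        hs a (Finset.mem_insert_self a s) b (Finset.mem_insert_of_mem hb)
          (fun hab => ha (hab ▸ hb)))
      obtain ⟨g', hg1', hg2'⟩ := glue hsing (h a) g
      refine ⟨g', ?_, ?_⟩
      · rw [hg1', hg1, Finset.sum_insert ha]
      · rw [hg2', hg2, Finset.sum_insert ha]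
    · rw [Measure.MutuallySingular.add_right_iff]
      exact ⟨hρ a (Finset.mem_insert_self a s), ih3 ρ (fun b hb =>
        hρ b (Finset.mem_insert_of_mem hb))⟩

lemma norm_sum_dens {ι : Type*} (s : Finset ι) (ν : ι → Measure Δ)
    (hfin : ∀ a, IsFiniteMeasure (ν a)) (hs : ∀ a ∈ s, ∀ b ∈ s, a ≠ b → ν a ⟂ₘ ν b)
    (h : ∀ a, Lp 𝕜 1 (ν a)) :
    ‖∑ a ∈ s, dens 𝕜 (ν a) (h a)‖ = ∑ a ∈ s, ‖h a‖ := by
  obtain ⟨h1, ⟨g, hg1, hg2⟩, -⟩ := glue_finset s ν hfin hs h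
  rw [← hg2, norm_dens, hg1]

/-- Pieces: nonzero finite measures that are atoms or atomless. -/
def IsPieceM (ν : Measure Δ) : Prop :=
  IsFiniteMeasure ν ∧ ν ≠ 0 ∧ (IsAtomOf ν Set.univ ∨ Atomless ν)

/-- singular families of pieces -/
def IsFamM (𝓜 : Set (Measure Δ)) : Prop :=
  (∀ ν ∈ 𝓜, IsPieceM ν) ∧ 𝓜.Pairwise (fun ν ν' => ν ⟂ₘ ν')

lemma exists_maximalM (𝓒 : Set (Measure Δ)) (h𝓒 : IsFamM 𝓒) :
    ∃ 𝓜, 𝓒 ⊆ 𝓜 ∧ IsFamM 𝓜 ∧ ∀ ρ : Measure Δ, IsFiniteMeasure ρ → ρ ≠ 0 →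
      ∃ ν ∈ 𝓜, ¬ ρ ⟂ₘ ν := by
  obtain ⟨m, hm, hmax⟩ := zorn_subset_nonempty {𝓜 | IsFamM 𝓜} (by
    intro c hc hchain hne
    refine ⟨⋃₀ c, ⟨?_, ?_⟩, fun s hs => Set.subset_sUnion_of_mem hs⟩
    · rintro A ⟨s, hs, hA⟩
      exact (hc hs).1 A hA
    · rw [Set.pairwise_sUnion hchain.directedOn]
      intro s hs
      exact (hc hs).2) 𝓒 h𝓒
  refine ⟨m, hm, hmax.prop, fun ρ hρ hρ0 => ?_⟩
  by_contra hcon
  push Not at hcon
  have key : ∀ ρ' : Measure Δ, ρ' ≪ ρ → IsPieceM ρ' → False := by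
    intro ρ' hac hp
    have hsing : ∀ ν ∈ m, ρ' ⟂ₘ ν := fun ν hν => (hcon ν hν).mono_ac hac Measure.AbsolutelyContinuous.rfl
    have h1 : IsFamM (insert ρ' m) := by
      refine ⟨?_, ?_⟩
      · rintro A (rfl | hA)
        · exact hp
        · exact hmax.prop.1 A hA
      · refine hmax.prop.2.insert (fun A hA hne => ?_)
        exact ⟨hsing A hA, (hsing A hA).symm⟩
    have h2 : ρ' ∈ m := hmax.le_of_ge h1 (Set.subset_insert _ _) (Set.mem_insert _ _)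
    exact hp.2.1 ((Measure.MutuallySingular.self_iff ρ').1 (hsing ρ' h2))
  by_cases hat : ∃ a, IsAtomOf ρ a
  · obtain ⟨a, ha⟩ := hat
    refine key (ρ.restrict a) (Measure.absolutelyContinuous_of_le Measure.restrict_le_self)
      ⟨inferInstance, ?_, Or.inl (atom_restrict ha)⟩
    rw [Ne, Measure.restrict_eq_zero]
    exact ha.2.1.ne'
  · push Not at hat
    refine key ρ Measure.AbsolutelyContinuous.rfl ⟨hρ, hρ0, Or.inr ?_⟩
    have h1 := atomless_restrict (μ := ρ) MeasurableSet.univ (fun B _ => hat B)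
    rwa [Measure.restrict_univ] at h1

lemma mem_of_absolutelyContinuous_part {ρ ν : Measure Δ} [IsFiniteMeasure ρ] [IsFiniteMeasure ν]
    {B : Set Δ} (hB : MeasurableSet B) (h : ¬ ρ.restrict B ⟂ₘ ν) :
    ∃ A ⊆ B, MeasurableSet A ∧ ρ A ≠ 0 ∧ ∀ f : Δ → 𝕜, Integrable f ρ →
      ∃ g : Δ → 𝕜, Integrable g ν ∧ dens 𝕜 ρ (tl ρ (A.indicator f)) = dens 𝕜 ν (tl ν g) := by
  have hLD := Measure.haveLebesgueDecomposition_of_sigmaFinite (ρ.restrict B) ν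
  obtain ⟨hm, hsing, hdec⟩ := Measure.haveLebesgueDecomposition_spec (ρ.restrict B) ν
  set σ := (ρ.restrict B).singularPart ν with hσ
  set q := (ρ.restrict B).rnDeriv ν with hq
  obtain ⟨N, hN, hN1, hN2⟩ := hsing
  -- `σ N = 0`, `ν Nᶜ = 0`
  have hqN : (ν.withDensity q) Nᶜ = 0 := by
    rw [withDensity_apply _ hN.compl]
    exact setLIntegral_measure_zero _ _ hN2
  have hres : (ρ.restrict (N ∩ B)) = ν.withDensity q := by
    ext E hE
    have h1 : ρ.restrict (N ∩ B) E = (ρ.restrict B) (E ∩ N) := by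
      rw [Measure.restrict_apply hE, Measure.restrict_apply (hE.inter hN), Set.inter_assoc]
    rw [h1, hdec, Measure.add_apply]
    have h2 : σ (E ∩ N) = 0 := measure_mono_null Set.inter_subset_right hN1
    have h3 : (ν.withDensity q) (E ∩ N) = (ν.withDensity q) E := by
      refine le_antisymm (measure_mono Set.inter_subset_left) ?_
      calc (ν.withDensity q) E ≤ (ν.withDensity q) ((E ∩ N) ∪ Nᶜ) := by
            refine measure_mono (fun x hx => ?_)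
            by_cases hxN : x ∈ N
            · exact Or.inl ⟨hx, hxN⟩
            · exact Or.inr hxN
        _ ≤ (ν.withDensity q) (E ∩ N) + (ν.withDensity q) Nᶜ := measure_union_le _ _
        _ = _ := by rw [hqN, add_zero]
    rw [h2, h3, zero_add]
  have hAm : MeasurableSet (N ∩ B) := hN.inter hB
  refine ⟨N ∩ B, Set.inter_subset_right, hAm, ?_, fun f hf => ?_⟩
  · intro h0
    apply h
    have h4 : ν.withDensity q = 0 := by
      rw [← hres, Measure.restrict_eq_zero]; exact h0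
    rw [hdec, h4, add_zero]
    exact ⟨N, hN, hN1, hN2⟩
  · have hqtop : ∀ᵐ x ∂ν, q x < ∞ := Measure.rnDeriv_lt_top _ _
    have hfr : Integrable f (ν.withDensity q) := by
      rw [← hres]; exact hf.restrict
    have hg : Integrable (fun x => (q x).toReal • f x) ν :=
      (integrable_withDensity_iff_integrable_smul' hm hqtop).1 hfr
    refine ⟨fun x => (q x).toReal • f x, hg, ?_⟩
    ext φ
    rw [dens_tl (hf.indicator hAm), dens_tl hg]
    have h5 : ∫ x, (N ∩ B).indicator f x * φ x ∂ρ = ∫ x in N ∩ B, f x * φ x ∂ρ := by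
      rw [← integral_indicator hAm]
      refine integral_congr_ae (Eventually.of_forall (fun x => ?_))
      by_cases hx : x ∈ N ∩ B
      · simp only [Set.indicator_of_mem hx]
      · simp only [Set.indicator_of_notMem hx, zero_mul]
    rw [h5, hres, integral_withDensity_eq_integral_toReal_smul hm hqtop]
    refine integral_congr_ae (Eventually.of_forall (fun x => ?_))
    simp only [smul_mul_assoc]

/-- atomless members -/
abbrev JM (𝓜 : Set (Measure Δ)) : Type := {ν : Measure Δ // ν ∈ 𝓜 ∧ ¬ IsAtomOf ν Set.univ}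

/-- atoms -/
abbrev GM (𝓜 : Set (Measure Δ)) : Type := {ν : Measure Δ // ν ∈ 𝓜 ∧ IsAtomOf ν Set.univ}

/-- The structure of the dual of `C(Δ)`. -/
theorem cantor_struct {𝓜 : Set (Measure Δ)} (h𝓜 : IsFamM 𝓜)
    (hmax : ∀ ρ : Measure Δ, IsFiniteMeasure ρ → ρ ≠ 0 → ∃ ν ∈ 𝓜, ¬ ρ ⟂ₘ ν) :
    Nonempty (LStruct 𝕜 (Lp 𝕜 1 UI) 𝕜 (C(Δ, 𝕜) →L[𝕜] 𝕜) (JM 𝓜) (GM 𝓜)) := by
  have hfact : Fact ((1 : ℝ≥0∞) ≠ ∞) := ⟨by simp⟩
  have hφ : ∀ ν : JM 𝓜, Nonempty (Lp 𝕜 1 UI ≃ₗᵢ[𝕜] Lp 𝕜 1 (ν : Measure Δ)) := by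
    intro ν
    obtain ⟨h1, h2, h3⟩ := h𝓜.1 ν ν.2.1
    exact piece_atomless (ν : Measure Δ) 𝕜 h2 (h3.resolve_left ν.2.2)
  have hψ : ∀ ν : GM 𝓜, Nonempty (𝕜 ≃ₗᵢ[𝕜] Lp 𝕜 1 (ν : Measure Δ)) := by
    intro ν
    obtain ⟨h1, h2, h3⟩ := h𝓜.1 ν ν.2.1
    exact piece_atom (ν : Measure Δ) 𝕜 ν.2.2
  have φ := fun ν => (hφ ν).some
  have ψ := fun ν => (hψ ν).some
  refine ⟨{ i := fun ν => (dens 𝕜 (ν : Measure Δ)).comp ((φ ν).toLinearIsometry.toContinuousLinearMap)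
            k := fun ν => (dens 𝕜 (ν : Measure Δ)).comp ((ψ ν).toLinearIsometry.toContinuousLinearMap)
            c := 1, C := 1, hc := one_pos, upper_i := ?_, upper_k := ?_,
            lower := ?_, dense := ?_ }⟩
  · intro ν x
    rw [one_mul]
    exact (norm_dens_le _ _).trans (le_of_eq ((φ ν).norm_map x))
  · intro ν x
    rw [one_mul]
    exact (norm_dens_le _ _).trans (le_of_eq ((ψ ν).norm_map x))
  · intro S T x y
    have h1 := norm_sum_dens (𝕜 := 𝕜) (S.disjSum T)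
      (fun a : JM 𝓜 ⊕ GM 𝓜 => (Sum.rec (fun j => (j : Measure Δ)) (fun γ => (γ : Measure Δ)) a :
        Measure Δ)) (by
        rintro (a | a)
        · exact (h𝓜.1 a a.2.1).1
        · exact (h𝓜.1 a a.2.1).1) (by
        intro a _ b _ hab
        rcases a with a | a <;> rcases b with b | b
        · exact h𝓜.2 a.2.1 b.2.1 (fun h => hab (by rw [Subtype.ext h]))
        · refine h𝓜.2 a.2.1 b.2.1 (fun h => a.2.2 ?_)
          have h' : (a : Measure Δ) = b := h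
          rw [h']; exact b.2.2
        · refine h𝓜.2 a.2.1 b.2.1 (fun h => b.2.2 ?_)
          have h' : (a : Measure Δ) = b := h
          rw [← h']; exact a.2.2
        · exact h𝓜.2 a.2.1 b.2.1 (fun h => hab (by rw [Subtype.ext h])))
      (fun a => match a with
        | Sum.inl j => φ j (x j)
        | Sum.inr γ => ψ γ (y γ))
    rw [Finset.sum_disjSum, Finset.sum_disjSum] at h1
    simp only [LinearIsometryEquiv.norm_map] at h1
    rw [one_mul, ← h1]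
    exact le_rfl
  · intro M hM h1 h2
    rw [eq_top_iff]
    intro Φ _
    obtain ⟨ρ, hρ, h, hh, hΦ⟩ := exists_density Φ
    have hΦ' : Φ = dens 𝕜 ρ (tl ρ h) := by
      ext f
      rw [hΦ, dens_tl hh]
    have htop : M.comap (dens 𝕜 ρ : Lp 𝕜 1 ρ →ₗ[𝕜] (C(Δ, 𝕜) →L[𝕜] 𝕜)) = ⊤ := by
      refine eq_top_of_family {A | MeasurableSet A ∧ ∀ f : Δ → 𝕜, Integrable f ρ →
        tl ρ (A.indicator f) ∈ M.comap (dens 𝕜 ρ : Lp 𝕜 1 ρ →ₗ[𝕜] (C(Δ, 𝕜) →L[𝕜] 𝕜))}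
        (fun A hA => hA.1) ?_ _ (hM.preimage (dens 𝕜 ρ).continuous) (fun A hA => hA.2)
      intro B hB hB0 _
      have hne : ρ.restrict B ≠ 0 := by
        rw [Ne, Measure.restrict_eq_zero]; exact hB0.ne'
      obtain ⟨ν, hν, hsing⟩ := hmax (ρ.restrict B) inferInstance hne
      have hνfin : IsFiniteMeasure ν := (h𝓜.1 ν hν).1
      obtain ⟨A, hAB, hA, hA0, hA'⟩ := mem_of_absolutelyContinuous_part (𝕜 := 𝕜) hB hsing
      refine ⟨A, ⟨hA, fun f hf => ?_⟩, by rwa [Set.inter_eq_left.2 hAB]⟩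
      obtain ⟨g, hg, hg'⟩ := hA' f hf
      show dens 𝕜 ρ (tl ρ (A.indicator f)) ∈ M
      rw [hg']
      by_cases hat : IsAtomOf ν Set.univ
      · have h3 := h2 ⟨ν, hν, hat⟩ ((ψ ⟨ν, hν, hat⟩).symm (tl ν g))
        have h4 : ψ ⟨ν, hν, hat⟩ ((ψ ⟨ν, hν, hat⟩).symm (tl ν g)) = tl ν g :=
          (ψ ⟨ν, hν, hat⟩).apply_symm_apply _
        have h5 : dens 𝕜 ν (ψ ⟨ν, hν, hat⟩ ((ψ ⟨ν, hν, hat⟩).symm (tl ν g))) ∈ M := h3
        rwa [h4] at h5
      · have h3 := h1 ⟨ν, hν, hat⟩ ((φ ⟨ν, hν, hat⟩).symm (tl ν g))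
        have h4 : φ ⟨ν, hν, hat⟩ ((φ ⟨ν, hν, hat⟩).symm (tl ν g)) = tl ν g :=
          (φ ⟨ν, hν, hat⟩).apply_symm_apply _
        have h5 : dens 𝕜 ν (φ ⟨ν, hν, hat⟩ ((φ ⟨ν, hν, hat⟩).symm (tl ν g))) ∈ M := h3
        rwa [h4] at h5
    have h3 : tl ρ h ∈ M.comap (dens 𝕜 ρ : Lp 𝕜 1 ρ →ₗ[𝕜] (C(Δ, 𝕜) →L[𝕜] 𝕜)) := by
      rw [htop]; trivial
    rw [hΦ']
    exact h3

end Family

end DualL1
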