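import Pool.Agent.Helper2.DualL1.CantorDual
import Pool.Agent.Helper2.DualL1.Absorb
import Pool.Agent.Helper2.DualL1.C0Dual

/-! Sufficiency: continuum many separable atomless pieces. -/

namespace DualL1

open Filter Topology MeasureTheory Cardinal
open scoped ENNReal

section AtomlessMeasure

/-- Lebesgue measure on the unit interval is atomless. -/
lemma atomless_UI : Atomless UI := by
  intro E hE hE0
  by_contra hcon
  push Not at hcon
  -- every measurable subset is null or co-null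
  have key : ∀ t : ℝ, UI (E ∩ Set.Iic t) = 0 ∨ UI (E \ Set.Iic t) = 0 := by
    intro t
    by_cases h : UI (E ∩ Set.Iic t) = 0
    · exact Or.inl h
    · right
      have h1 := hcon (E ∩ Set.Iic t) Set.inter_subset_left (hE.inter measurableSet_Iic)
        (pos_iff_ne_zero.2 h)
      have h2 : E \ (E ∩ Set.Iic t) = E \ Set.Iic t := by
        ext x; simp only [Set.mem_sdiff, Set.mem_inter_iff]; tauto
      rw [h2] at h1
      exact nonpos_iff_eq_zero.1 h1
  set T : Set ℝ := {t | UI (E ∩ Set.Iic t) = 0} with hT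
  have hlow : ∀ s t, s ≤ t → t ∈ T → s ∈ T := fun s t hst ht =>
    measure_mono_null (Set.inter_subset_inter_right _ (Set.Iic_subset_Iic.2 hst)) ht
  have h0 : (0 : ℝ) ∈ T := by
    show UI (E ∩ Set.Iic 0) = 0
    refine measure_mono_null Set.inter_subset_right ?_
    rw [Measure.restrict_apply measurableSet_Iic]
    refine measure_mono_null (t := {0}) ?_ (by simp)
    rintro x ⟨hx1, hx2, _⟩
    exact le_antisymm hx1 hx2
  have h1 : (1 : ℝ) ∉ T := by
    intro h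
    have h' : UI (E ∩ Set.Iic 1) = 0 := h
    have h2 : UI E = UI (E ∩ Set.Iic 1) := by
      rw [Measure.restrict_apply hE, Measure.restrict_apply (hE.inter measurableSet_Iic)]
      congr 1
      ext x
      simp only [Set.mem_inter_iff, Set.mem_Icc, Set.mem_Iic]
      tauto
    rw [h2, h'] at hE0
    exact lt_irrefl _ hE0
  have hbdd : BddAbove T := ⟨1, fun t ht => by
    by_contra hlt
    push Not at hlt
    exact h1 (hlow 1 t hlt.le ht)⟩
  set c := sSup T with hc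
  have hltT : ∀ t, t < c → t ∈ T := by
    intro t ht
    obtain ⟨s, hs, hts⟩ := exists_lt_of_lt_csSup ⟨0, h0⟩ ht
    exact hlow t s hts.le hs
  have hgtT : ∀ t, c < t → t ∉ T := fun t ht h => absurd (le_csSup hbdd h) (not_le.2 ht)
  have e1 : UI (E ∩ Set.Iio c) = 0 := by
    have h2 : E ∩ Set.Iio c ⊆ ⋃ n : ℕ, E ∩ Set.Iic (c - 1 / ((n : ℝ) + 1)) := by
      rintro x ⟨hxE, hx⟩
      have hx' : 0 < c - x := by
        have : x < c := hx
        linarith
      obtain ⟨n, hn⟩ := exists_nat_one_div_lt hx'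
      exact Set.mem_iUnion.2 ⟨n, hxE, by show x ≤ _; linarith⟩
    refine measure_mono_null h2 (measure_iUnion_null (fun n => hltT _ ?_))
    have : (0 : ℝ) < 1 / ((n : ℝ) + 1) := by positivity
    linarith
  have e2 : UI (E ∩ Set.Ioi c) = 0 := by
    have h2 : E ∩ Set.Ioi c ⊆ ⋃ n : ℕ, E \ Set.Iic (c + 1 / ((n : ℝ) + 1)) := by
      rintro x ⟨hxE, hx⟩
      have hx' : 0 < x - c := by
        have : c < x := hx
        linarith
      obtain ⟨n, hn⟩ := exists_nat_one_div_lt hx'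
      refine Set.mem_iUnion.2 ⟨n, hxE, ?_⟩
      show ¬ x ≤ _
      push Not
      linarith
    refine measure_mono_null h2 (measure_iUnion_null (fun n => ?_))
    have h3 : (0 : ℝ) < 1 / ((n : ℝ) + 1) := by positivity
    exact (key _).resolve_left (hgtT _ (by linarith))
  have e3 : UI E = 0 := by
    have h2 : E ⊆ (E ∩ Set.Iio c) ∪ (E ∩ Set.Ioi c) ∪ {c} := by
      intro x hx
      rcases lt_trichotomy x c with h | h | h
      · exact Or.inl (Or.inl ⟨hx, h⟩)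
      · exact Or.inr h
      · exact Or.inl (Or.inr ⟨hx, h⟩)
    refine measure_mono_null h2 ?_
    rw [measure_union_null_iff, measure_union_null_iff]
    exact ⟨⟨e1, e2⟩, by simp⟩
  exact hE0.ne' e3

lemma exists_atomless_Δ : ∃ ν : Measure Δ, IsFiniteMeasure ν ∧ ν ≠ 0 ∧ Atomless ν := by
  have hcard : #(ℕ → Bool) = 𝔠 := by simp
  have hΔ : ¬ Countable Δ := by
    intro h
    have h1 : #(ℕ → Bool) ≤ ℵ₀ := Cardinal.mk_le_aleph0
    rw [hcard] at h1
    exact absurd h1 (not_le.2 Cardinal.aleph0_lt_continuum)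
  have hℝ : ¬ Countable ℝ := by
    intro h
    have h1 : #ℝ ≤ ℵ₀ := Cardinal.mk_le_aleph0
    rw [Cardinal.mk_real] at h1
    exact absurd h1 (not_le.2 Cardinal.aleph0_lt_continuum)
  let e : ℝ ≃ᵐ Δ := PolishSpace.measurableEquivOfNotCountable hℝ hΔ
  have hne : UI ≠ 0 := by
    rw [Ne, Measure.restrict_eq_zero, Real.volume_Icc]
    simp
  refine ⟨UI.map e, inferInstance, ?_, ?_⟩
  · intro h
    rw [Measure.map_eq_zero_iff e.measurable.aemeasurable] at h
    exact hne h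
  · intro E hE hE0
    rw [Measure.map_apply e.measurable hE] at hE0
    obtain ⟨P, hP, hPm, hP1, hP2⟩ := atomless_UI _ (e.measurable hE) hE0
    refine ⟨e.symm ⁻¹' P, ?_, e.symm.measurable hPm, ?_, ?_⟩
    · intro x hx
      have := hP hx
      simpa using this
    · rw [Measure.map_apply e.measurable (e.symm.measurable hPm)]
      have : e ⁻¹' (e.symm ⁻¹' P) = P := by
        ext x; simp
      rwa [this]
    · rw [Measure.map_apply e.measurable (hE.diff (e.symm.measurable hPm))]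
      have : e ⁻¹' (E \ e.symm ⁻¹' P) = e ⁻¹' E \ P := by
        ext x; simp
      rwa [this]

end AtomlessMeasure

section Cardinality

lemma mk_fam_le (𝓜 : Set (Measure Δ)) (h𝓜 : ∀ ν ∈ 𝓜, IsFiniteMeasure ν) : #𝓜 ≤ 𝔠 := by
  obtain ⟨q, hq⟩ := TopologicalSpace.exists_dense_seq C(Δ, ℝ)
  have hinj : Function.Injective (fun (ν : 𝓜) (n : ℕ) => ∫ x, q n x ∂(ν : Measure Δ)) := by
    intro ν ν' h
    have f1 := h𝓜 ν ν.2
    have f2 := h𝓜 ν' ν'.2
    refine Subtype.ext ?_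
    refine ext_of_forall_integral_eq_of_IsFiniteMeasure (fun f => ?_)
    have hint : ∀ (ρ : Measure Δ) [IsFiniteMeasure ρ] (g : C(Δ, ℝ)), Integrable g ρ := fun ρ _ g =>
      g.continuous.integrable_of_hasCompactSupport (HasCompactSupport.of_compactSpace _)
    have hcont : ∀ (ρ : Measure Δ) [IsFiniteMeasure ρ], Continuous (fun g : C(Δ, ℝ) => ∫ x, g x ∂ρ) := by
      intro ρ _
      rw [Metric.continuous_iff]
      intro g ε hε
      refine ⟨ε / (ρ.real Set.univ + 1), by positivity, fun g' hg' => ?_⟩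
      rw [Real.dist_eq, ← integral_sub (hint ρ g') (hint ρ g)]
      have h1 : ∀ x, ‖g' x - g x‖ ≤ dist g' g := by
        intro x
        rw [← dist_eq_norm]
        exact ContinuousMap.dist_apply_le_dist x
      calc |∫ x, (g' x - g x) ∂ρ| ≤ dist g' g * ρ.real Set.univ := by
            have := norm_integral_le_of_norm_le_const (μ := ρ) (Eventually.of_forall h1)
            simpa using this
        _ ≤ dist g' g * (ρ.real Set.univ + 1) := by
            refine mul_le_mul_of_nonneg_left (by linarith) dist_nonneg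
        _ < ε / (ρ.real Set.univ + 1) * (ρ.real Set.univ + 1) := by
            refine mul_lt_mul_of_pos_right hg' (by positivity)
        _ = ε := by field_simp
    have heq : (fun g : C(Δ, ℝ) => ∫ x, g x ∂(ν : Measure Δ))
        = fun g : C(Δ, ℝ) => ∫ x, g x ∂(ν' : Measure Δ) := by
      refine (hcont ν).ext_on hq (hcont ν') ?_
      rintro _ ⟨n, rfl⟩
      exact congrFun h n
    exact congrFun heq f.toContinuousMap
  have h1 : #𝓜 ≤ #(ℕ → ℝ) := Cardinal.mk_le_of_injective hinj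
  have h2 : #(ℕ → ℝ) = 𝔠 := by
    simp [Cardinal.mk_real]
  rwa [h2] at h1

universe u

lemma mk_prod_le {J : Type u} (hJ : IsEmpty J ∨ 𝔠 ≤ #J) (P : Type) (hP : #P ≤ 𝔠) :
    #(J × P) ≤ #J := by
  rcases hJ with h | h
  · have h0 : #(J × P) = 0 := by rw [Cardinal.mk_eq_zero_iff]; infer_instance
    rw [h0]; exact bot_le
  · rw [Cardinal.mk_prod, Cardinal.lift_uzero]
    refine (mul_le_mul' le_rfl ?_).trans (Cardinal.mul_eq_self
      (Cardinal.aleph0_le_continuum.trans h)).le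
    calc Cardinal.lift.{u} #P ≤ Cardinal.lift.{u} 𝔠 := Cardinal.lift_le.2 hP
      _ = 𝔠 := Cardinal.lift_continuum
      _ ≤ #J := h

lemma nonempty_prod_equiv {J : Type u} (hJ : IsEmpty J ∨ 𝔠 ≤ #J) (P : Type) (hP : #P ≤ 𝔠)
    [Nonempty P] : Nonempty ((J × P) × Unit ≃ J × Unit) := by
  have h1 : #(J × P) = #J := by
    refine le_antisymm (mk_prod_le hJ P hP) ?_
    exact Cardinal.mk_le_of_injective (f := fun j : J => (j, Classical.arbitrary P))
      (fun a b h => (Prod.mk.injEq _ _ _ _ ▸ h).1)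
  obtain ⟨σ⟩ := Cardinal.eq.1 h1
  exact ⟨σ.prodCongr (Equiv.refl Unit)⟩

lemma nonempty_sum_equiv {J Γ : Type u} (hJ : IsEmpty J ∨ 𝔠 ≤ #J) (P Q : Type) (hP : #P ≤ 𝔠)
    [Nonempty P] (hQ : #Q ≤ 𝔠) :
    Nonempty (((J × P) × Unit) ⊕ ((J × Q) ⊕ Γ) ≃ (J × Unit) ⊕ Γ) := by
  obtain ⟨σ⟩ := nonempty_prod_equiv hJ P hP
  have h1 : #((J × Unit) ⊕ (J × Q)) = #(J × Unit) := by
    rcases hJ with h | h
    · have a1 : #(J × Unit) = 0 := by rw [Cardinal.mk_eq_zero_iff]; infer_instance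
      have a2 : #((J × Unit) ⊕ (J × Q)) = 0 := by rw [Cardinal.mk_eq_zero_iff]; infer_instance
      rw [a1, a2]
    · have a1 : #(J × Unit) = #J := Cardinal.mk_congr (Equiv.prodPUnit J)
      rw [Cardinal.mk_sum, a1, Cardinal.lift_id, Cardinal.lift_id]
      exact Cardinal.add_eq_left (Cardinal.aleph0_le_continuum.trans h)
        (mk_prod_le (Or.inr h) Q hQ)
  obtain ⟨τ⟩ := Cardinal.eq.1 h1
  refine ⟨((σ.sumCongr (Equiv.refl _)).trans (Equiv.sumAssoc _ _ _).symm).trans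
    (τ.sumCongr (Equiv.refl _))⟩

end Cardinality

section Main

universe u v

/-- A locally separable `L¹` space without atomless pieces or with at least continuum many of
them is a dual space. -/
theorem exists_predual {Ω : Type u} [MeasurableSpace Ω] (μ : Measure Ω) {𝕜 : Type v} [RCLike 𝕜]
    (hsep : LocallySeparable μ 𝕜) (𝒟 : Set (Set Ω)) (h𝒟 : IsFam μ 𝒟)
    (hmax : ∀ B, MeasurableSet B → 0 < μ B → μ B ≠ ∞ → ∃ A ∈ 𝒟, μ (A ∩ B) ≠ 0)
    (hJ : IsEmpty (JIdx μ 𝒟) ∨ 𝔠 ≤ #(JIdx μ 𝒟)) :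
    IsoToDual.{max u v, v, max u v} 𝕜 (Lp 𝕜 1 μ) := by
  obtain ⟨s⟩ := l1_struct hsep h𝒟 hmax
  obtain ⟨φ⟩ := absorb_UI 𝕜
  obtain ⟨ν₀, hν₀f, hν₀0, hν₀a⟩ := exists_atomless_Δ
  have hnot : ¬ IsAtomOf ν₀ Set.univ := by
    rintro ⟨-, h0, h⟩
    obtain ⟨P, hP, hPm, hP1, hP2⟩ := hν₀a Set.univ MeasurableSet.univ h0
    rcases h P hP hPm with h | h
    · exact hP1.ne' h
    · exact hP2.ne' h
  obtain ⟨𝓜, h𝓒, h𝓜, hmaxM⟩ := exists_maximalM {ν₀} (by
    refine ⟨?_, Set.pairwise_singleton _ _⟩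
    rintro ν rfl
    exact ⟨hν₀f, hν₀0, Or.inr hν₀a⟩)
  have hne : Nonempty (JM 𝓜) := ⟨⟨ν₀, h𝓒 rfl, hnot⟩⟩
  obtain ⟨w⟩ := cantor_struct (𝕜 := 𝕜) h𝓜 hmaxM
  have hM𝔠 : #𝓜 ≤ 𝔠 := mk_fam_le 𝓜 (fun ν hν => (h𝓜.1 ν hν).1)
  have hP : #(JM 𝓜) ≤ 𝔠 := (Cardinal.mk_le_of_injective (f := fun ν : JM 𝓜 =>
    (⟨ν.1, ν.2.1⟩ : 𝓜)) (fun a b h => Subtype.ext (congrArg (fun x : 𝓜 => x.1) h))).trans hM𝔠
  have hQ : #(GM 𝓜) ≤ 𝔠 := (Cardinal.mk_le_of_injective (f := fun ν : GM 𝓜 =>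
    (⟨ν.1, ν.2.1⟩ : 𝓜)) (fun a b h => Subtype.ext (congrArg (fun x : 𝓜 => x.1) h))).trans hM𝔠
  let t₁ : TopologicalSpace (JIdx μ 𝒟) := ⊥
  have d₁ : DiscreteTopology (JIdx μ 𝒟) := ⟨rfl⟩
  let t₂ : TopologicalSpace (GIdx μ 𝒟) := ⊥
  have d₂ : DiscreteTopology (GIdx μ 𝒟) := ⟨rfl⟩
  let d := dualStruct 𝕜 C(Δ, 𝕜) (JIdx μ 𝒟) (GIdx μ 𝒟)
  let z := (d.comp w).comp (LStruct.ofEquiv φ)
  let x := s.comp (LStruct.ofEquiv φ)
  obtain ⟨σ⟩ := nonempty_prod_equiv hJ (JM 𝓜) hP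
  obtain ⟨τ⟩ := nonempty_sum_equiv (Γ := GIdx μ 𝒟) hJ (JM 𝓜) (GM 𝓜) hP hQ
  exact ⟨Pre 𝕜 C(Δ, 𝕜) (JIdx μ 𝒟) (GIdx μ 𝒟), inferInstance, inferInstance, inferInstance,
    (x.reindex σ τ).nonempty_equiv z⟩

end Main

end DualL1
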