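import Pool.Agent.Helper2.DualL1.Main
import Pool.Agent.Helper2.DualL1.Sufficiency

/-! The necessary condition for all measures and the classification of locally separable ones. -/

namespace DualL1

open MeasureTheory Cardinal
open scoped ENNReal

universe u v w

variable {Ω : Type u} [MeasurableSpace Ω] {μ : Measure Ω} {𝕜 : Type v} [RCLike 𝕜]

lemma atom_inter {A E : Set Ω} (hA : IsAtomOf μ A) (hE : MeasurableSet E) (h : μ (A ∩ E) ≠ 0) :
    IsAtomOf μ (A ∩ E) := by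
  obtain ⟨hAm, hA0, hA1⟩ := hA
  refine ⟨hAm.inter hE, pos_iff_ne_zero.2 h, fun B hB hBm => ?_⟩
  rcases hA1 B (hB.trans Set.inter_subset_left) hBm with h' | h'
  · exact Or.inl h'
  · refine Or.inr (measure_mono_null ?_ h')
    exact Set.sdiff_subset_sdiff_left Set.inter_subset_left

/-- The necessary condition, for arbitrary measures. -/
theorem necessity {Y : Type w} [NormedAddCommGroup Y] [NormedSpace 𝕜 Y]
    (e : Lp 𝕜 1 μ ≃L[𝕜] (Y →L[𝕜] 𝕜)) : AtomicOnFinite μ ∨ ContinuumManyAtomless μ := by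
  obtain ⟨𝒟, -, h𝒟, hmax⟩ := exists_maximal (μ := μ) ∅ ⟨by simp, Set.pairwise_empty _⟩
  set 𝒞 : Set (Set Ω) := {A ∈ 𝒟 | ¬ IsAtomOf μ A} with h𝒞
  by_cases hcard : 𝔠 ≤ #𝒞
  · right
    refine ⟨𝒞, hcard, h𝒟.2.mono (fun A hA => hA.1), fun C hC => ?_⟩
    obtain ⟨h1, h2, h3, h4⟩ := h𝒟.1 C hC.1
    exact ⟨h1, h2, h3, h4.resolve_left hC.2⟩
  · left
    refine atomic_of_equiv e 𝒞 (not_le.1 hcard) (fun A hA => (h𝒟.1 A hA.1).1)
      (fun A hA => (h𝒟.1 A hA.1).2.2.1) (fun E hE hE0 hEt hEd => ?_)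
    obtain ⟨A, hA, hAE⟩ := hmax E hE hE0 hEt
    have hat : IsAtomOf μ A := by
      by_contra hat
      exact hAE (by rw [Set.inter_comm]; exact hEd A ⟨hA, hat⟩)
    exact ⟨A ∩ E, Set.inter_subset_right, atom_inter hat hE hAE⟩

/-- The classification of locally separable measures. -/
theorem classification (hsep : LocallySeparable μ 𝕜) :
    IsoToDual.{max u v, v, max u v} 𝕜 (Lp 𝕜 1 μ) ↔ AtomicOnFinite μ ∨ ContinuumManyAtomless μ := by
  constructor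
  · rintro ⟨Y, i1, i2, i3, ⟨e⟩⟩
    exact necessity e
  · rintro (h | ⟨𝒞, hcard, hd, hC⟩)
    · obtain ⟨𝒟, -, h𝒟, hmax⟩ := exists_maximal (μ := μ) ∅ ⟨by simp, Set.pairwise_empty _⟩
      refine exists_predual μ hsep 𝒟 h𝒟 hmax (Or.inl ⟨?_⟩)
      rintro ⟨A, hA, hat⟩
      obtain ⟨h1, h2, h3, h4⟩ := h𝒟.1 A hA
      obtain ⟨a, ha, ha'⟩ := h A h1 h2 h3
      exact h4.resolve_left hat a ha ha'
    · obtain ⟨𝒟, h𝒞𝒟, h𝒟, hmax⟩ := exists_maximal (μ := μ) 𝒞 ⟨fun A hA => by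
        obtain ⟨h1, h2, h3, h4⟩ := hC A hA
        exact ⟨h1, h2, h3, Or.inr h4⟩, hd⟩
      refine exists_predual μ hsep 𝒟 h𝒟 hmax (Or.inr (hcard.trans ?_))
      refine Cardinal.mk_le_of_injective (f := fun A : 𝒞 =>
        (⟨A.1, h𝒞𝒟 A.2, (hC A.1 A.2).2.2.2 A.1 subset_rfl⟩ : JIdx μ 𝒟)) ?_
      intro a b h
      exact Subtype.ext (congrArg (fun x : JIdx μ 𝒟 => x.1) h)

end DualL1
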