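import Mathlib

/-! Definitions used in the statements on `L¹` spaces isomorphic to dual spaces. -/

namespace DualL1

open MeasureTheory

/-- `A` is an atom of `μ`: it is measurable, has positive measure, and every measurable subset
`B` of `A` has `μ B = 0` or `μ (A \ B) = 0`. -/
def IsAtomOf {Ω : Type*} [MeasurableSpace Ω] (μ : Measure Ω) (A : Set Ω) : Prop :=
  MeasurableSet A ∧ 0 < μ A ∧ ∀ B ⊆ A, MeasurableSet B → μ B = 0 ∨ μ (A \ B) = 0

/-- Every measurable set of finite positive measure contains an atom. -/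
def AtomicOnFinite {Ω : Type*} [MeasurableSpace Ω] (μ : Measure Ω) : Prop :=
  ∀ E, MeasurableSet E → 0 < μ E → μ E ≠ ⊤ → ∃ A ⊆ E, IsAtomOf μ A

/-- There are at least continuum many measurable sets of finite positive measure, pairwise
intersecting in null sets, none of which contains an atom. -/
def ContinuumManyAtomless {Ω : Type*} [MeasurableSpace Ω] (μ : Measure Ω) : Prop :=
  ∃ 𝒞 : Set (Set Ω), Cardinal.continuum ≤ Cardinal.mk 𝒞 ∧
    𝒞.Pairwise (fun A B => μ (A ∩ B) = 0) ∧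
    ∀ C ∈ 𝒞, MeasurableSet C ∧ 0 < μ C ∧ μ C ≠ ⊤ ∧ ∀ A ⊆ C, ¬ IsAtomOf μ A

/-- For every measurable set `A` of finite measure the space `L¹(A, μ)` is separable. -/
def LocallySeparable {Ω : Type*} [MeasurableSpace Ω] (μ : Measure Ω) (𝕜 : Type*) [RCLike 𝕜] :
    Prop :=
  ∀ A, MeasurableSet A → μ A ≠ ⊤ → TopologicalSpace.SeparableSpace (Lp 𝕜 1 (μ.restrict A))

universe u v w

/-- `X` is isomorphic to the dual of a Banach space. -/
def IsoToDual (𝕜 : Type v) [RCLike 𝕜] (X : Type u) [NormedAddCommGroup X] [NormedSpace 𝕜 X] :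
    Prop :=
  ∃ (Y : Type w) (_ : NormedAddCommGroup Y) (_ : NormedSpace 𝕜 Y) (_ : CompleteSpace Y),
    Nonempty (X ≃L[𝕜] (Y →L[𝕜] 𝕜))

end DualL1
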