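import Pool.Agent.Helper2.DualL1.Comb
import Pool.Agent.Helper2.DualL1.Defs

/-! Exhaustion, atoms, and the gliding hump argument. -/

namespace DualL1

open Filter Topology MeasureTheory
open scoped ENNReal

section Exhaust

variable {Ω : Type*} [MeasurableSpace Ω]

theorem exhaust_core (ν : Measure Ω) [IsFiniteMeasure ν] (𝓑 : Set (Set Ω)) (h0 : ∅ ∈ 𝓑)
    (hU : ∀ B ∈ 𝓑, ∀ B' ∈ 𝓑, B ∪ B' ∈ 𝓑) (hm : ∀ B ∈ 𝓑, MeasurableSet B) :
    ∃ B : ℕ → Set Ω, (∀ k, B k ∈ 𝓑) ∧ ∀ a ∈ 𝓑, ν (a \ ⋃ k, B k) = 0 := by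
  set S : Set ℝ := (fun B => ν.real B) '' 𝓑 with hS
  have hSne : S.Nonempty := ⟨ν.real ∅, ∅, h0, rfl⟩
  have hSb : BddAbove S := ⟨ν.real Set.univ, by
    rintro _ ⟨B, _, rfl⟩
    exact measureReal_mono (Set.subset_univ _)⟩
  obtain ⟨u, -, hu, huS⟩ := exists_seq_tendsto_sSup hSne hSb
  choose B hB hBu using huS
  refine ⟨B, hB, fun a ha => ?_⟩
  have hV : MeasurableSet (⋃ k, B k) := MeasurableSet.iUnion (fun k => hm _ (hB k))
  have h1 : ∀ k, ν.real (a \ ⋃ k, B k) ≤ sSup S - u k := by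
    intro k
    have h2 : ν.real (a ∪ B k) ≤ sSup S := le_csSup hSb ⟨a ∪ B k, hU a ha _ (hB k), rfl⟩
    have h3 : ν.real (a \ ⋃ k, B k) + ν.real (B k) ≤ ν.real (a ∪ B k) := by
      rw [← measureReal_union _ (hm _ (hB k))]
      · refine measureReal_mono ?_
        intro x hx
        rcases hx with hx | hx
        · exact Or.inl hx.1
        · exact Or.inr hx
      · rw [Set.disjoint_left]
        intro x hx hx'
        exact hx.2 (Set.mem_iUnion.2 ⟨k, hx'⟩)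
    have h4 : ν.real (B k) = u k := hBu k
    linarith
  have h5 : ν.real (a \ ⋃ k, B k) ≤ 0 := by
    have h6 : Tendsto (fun k => sSup S - u k) atTop (𝓝 (sSup S - sSup S)) := hu.const_sub _
    rw [sub_self] at h6
    exact ge_of_tendsto' h6 h1
  have h7 : ν.real (a \ ⋃ k, B k) = 0 := le_antisymm h5 measureReal_nonneg
  exact (measureReal_eq_zero_iff).1 h7

theorem exhaust (ν : Measure Ω) [IsFiniteMeasure ν] (𝓑 : Set (Set Ω)) (h0 : ∅ ∈ 𝓑)
    (hU : ∀ B ∈ 𝓑, ∀ B' ∈ 𝓑, B ∪ B' ∈ 𝓑) (hm : ∀ B ∈ 𝓑, MeasurableSet B)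
    (hpos : ∀ V, MeasurableSet V → 0 < ν V → ∃ a ∈ 𝓑, 0 < ν (a ∩ V)) {ε : ℝ} (hε : 0 < ε) :
    ∃ B ∈ 𝓑, ν.real Bᶜ < ε := by
  obtain ⟨B, hB, hB'⟩ := exhaust_core ν 𝓑 h0 hU hm
  have hV : MeasurableSet (⋃ k, B k) := MeasurableSet.iUnion (fun k => hm _ (hB k))
  have h1 : ν (⋃ k, B k)ᶜ = 0 := by
    by_contra hne
    obtain ⟨a, ha, ha'⟩ := hpos _ hV.compl (pos_iff_ne_zero.2 hne)
    exact ha'.ne' (hB' a ha)
  have hacc : ∀ k, Set.accumulate B k ∈ 𝓑 := by
    intro k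
    induction k with
    | zero => simpa using hB 0
    | succ k ih =>
      rw [Set.accumulate_succ]
      exact hU _ ih _ (hB _)
  have h2 : Tendsto (fun k => ν (Set.accumulate B k)) atTop (𝓝 (ν (⋃ k, B k))) :=
    tendsto_measure_iUnion_accumulate
  have h3 : Tendsto (fun k => ν.real (Set.accumulate B k)) atTop (𝓝 (ν.real (⋃ k, B k))) :=
    (ENNReal.tendsto_toReal (measure_ne_top _ _)).comp h2
  have h4 : ∀ k, ν.real (Set.accumulate B k)ᶜ
      = ν.real (⋃ k, B k) - ν.real (Set.accumulate B k) := by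
    intro k
    have h5 := measureReal_add_measureReal_compl (μ := ν) hV
    have h6 := measureReal_add_measureReal_compl (μ := ν) (hm _ (hacc k))
    have h7 : ν.real (⋃ k, B k)ᶜ = 0 := by rw [measureReal_def, h1]; simp
    linarith
  have h8 : Tendsto (fun k => ν.real (Set.accumulate B k)ᶜ) atTop (𝓝 0) := by
    simp_rw [h4]
    have := h3.const_sub (ν.real (⋃ k, B k))
    rwa [sub_self] at this
  obtain ⟨k, hk⟩ := (h8.eventually (gt_mem_nhds hε)).exists
  exact ⟨_, hacc k, hk⟩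

end Exhaust

section Atoms

variable {Ω : Type*} [MeasurableSpace Ω]

variable {μ : Measure Ω} {𝕜 : Type*} [RCLike 𝕜]

lemma atom_abs {A : Set Ω} (hA : IsAtomOf μ A) {g : Ω → ℝ} (hg : Measurable g) :
    ∫ x in A, |g x| ∂μ = |∫ x in A, g x ∂μ| := by
  obtain ⟨hAm, hA0, hA1⟩ := hA
  have hB : MeasurableSet (A ∩ {x | 0 ≤ g x}) := hAm.inter (measurableSet_le measurable_const hg)
  rcases hA1 _ Set.inter_subset_left hB with h | h
  · have h1 : ∀ᵐ x ∂(μ.restrict A), g x < 0 := by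
      rw [ae_restrict_iff' hAm, ae_iff]
      refine measure_mono_null ?_ h
      intro x hx
      simp only [Set.mem_ofPred_eq, Classical.not_imp, not_lt] at hx
      exact ⟨hx.1, hx.2⟩
    have h2 : ∫ x in A, |g x| ∂μ = ∫ x in A, - g x ∂μ :=
      integral_congr_ae (h1.mono (fun x hx => abs_of_neg hx))
    have h3 : 0 ≤ ∫ x in A, |g x| ∂μ := integral_nonneg (fun x => abs_nonneg _)
    rw [integral_neg] at h2
    rw [h2, abs_of_nonpos (by linarith)]
  · have h1 : ∀ᵐ x ∂(μ.restrict A), 0 ≤ g x := by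
      rw [ae_restrict_iff' hAm, ae_iff]
      refine measure_mono_null ?_ h
      intro x hx
      simp only [Set.mem_ofPred_eq, Classical.not_imp, not_le] at hx
      exact ⟨hx.1, fun h' => absurd h'.2 (not_le.2 hx.2)⟩
    have h2 : ∫ x in A, |g x| ∂μ = ∫ x in A, g x ∂μ :=
      integral_congr_ae (h1.mono (fun x hx => abs_of_nonneg hx))
    rw [h2, abs_of_nonneg]
    rw [← h2]
    exact integral_nonneg (fun x => abs_nonneg _)

lemma atom_norm {A : Set Ω} (hA : IsAtomOf μ A) {g : Ω → 𝕜} (hg : Measurable g)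
    (hgi : Integrable g μ) :
    ∫ x in A, ‖g x‖ ∂μ ≤ 2 * ‖∫ x in A, g x ∂μ‖ := by
  have h1 : ∫ x in A, ‖g x‖ ∂μ ≤ ∫ x in A, (|RCLike.re (g x)| + |RCLike.im (g x)|) ∂μ := by
    refine integral_mono hgi.norm.restrict ?_ (fun x => ?_)
    · exact (hgi.re.abs.add hgi.im.abs).restrict
    · have h2 : ‖g x‖ ^ 2 ≤ (|RCLike.re (g x)| + |RCLike.im (g x)|) ^ 2 := by
        rw [← RCLike.normSq_eq_def', RCLike.normSq_apply]
        nlinarith [abs_nonneg (RCLike.re (g x)), abs_nonneg (RCLike.im (g x)),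
          abs_mul_abs_self (RCLike.re (g x)), abs_mul_abs_self (RCLike.im (g x)),
          mul_nonneg (abs_nonneg (RCLike.re (g x))) (abs_nonneg (RCLike.im (g x)))]
      exact le_of_sq_le_sq h2 (by positivity)
  have h3 : ∫ x in A, |RCLike.re (g x)| ∂μ = |RCLike.re (∫ x in A, g x ∂μ)| := by
    rw [atom_abs (g := fun x => RCLike.re (g x)) hA (RCLike.measurable_re.comp hg),
      integral_re hgi.restrict]
  have h4 : ∫ x in A, |RCLike.im (g x)| ∂μ = |RCLike.im (∫ x in A, g x ∂μ)| := by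
    rw [atom_abs (g := fun x => RCLike.im (g x)) hA (RCLike.measurable_im.comp hg),
      integral_im hgi.restrict]
  rw [integral_add hgi.re.abs.restrict hgi.im.abs.restrict, h3, h4] at h1
  have h5 := RCLike.abs_re_le_norm (∫ x in A, g x ∂μ)
  have h6 := RCLike.abs_im_le_norm (∫ x in A, g x ∂μ)
  linarith

end Atoms

section Hump

variable {Ω : Type*} [MeasurableSpace Ω] {μ : Measure Ω} {𝕜 : Type*} [RCLike 𝕜]

variable (μ) in
/-- an upper 2-estimate in `L¹`. -/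
def UpperTwo (f : ℕ → Ω → 𝕜) (C : ℝ) : Prop :=
  ∀ (S : Finset ℕ) (a : ℕ → 𝕜), (∀ n, ‖a n‖ ≤ 1) →
    ∫ x, ‖∑ n ∈ S, a n * f n x‖ ∂μ ≤ C * Real.sqrt S.card

lemma not_forall_mul_le {C ε : ℝ} (hε : 0 < ε) (h : ∀ K : ℕ, ε * K ≤ C * Real.sqrt K) : False := by
  obtain ⟨K, hK⟩ := exists_nat_gt ((C / ε) ^ 2)
  have hK0 : (0 : ℝ) < K := lt_of_le_of_lt (sq_nonneg _) hK
  have hs : 0 < Real.sqrt K := Real.sqrt_pos.2 hK0
  have h1 := h K
  have h2 : Real.sqrt K * Real.sqrt K = K := Real.mul_self_sqrt hK0.le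
  have h3 : ε * Real.sqrt K ≤ C := by
    have : (ε * Real.sqrt K) * Real.sqrt K ≤ C * Real.sqrt K := by
      rw [mul_assoc, h2]; exact h1
    exact le_of_mul_le_mul_right this hs
  have h4 : Real.sqrt K ≤ C / ε := by
    rw [le_div_iff₀ hε, mul_comm]; exact h3
  have h5 : (K : ℝ) ≤ (C / ε) ^ 2 := by
    rw [← h2, sq]
    exact mul_self_le_mul_self hs.le h4
  linarith

lemma atom_tendsto {f : ℕ → Ω → 𝕜} (hf : ∀ n, Measurable (f n)) (hfi : ∀ n, Integrable (f n) μ)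
    {C : ℝ} (hP : UpperTwo μ f C) {A : Set Ω} (hA : IsAtomOf μ A) :
    Tendsto (fun n => ∫ x in A, ‖f n x‖ ∂μ) atTop (𝓝 0) := by
  set b : ℕ → 𝕜 := fun n => ∫ x in A, f n x ∂μ with hb
  have hsum : ∀ S : Finset ℕ, ∑ n ∈ S, ‖b n‖ ≤ C * Real.sqrt S.card := by
    intro S
    choose a ha ha' using fun n => RCLike.exists_norm_eq_mul_self (b n)
    have h1 : ∫ x in A, ∑ n ∈ S, a n * f n x ∂μ = ((∑ n ∈ S, ‖b n‖ : ℝ) : 𝕜) := by
      rw [integral_finsetSum _ (fun n _ => ((hfi n).const_mul (a n)).restrict)]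
      push_cast
      refine Finset.sum_congr rfl (fun n _ => ?_)
      rw [integral_const_mul]
      exact (ha' n).symm
    have h2 : ‖∫ x in A, ∑ n ∈ S, a n * f n x ∂μ‖ = ∑ n ∈ S, ‖b n‖ := by
      rw [h1, RCLike.norm_ofReal, abs_of_nonneg (Finset.sum_nonneg (fun n _ => norm_nonneg _))]
    rw [← h2]
    have h3 : Integrable (fun x => ∑ n ∈ S, a n * f n x) μ :=
      integrable_finsetSum _ (fun n _ => (hfi n).const_mul (a n))
    calc ‖∫ x in A, ∑ n ∈ S, a n * f n x ∂μ‖ ≤ ∫ x in A, ‖∑ n ∈ S, a n * f n x‖ ∂μ :=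
          norm_integral_le_integral_norm _
      _ ≤ ∫ x, ‖∑ n ∈ S, a n * f n x‖ ∂μ :=
          setIntegral_le_integral h3.norm (Eventually.of_forall (fun x => norm_nonneg _))
      _ ≤ _ := hP S a (fun n => (ha n).le)
  have hbt : Tendsto (fun n => ‖b n‖) atTop (𝓝 0) := by
    rw [← Nat.cofinite_eq_atTop, Metric.tendsto_nhds]
    intro ε hε
    rw [eventually_cofinite]
    by_contra hinf
    refine not_forall_mul_le (C := C) hε (fun K => ?_)
    obtain ⟨t, ht, htK⟩ := Set.Infinite.exists_subset_card_eq hinf K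
    have h1 := hsum t
    rw [htK] at h1
    refine le_trans ?_ h1
    calc ε * K = ∑ n ∈ t, ε := by rw [Finset.sum_const, htK, nsmul_eq_mul, mul_comm]
      _ ≤ ∑ n ∈ t, ‖b n‖ := by
        refine Finset.sum_le_sum (fun n hn => ?_)
        have := ht hn
        simp only [Set.mem_ofPred_eq, dist_zero_right, norm_norm, not_lt] at this
        exact this
  have h2 : Tendsto (fun n => 2 * ‖b n‖) atTop (𝓝 0) := by
    have := hbt.const_mul 2
    rwa [mul_zero] at this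
  exact squeeze_zero (fun n => integral_nonneg (fun x => norm_nonneg _))
    (fun n => atom_norm hA (hf n) (hfi n)) h2

/-- The class of sets on which the sequence tends to zero in norm. -/
def nullClass (μ : Measure Ω) (f : ℕ → Ω → 𝕜) : Set (Set Ω) :=
  {B | MeasurableSet B ∧ Tendsto (fun n => ∫ x in B, ‖f n x‖ ∂μ) atTop (𝓝 0)}

lemma int_union_le {g : Ω → 𝕜} (hg : Integrable g μ) {B B' : Set Ω} (hB : MeasurableSet B)
    (hB' : MeasurableSet B') :
    ∫ x in B ∪ B', ‖g x‖ ∂μ ≤ ∫ x in B, ‖g x‖ ∂μ + ∫ x in B', ‖g x‖ ∂μ := by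
  have h1 : B ∪ B' = B ∪ (B' \ B) := by rw [Set.union_sdiff_self]
  rw [h1, setIntegral_union Set.disjoint_sdiff_right (hB'.diff hB) hg.norm.integrableOn
    hg.norm.integrableOn]
  have h2 : ∫ x in B' \ B, ‖g x‖ ∂μ ≤ ∫ x in B', ‖g x‖ ∂μ :=
    setIntegral_mono_set hg.norm.integrableOn (Eventually.of_forall (fun x => norm_nonneg _))
      (LE.le.eventuallyLE Set.sdiff_subset)
  linarith

lemma nullClass_union {f : ℕ → Ω → 𝕜} (hfi : ∀ n, Integrable (f n) μ) :
    ∀ B ∈ nullClass μ f, ∀ B' ∈ nullClass μ f, B ∪ B' ∈ nullClass μ f := by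
  rintro B ⟨hB, hB2⟩ B' ⟨hB', hB2'⟩
  refine ⟨hB.union hB', ?_⟩
  have h := hB2.add hB2'
  rw [add_zero] at h
  exact squeeze_zero (fun n => integral_nonneg (fun x => norm_nonneg _))
    (fun n => int_union_le (hfi n) hB hB') h

lemma approx_null {f : ℕ → Ω → 𝕜} (hf : ∀ n, Measurable (f n)) (hfi : ∀ n, Integrable (f n) μ)
    {C : ℝ} (hP : UpperTwo μ f C) {E : Set Ω} (hE : MeasurableSet E)
    (hat : ∀ H ⊆ E, MeasurableSet H → 0 < μ H → ∀ n, (∀ x ∈ H, f n x ≠ 0) →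
      ∃ a ⊆ H, IsAtomOf μ a)
    {g : Ω → 𝕜} (hg : Measurable g) (hgi : Integrable g μ) (hgf : ∀ x, g x ≠ 0 → ∃ n, f n x ≠ 0)
    {ε : ℝ} (hε : 0 < ε) :
    ∃ B ∈ nullClass μ f, ∫ x in E \ B, ‖g x‖ ∂μ < ε := by
  have hfin : IsFiniteMeasure (μ.withDensity (fun x => ‖g x‖ₑ)) :=
    isFiniteMeasure_withDensity hgi.2.ne
  have hm : ∀ B ∈ nullClass μ f, MeasurableSet B := fun B hB => hB.1
  obtain ⟨B, hB, hB'⟩ := exhaust ((μ.withDensity (fun x => ‖g x‖ₑ)).restrict E) (nullClass μ f)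
    ⟨MeasurableSet.empty, by simp⟩ (nullClass_union hfi) hm (by
      intro V hV hpos
      rw [Measure.restrict_apply hV, withDensity_apply _ (hV.inter hE),
        setLIntegral_pos_iff hg.enorm] at hpos
      have hH : MeasurableSet (Function.support (fun x => ‖g x‖ₑ) ∩ (V ∩ E)) :=
        (measurableSet_support hg.enorm).inter (hV.inter hE)
      have hex : ∃ n, 0 < μ ((Function.support (fun x => ‖g x‖ₑ) ∩ (V ∩ E)) ∩ {x | f n x ≠ 0}) := by
        by_contra hcon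
        push Not at hcon
        have h1 : μ (⋃ n, (Function.support (fun x => ‖g x‖ₑ) ∩ (V ∩ E)) ∩ {x | f n x ≠ 0}) = 0 :=
          measure_iUnion_null (fun n => nonpos_iff_eq_zero.1 (hcon n))
        have h2 : Function.support (fun x => ‖g x‖ₑ) ∩ (V ∩ E) ⊆
            ⋃ n, (Function.support (fun x => ‖g x‖ₑ) ∩ (V ∩ E)) ∩ {x | f n x ≠ 0} := by
          intro x hx
          have hgx : g x ≠ 0 := by
            intro h0
            have := hx.1
            simp [Function.mem_support, h0] at this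
          obtain ⟨n, hn⟩ := hgf x hgx
          exact Set.mem_iUnion.2 ⟨n, hx, hn⟩
        exact hpos.ne' (measure_mono_null h2 h1)
      obtain ⟨n, hn⟩ := hex
      obtain ⟨a, ha, haa⟩ := hat _ (by
          intro x hx
          exact hx.1.2.2) (hH.inter ((hf n) (measurableSet_singleton (0 : 𝕜)).compl)) hn n
        (fun x hx => hx.2)
      refine ⟨a, ⟨haa.1, atom_tendsto hf hfi hP haa⟩, ?_⟩
      rw [Measure.restrict_apply (haa.1.inter hV), withDensity_apply _ ((haa.1.inter hV).inter hE),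
        setLIntegral_pos_iff hg.enorm]
      refine lt_of_lt_of_le haa.2.1 (measure_mono ?_)
      intro x hx
      have hx' := ha hx
      exact ⟨hx'.1.1, ⟨hx, hx'.1.2.1⟩, hx'.1.2.2⟩) hε
  refine ⟨B, hB, ?_⟩
  rw [measureReal_def, Measure.restrict_apply (hm B hB).compl,
    withDensity_apply _ ((hm B hB).compl.inter hE),
    ← integral_norm_eq_lintegral_enorm hgi.aestronglyMeasurable.restrict] at hB'
  have h3 : E \ B = Bᶜ ∩ E := by rw [Set.sdiff_eq, Set.inter_comm]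
  rw [h3]
  exact hB'

/-- A Schur type theorem. -/
theorem schur {f : ℕ → Ω → 𝕜} (hf : ∀ n, Measurable (f n)) (hfi : ∀ n, Integrable (f n) μ)
    {C : ℝ} (hP : UpperTwo μ f C) {E : Set Ω} (hE : MeasurableSet E)
    (hat : ∀ H ⊆ E, MeasurableSet H → 0 < μ H → ∀ n, (∀ x ∈ H, f n x ≠ 0) →
      ∃ a ⊆ H, IsAtomOf μ a) {η : ℝ} (hη : 0 < η) :
    ∃ n, ∫ x in E, ‖f n x‖ ∂μ ≤ η := by
  by_contra hcon
  push Not at hcon
  have hclaim : ∀ K : ℕ, ∃ S : Finset ℕ, S.card = K ∧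
      K * (η / 2) ≤ ∫ x in E, ‖∑ n ∈ S, f n x‖ ∂μ := by
    intro K
    induction K with
    | zero => exact ⟨∅, rfl, by simp⟩
    | succ K ih =>
      obtain ⟨S, hSK, hS⟩ := ih
      have hgi : Integrable (fun x => ∑ n ∈ S, f n x) μ := integrable_finsetSum _ (fun n _ => hfi n)
      have hgm : Measurable (fun x => ∑ n ∈ S, f n x) := Finset.measurable_sum S (fun n _ => hf n)
      obtain ⟨B, hB, hB'⟩ := approx_null hf hfi hP hE hat hgm hgi (by
        intro x hx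
        by_contra h0
        push Not at h0
        exact hx (Finset.sum_eq_zero (fun n _ => h0 n))) (ε := η / 8) (by positivity)
      have hev : ∀ᶠ n in atTop, ∫ x in B, ‖f n x‖ ∂μ < η / 8 :=
        hB.2.eventually (gt_mem_nhds (by positivity))
      obtain ⟨n, hn1, hn2⟩ := (hev.and (eventually_gt_atTop (S.sup id))).exists
      have hnS : n ∉ S := fun h => absurd (Finset.le_sup (f := id) h) (not_le.2 hn2)
      refine ⟨insert n S, by rw [Finset.card_insert_of_notMem hnS, hSK], ?_⟩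
      have hBm : MeasurableSet B := hB.1
      -- splitting integrals over `E`
      have hsplit : ∀ h : Ω → 𝕜, Integrable h μ → ∫ x in E, ‖h x‖ ∂μ
          = ∫ x in E ∩ B, ‖h x‖ ∂μ + ∫ x in E \ B, ‖h x‖ ∂μ := by
        intro h hh
        rw [← setIntegral_union (Set.disjoint_sdiff_inter.symm) (hE.diff hBm) hh.norm.integrableOn
          hh.norm.integrableOn, Set.inter_union_sdiff]
      set g : Ω → 𝕜 := fun x => ∑ n ∈ S, f n x with hg
      have hsum : ∀ x, ∑ k ∈ insert n S, f k x = f n x + g x := fun x => Finset.sum_insert hnS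
      simp_rw [hsum]
      have hfg : Integrable (fun x => f n x + g x) μ := (hfi n).add hgi
      have i1 := hsplit _ hfg
      have i2 := hsplit _ hgi
      have i3 := hsplit _ (hfi n)
      have i4 : ∫ x in E ∩ B, ‖f n x‖ ∂μ ≤ ∫ x in B, ‖f n x‖ ∂μ :=
        setIntegral_mono_set (hfi n).norm.integrableOn (Eventually.of_forall (fun x => norm_nonneg _))
          (LE.le.eventuallyLE Set.inter_subset_right)
      have i5 : ∫ x in E ∩ B, ‖g x‖ ∂μ - ∫ x in E ∩ B, ‖f n x‖ ∂μ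
          ≤ ∫ x in E ∩ B, ‖f n x + g x‖ ∂μ := by
        rw [← integral_sub hgi.norm.restrict (hfi n).norm.restrict]
        refine integral_mono (hgi.norm.restrict.sub (hfi n).norm.restrict) hfg.norm.restrict
          (fun x => ?_)
        have := norm_sub_norm_le (g x) (-(f n x))
        rw [norm_neg, sub_neg_eq_add, add_comm (g x)] at this
        exact this
      have i6 : ∫ x in E \ B, ‖f n x‖ ∂μ - ∫ x in E \ B, ‖g x‖ ∂μ
          ≤ ∫ x in E \ B, ‖f n x + g x‖ ∂μ := by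
        rw [← integral_sub (hfi n).norm.restrict hgi.norm.restrict]
        refine integral_mono ((hfi n).norm.restrict.sub hgi.norm.restrict) hfg.norm.restrict
          (fun x => ?_)
        have := norm_sub_norm_le (f n x) (-(g x))
        rw [norm_neg, sub_neg_eq_add] at this
        exact this
      have i7 := hcon n
      have i8 : ∫ x in E ∩ B, ‖f n x‖ ∂μ < η / 8 := i4.trans_lt hn1
      push_cast
      linarith
  refine not_forall_mul_le (C := C) (half_pos hη) (fun K => ?_)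
  obtain ⟨S, hSK, hS⟩ := hclaim K
  have h1 := hP S (fun _ => 1) (fun _ => by simp)
  simp only [one_mul] at h1
  rw [hSK] at h1
  have hgi : Integrable (fun x => ∑ n ∈ S, f n x) μ := integrable_finsetSum _ (fun n _ => hfi n)
  have h2 : ∫ x in E, ‖∑ n ∈ S, f n x‖ ∂μ ≤ ∫ x, ‖∑ n ∈ S, f n x‖ ∂μ :=
    setIntegral_le_integral hgi.norm (Eventually.of_forall (fun x => norm_nonneg _))
  linarith

end Hump

section Approx

variable {Ω : Type*} [MeasurableSpace Ω] {μ : Measure Ω} {𝕜 : Type*} [RCLike 𝕜]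

theorem approx {f : ℕ → Ω → 𝕜} (hf : ∀ n, Measurable (f n)) (hfi : ∀ n, Integrable (f n) μ)
    {C : ℝ} (hP : UpperTwo μ f C) (𝒜 : Set (Set Ω)) (hAm : ∀ A ∈ 𝒜, MeasurableSet A)
    (hcov : ∀ E, MeasurableSet E → 0 < μ E → μ E ≠ ∞ → (∀ A ∈ 𝒜, μ (E ∩ A) = 0) →
      ∃ a ⊆ E, IsAtomOf μ a) {η : ℝ} (hη : 0 < η) :
    ∃ (n : ℕ) (F : Finset 𝒜) (M : ℕ) (B : Set Ω), MeasurableSet B ∧
      B ⊆ (⋃ A ∈ F, (A : Set Ω)) ∧ (∀ x ∈ B, ‖f n x‖ ≤ M) ∧ ∫ x in Bᶜ, ‖f n x‖ ∂μ ≤ η := by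
  classical
  have hfin : ∀ n, IsFiniteMeasure (μ.withDensity (fun x => ‖f n x‖ₑ)) := fun n =>
    isFiniteMeasure_withDensity (hfi n).2.ne
  have hUm : ∀ F : Finset 𝒜, MeasurableSet (⋃ A ∈ F, (A : Set Ω)) := fun F =>
    Finset.measurableSet_biUnion F (fun A _ => hAm A A.2)
  have hcore := fun n => exhaust_core (μ.withDensity (fun x => ‖f n x‖ₑ))
    (Set.range (fun F : Finset 𝒜 => ⋃ A ∈ F, (A : Set Ω))) ⟨∅, by simp⟩ (by
      rintro _ ⟨F, rfl⟩ _ ⟨F', rfl⟩
      refine ⟨F ∪ F', ?_⟩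
      simp only
      rw [Finset.set_biUnion_union]) (by
      rintro _ ⟨F, rfl⟩
      exact hUm F)
  choose Bn hBn hBn' using hcore
  have hBm : ∀ n k, MeasurableSet (Bn n k) := by
    intro n k
    obtain ⟨F, hF⟩ := hBn n k
    rw [← hF]
    exact hUm F
  set J : Set Ω := ⋃ n, ⋃ k, Bn n k with hJ
  have hJm : MeasurableSet J := MeasurableSet.iUnion (fun n => MeasurableSet.iUnion (fun k => hBm n k))
  have hat : ∀ H ⊆ Jᶜ, MeasurableSet H → 0 < μ H → ∀ n, (∀ x ∈ H, f n x ≠ 0) →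
      ∃ a ⊆ H, IsAtomOf μ a := by
    intro H₀ hH₀ hH₀m hH₀0 n hH₀f
    -- a subset of finite measure
    have hex : ∃ k : ℕ, 0 < μ (H₀ ∩ {x | 1 / ((k : ℝ) + 1) ≤ ‖f n x‖}) := by
      by_contra hcon
      push Not at hcon
      have h1 : μ (⋃ k : ℕ, H₀ ∩ {x | 1 / ((k : ℝ) + 1) ≤ ‖f n x‖}) = 0 :=
        measure_iUnion_null (fun k => nonpos_iff_eq_zero.1 (hcon k))
      refine hH₀0.ne' (measure_mono_null ?_ h1)
      intro x hx
      obtain ⟨k, hk⟩ := exists_nat_one_div_lt (norm_pos_iff.2 (hH₀f x hx))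
      exact Set.mem_iUnion.2 ⟨k, hx, hk.le⟩
    obtain ⟨k, hk⟩ := hex
    have hk0 : (0 : ℝ) < 1 / ((k : ℝ) + 1) := by positivity
    set H : Set Ω := H₀ ∩ {x | 1 / ((k : ℝ) + 1) ≤ ‖f n x‖} with hHdef
    have hHm : MeasurableSet H := hH₀m.inter (measurableSet_le measurable_const (hf n).norm)
    have hHt : μ H ≠ ∞ :=
      measure_ne_top_of_subset Set.inter_subset_right ((hfi n).measure_norm_ge_lt_top hk0).ne
    have hH : H ⊆ Jᶜ := Set.inter_subset_left.trans hH₀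
    have hHf : ∀ x ∈ H, f n x ≠ 0 := fun x hx => hH₀f x hx.1
    suffices h : ∃ a ⊆ H, IsAtomOf μ a by
      obtain ⟨a, ha, ha'⟩ := h
      exact ⟨a, ha.trans Set.inter_subset_left, ha'⟩
    refine hcov H hHm hk hHt (fun A hA => ?_)
    by_contra hne
    have h1 : 0 < μ (H ∩ A) := pos_iff_ne_zero.2 hne
    have h2 : (μ.withDensity (fun x => ‖f n x‖ₑ)) (A \ ⋃ k, Bn n k) = 0 :=
      hBn' n A ⟨{⟨A, hA⟩}, by simp⟩
    have h3 : (μ.withDensity (fun x => ‖f n x‖ₑ)) (H ∩ A) = 0 := by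
      refine measure_mono_null ?_ h2
      intro x hx
      refine ⟨hx.2, fun h => hH hx.1 ?_⟩
      exact Set.mem_iUnion.2 ⟨n, h⟩
    rw [withDensity_apply _ (hHm.inter (hAm A hA))] at h3
    have h4 : 0 < ∫⁻ x in H ∩ A, ‖f n x‖ₑ ∂μ := by
      rw [setLIntegral_pos_iff (hf n).enorm]
      refine lt_of_lt_of_le h1 (measure_mono ?_)
      intro x hx
      refine ⟨?_, hx⟩
      simp only [Function.mem_support, ne_eq, enorm_eq_zero]
      exact hHf x hx.1
    exact h4.ne' h3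
  obtain ⟨n, hn⟩ := schur hf hfi hP hJm.compl hat (half_pos hη)
  have hfinn := hfin n
  obtain ⟨B, ⟨hB, F, M, hBF, hBM⟩, hB'⟩ := exhaust
    ((μ.withDensity (fun x => ‖f n x‖ₑ)).restrict J)
    {B | MeasurableSet B ∧ ∃ (F : Finset 𝒜) (M : ℕ), B ⊆ (⋃ A ∈ F, (A : Set Ω)) ∧
      ∀ x ∈ B, ‖f n x‖ ≤ M} ⟨MeasurableSet.empty, ∅, 0, by simp, by simp⟩ (by
      rintro B ⟨hB, F, M, hBF, hBM⟩ B' ⟨hB', F', M', hBF', hBM'⟩
      refine ⟨hB.union hB', F ∪ F', max M M', ?_, ?_⟩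
      · rw [Finset.set_biUnion_union]
        exact Set.union_subset_union hBF hBF'
      · rintro x (hx | hx)
        · exact (hBM x hx).trans (by exact_mod_cast le_max_left M M')
        · exact (hBM' x hx).trans (by exact_mod_cast le_max_right M M')) (fun B hB => hB.1) (by
      intro V hV hpos
      rw [Measure.restrict_apply hV] at hpos
      have hex : ∃ m k, ∃ M : ℕ, 0 < (μ.withDensity (fun x => ‖f n x‖ₑ))
          ((Bn m k ∩ {x | ‖f n x‖ ≤ M}) ∩ V ∩ J) := by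
        by_contra hcon
        push Not at hcon
        have h1 : (μ.withDensity (fun x => ‖f n x‖ₑ))
            (⋃ m, ⋃ k, ⋃ M : ℕ, ((Bn m k ∩ {x | ‖f n x‖ ≤ M}) ∩ V ∩ J)) = 0 :=
          measure_iUnion_null (fun m => measure_iUnion_null (fun k => measure_iUnion_null
            (fun M => nonpos_iff_eq_zero.1 (hcon m k M))))
        refine hpos.ne' (measure_mono_null ?_ h1)
        intro x hx
        obtain ⟨m, hm⟩ := Set.mem_iUnion.1 hx.2
        obtain ⟨k, hk⟩ := Set.mem_iUnion.1 hm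
        obtain ⟨M, hM⟩ := exists_nat_ge ‖f n x‖
        exact Set.mem_iUnion.2 ⟨m, Set.mem_iUnion.2 ⟨k, Set.mem_iUnion.2 ⟨M, ⟨⟨hk, hM⟩, hx.1⟩, hx.2⟩⟩⟩
      obtain ⟨m, k, M, hM⟩ := hex
      have hmeas : MeasurableSet (Bn m k ∩ {x | ‖f n x‖ ≤ M}) :=
        (hBm m k).inter (measurableSet_le (hf n).norm measurable_const)
      refine ⟨Bn m k ∩ {x | ‖f n x‖ ≤ M}, ⟨hmeas, ?_⟩, ?_⟩
      · obtain ⟨F, hF⟩ := hBn m k
        refine ⟨F, M, ?_, fun x hx => hx.2⟩
        simp only at hF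
        rw [hF]
        exact Set.inter_subset_left
      · rw [Measure.restrict_apply (hmeas.inter hV)]
        exact hM) (half_pos hη)
  refine ⟨n, F, M, B, hB, hBF, hBM, ?_⟩
  rw [measureReal_def, Measure.restrict_apply hB.compl, withDensity_apply _ (hB.compl.inter hJm),
    ← integral_norm_eq_lintegral_enorm (hfi n).aestronglyMeasurable.restrict] at hB'
  have h5 : ∫ x in Bᶜ, ‖f n x‖ ∂μ ≤ ∫ x in (Bᶜ ∩ J) ∪ Jᶜ, ‖f n x‖ ∂μ := by
    refine setIntegral_mono_set (hfi n).norm.integrableOn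
      (Eventually.of_forall (fun x => norm_nonneg _)) (LE.le.eventuallyLE ?_)
    intro x hx
    by_cases hxJ : x ∈ J
    · exact Or.inl ⟨hx, hxJ⟩
    · exact Or.inr hxJ
  have h6 := int_union_le (hfi n) (hB.compl.inter hJm) hJm.compl
  linarith

end Approx

end DualL1
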