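import Pool.Agent.Helper2.DualL1.Scheme
import Pool.Agent.Helper2.DualL1.Schur

/-! Function level access to `L¹`. -/

namespace DualL1

open Filter Topology MeasureTheory
open scoped ENNReal Classical

variable {Ω : Type*} [MeasurableSpace Ω] {μ : Measure Ω} {𝕜 : Type*} [RCLike 𝕜]

variable (μ) in
/-- The class of a function in `L¹`. -/
noncomputable def tl (f : Ω → 𝕜) : Lp 𝕜 1 μ :=
  if h : Integrable f μ then h.toL1 f else 0

lemma tl_of {f : Ω → 𝕜} (hf : Integrable f μ) : tl μ f = hf.toL1 f := dif_pos hf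

lemma coeFn_tl {f : Ω → 𝕜} (hf : Integrable f μ) : (tl μ f : Ω → 𝕜) =ᵐ[μ] f := by
  rw [tl_of hf]; exact hf.coeFn_toL1

lemma tl_congr {f g : Ω → 𝕜} (h : f =ᵐ[μ] g) : tl μ f = tl μ g := by
  by_cases hf : Integrable f μ
  · have hg : Integrable g μ := hf.congr h
    rw [tl_of hf, tl_of hg, Integrable.toL1_eq_toL1_iff]
    exact h
  · have hg : ¬ Integrable g μ := fun hg => hf (hg.congr h.symm)
    rw [tl, tl, dif_neg hf, dif_neg hg]

lemma tl_coeFn (f : Lp 𝕜 1 μ) : tl μ (f : Ω → 𝕜) = f := by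
  rw [tl_of (L1.integrable_coeFn f)]
  exact Integrable.toL1_coeFn f _

lemma tl_add {f g : Ω → 𝕜} (hf : Integrable f μ) (hg : Integrable g μ) :
    tl μ (f + g) = tl μ f + tl μ g := by
  rw [tl_of hf, tl_of hg, tl_of (hf.add hg), Integrable.toL1_add]

lemma tl_add' {f g : Ω → 𝕜} (hf : Integrable f μ) (hg : Integrable g μ) :
    tl μ (fun x => f x + g x) = tl μ f + tl μ g := tl_add hf hg

lemma tl_sub {f g : Ω → 𝕜} (hf : Integrable f μ) (hg : Integrable g μ) :
    tl μ (f - g) = tl μ f - tl μ g := by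
  rw [tl_of hf, tl_of hg, tl_of (hf.sub hg), Integrable.toL1_sub]

lemma tl_smul {f : Ω → 𝕜} (c : 𝕜) (hf : Integrable f μ) :
    tl μ (fun x => c * f x) = c • tl μ f := by
  have h : Integrable (c • f) μ := hf.smul c
  rw [tl_of hf, show (fun x => c * f x) = c • f from rfl, tl_of h]
  exact Integrable.toL1_smul' f hf c

lemma norm_tl {f : Ω → 𝕜} (hf : Integrable f μ) : ‖tl μ f‖ = ∫ x, ‖f x‖ ∂μ := by
  rw [L1.norm_eq_integral_norm]
  exact integral_congr_ae ((coeFn_tl hf).mono (fun x hx => by simp only [hx]))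

lemma ind_eq_tl {B : Set Ω} (hB : MeasurableSet B) (hμB : μ B ≠ ∞) :
    ind μ 𝕜 B = tl μ (B.indicator (fun _ => (1 : 𝕜))) := by
  rw [ind_of 𝕜 hB hμB, tl_of ((integrable_indicator_iff hB).2 (integrableOn_const hμB))]
  rfl

/-- A closed subspace of `L¹` containing all indicators is everything. -/
lemma eq_top_of_ind (M : Submodule 𝕜 (Lp 𝕜 1 μ)) (hM : IsClosed (M : Set (Lp 𝕜 1 μ)))
    (h : ∀ B, MeasurableSet B → μ B ≠ ∞ → ind μ 𝕜 B ∈ M) : M = ⊤ := by
  rw [eq_top_iff]
  intro f _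
  refine Lp.induction ENNReal.one_ne_top (motive := fun f => f ∈ M) ?_ ?_ ?_ f
  · intro c s hs hμs
    have h1 := M.smul_mem c (h s hs hμs.ne)
    have h2 : ((Lp.simpleFunc.indicatorConst 1 hs hμs.ne c : Lp.simpleFunc 𝕜 1 μ) : Lp 𝕜 1 μ)
        = c • ind μ 𝕜 s := by
      rw [Lp.simpleFunc.coe_indicatorConst, ind_of 𝕜 hs hμs.ne]
      ext1
      filter_upwards [indicatorConstLp_coeFn (p := 1) (hs := hs) (hμs := hμs.ne) (c := c),
        Lp.coeFn_smul c (indicatorConstLp 1 hs hμs.ne (1 : 𝕜)),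
        indicatorConstLp_coeFn (p := 1) (hs := hs) (hμs := hμs.ne) (c := (1 : 𝕜))] with x h1 h2 h3
      rw [h1, h2, Pi.smul_apply, h3]
      by_cases hx : x ∈ s
      · simp [hx]
      · simp [hx]
    rw [h2]
    exact h1
  · intro f g hf hg _ hf' hg'
    exact M.add_mem hf' hg'
  · exact hM

section Ext

variable {A : Set Ω}

lemma integrable_ind_of_restrict (hA : MeasurableSet A) {f : Ω → 𝕜}
    (hf : Integrable f (μ.restrict A)) : Integrable (A.indicator f) μ :=
  (integrable_indicator_iff hA).2 hf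

variable (μ 𝕜) in
/-- Extension by zero. -/
noncomputable def extL (hA : MeasurableSet A) : Lp 𝕜 1 (μ.restrict A) →ₗᵢ[𝕜] Lp 𝕜 1 μ where
  toFun f := tl μ (A.indicator f)
  map_add' f g := by
    rw [← tl_add (integrable_ind_of_restrict hA (L1.integrable_coeFn f))
      (integrable_ind_of_restrict hA (L1.integrable_coeFn g))]
    refine tl_congr ?_
    have h := (ae_restrict_iff' hA).1 (Lp.coeFn_add f g)
    filter_upwards [h] with x hx
    by_cases hxA : x ∈ A
    · simp only [Set.indicator_of_mem hxA, Pi.add_apply]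
      exact hx hxA
    · simp [hxA]
  map_smul' c f := by
    rw [RingHom.id_apply, ← tl_smul c (integrable_ind_of_restrict hA (L1.integrable_coeFn f))]
    refine tl_congr ?_
    have h := (ae_restrict_iff' hA).1 (Lp.coeFn_smul c f)
    filter_upwards [h] with x hx
    by_cases hxA : x ∈ A
    · simp [hxA, hx hxA]
    · simp [hxA]
  norm_map' f := by
    show ‖tl μ (A.indicator f)‖ = ‖f‖
    rw [norm_tl (integrable_ind_of_restrict hA (L1.integrable_coeFn f)),
      L1.norm_eq_integral_norm, ← integral_indicator hA]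
    refine integral_congr_ae (Eventually.of_forall (fun x => ?_))
    simp only
    rw [norm_indicator_eq_indicator_norm]

lemma extL_apply (hA : MeasurableSet A) (f : Lp 𝕜 1 (μ.restrict A)) :
    extL μ 𝕜 hA f = tl μ (A.indicator f) := rfl

lemma extL_tl (hA : MeasurableSet A) {f : Ω → 𝕜} (hf : Integrable f μ) :
    extL μ 𝕜 hA (tl (μ.restrict A) f) = tl μ (A.indicator f) := by
  rw [extL_apply]
  refine tl_congr ?_
  have h := (ae_restrict_iff' hA).1 (coeFn_tl (hf.restrict (s := A)))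
  filter_upwards [h] with x hx
  by_cases hxA : x ∈ A
  · simp [hxA, hx hxA]
  · simp [hxA]

lemma extL_zero_off (hA : MeasurableSet A) (f : Lp 𝕜 1 (μ.restrict A)) :
    ∀ᵐ x ∂μ, x ∉ A → (extL μ 𝕜 hA f : Ω → 𝕜) x = 0 := by
  rw [extL_apply]
  filter_upwards [coeFn_tl (integrable_ind_of_restrict hA (L1.integrable_coeFn f))] with x hx hxA
  rw [hx, Set.indicator_of_notMem hxA]

end Ext

section Disjoint

lemma norm_add_of_disjoint {f g : Lp 𝕜 1 μ} (h : ∀ᵐ x ∂μ, (f : Ω → 𝕜) x = 0 ∨ (g : Ω → 𝕜) x = 0) :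
    ‖f + g‖ = ‖f‖ + ‖g‖ := by
  rw [L1.norm_eq_integral_norm, L1.norm_eq_integral_norm, L1.norm_eq_integral_norm,
    ← integral_add (L1.integrable_coeFn f).norm (L1.integrable_coeFn g).norm]
  refine integral_congr_ae ?_
  filter_upwards [h, Lp.coeFn_add f g] with x hx hx2
  rw [hx2, Pi.add_apply]
  rcases hx with hx | hx
  · rw [hx]; simp
  · rw [hx]; simp

lemma norm_sum_of_disjoint {ι : Type*} (s : Finset ι) (f : ι → Lp 𝕜 1 μ)
    (h : ∀ a ∈ s, ∀ b ∈ s, a ≠ b → ∀ᵐ x ∂μ, (f a : Ω → 𝕜) x = 0 ∨ (f b : Ω → 𝕜) x = 0) :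
    ‖∑ a ∈ s, f a‖ = ∑ a ∈ s, ‖f a‖ := by
  induction s using Finset.induction_on with
  | empty => simp
  | @insert a s ha ih =>
    rw [Finset.sum_insert ha, Finset.sum_insert ha, norm_add_of_disjoint, ih]
    · intro b hb c hc hbc
      exact h b (Finset.mem_insert_of_mem hb) c (Finset.mem_insert_of_mem hc) hbc
    · have h1 : ∀ᵐ x ∂μ, ∀ b ∈ s, (f a : Ω → 𝕜) x = 0 ∨ (f b : Ω → 𝕜) x = 0 := by
        rw [Filter.eventually_all_finset]
        intro b hb
        exact h a (Finset.mem_insert_self a s) b (Finset.mem_insert_of_mem hb)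
          (fun hab => ha (hab ▸ hb))
      filter_upwards [h1, Lp.coeFn_finsetSum s f] with x hx hx2
      by_cases hxa : (f a : Ω → 𝕜) x = 0
      · exact Or.inl hxa
      · right
        rw [hx2, Finset.sum_apply]
        exact Finset.sum_eq_zero (fun b hb => (hx b hb).resolve_left hxa)

end Disjoint

end DualL1
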