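import Pool.Agent.Helper2.DualL1.Scheme
import Pool.Agent.Helper2.DualL1.Average
import Pool.Agent.Helper2.DualL1.Schur

/-! Fewer than continuum many pieces force pure atomicity. -/

namespace DualL1

open Filter Topology MeasureTheory Cardinal
open scoped ENNReal

universe u v w

variable {Ω : Type u} [MeasurableSpace Ω] {μ : Measure Ω} {𝕜 : Type v} [RCLike 𝕜]
variable {Y : Type w} [NormedAddCommGroup Y] [NormedSpace 𝕜 Y]

/-- averaging a bounded family over signs -/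
lemma sum_sign_integral_le {J : Type*} [Fintype J] [DecidableEq J] (h : J → Ω → 𝕜)
    (hi : ∀ α, Integrable (h α) μ) {V : Set Ω} (hV : MeasurableSet V) (hμV : μ V ≠ ∞) {M : ℝ}
    (hM0 : 0 ≤ M) (hM : ∀ α, ∀ x, ‖h α x‖ ≤ M) (h0 : ∀ α, ∀ x ∉ V, h α x = 0) :
    ∑ ε : J → Bool, ∫ x, ‖∑ α, ((sg (ε α) : ℝ) : 𝕜) * h α x‖ ∂μ
      ≤ 2 ^ (Fintype.card J) * (M * Real.sqrt (Fintype.card J) * μ.real V) := by
  have hint : ∀ ε : J → Bool, Integrable (fun x => ‖∑ α, ((sg (ε α) : ℝ) : 𝕜) * h α x‖) μ :=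
    fun ε => (integrable_finsetSum _ (fun α _ => (hi α).const_mul _)).norm
  rw [← integral_finsetSum _ (fun ε _ => hint ε)]
  have hpt : ∀ x, ∑ ε : J → Bool, ‖∑ α, ((sg (ε α) : ℝ) : 𝕜) * h α x‖
      ≤ V.indicator (fun _ => 2 ^ (Fintype.card J) * (M * Real.sqrt (Fintype.card J))) x := by
    intro x
    by_cases hx : x ∈ V
    · rw [Set.indicator_of_mem hx]
      refine (sum_norm_sign_le (fun α => h α x)).trans ?_
      refine mul_le_mul_of_nonneg_left ?_ (by positivity)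
      have h1 : ∑ α, ‖h α x‖ ^ 2 ≤ M ^ 2 * (Fintype.card J) := by
        calc ∑ α, ‖h α x‖ ^ 2 ≤ ∑ α : J, M ^ 2 :=
              Finset.sum_le_sum (fun α _ => pow_le_pow_left₀ (norm_nonneg _) (hM α x) 2)
          _ = M ^ 2 * (Fintype.card J) := by simp [mul_comm]
      calc Real.sqrt (∑ α, ‖h α x‖ ^ 2) ≤ Real.sqrt (M ^ 2 * (Fintype.card J)) :=
            Real.sqrt_le_sqrt h1
        _ = M * Real.sqrt (Fintype.card J) := by
          rw [Real.sqrt_mul (by positivity), Real.sqrt_sq hM0]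
    · rw [Set.indicator_of_notMem hx]
      refine le_of_eq (Finset.sum_eq_zero (fun ε _ => ?_))
      rw [norm_eq_zero]
      refine Finset.sum_eq_zero (fun α _ => ?_)
      rw [h0 α x hx, mul_zero]
  calc ∫ x, ∑ ε : J → Bool, ‖∑ α, ((sg (ε α) : ℝ) : 𝕜) * h α x‖ ∂μ
      ≤ ∫ x, V.indicator (fun _ => 2 ^ (Fintype.card J) * (M * Real.sqrt (Fintype.card J))) x ∂μ := by
        refine integral_mono (integrable_finsetSum _ (fun ε _ => hint ε)) ?_ hpt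
        exact (integrable_indicator_iff hV).2 (integrableOn_const hμV)
    _ = _ := by
        rw [integral_indicator_const _ hV, smul_eq_mul]
        ring

omit [MeasurableSpace Ω] in
lemma card_lt (𝒜 : Set (Set Ω)) (hcard : #𝒜 < 𝔠) : #(ℕ × Finset 𝒜 × ℕ) < 𝔠 := by
  have h1 : #(Finset 𝒜) < 𝔠 := by
    rcases finite_or_infinite 𝒜 with h | h
    · exact (Cardinal.lt_aleph0_of_finite _).trans Cardinal.aleph0_lt_continuum
    · rw [Cardinal.mk_finset_of_infinite]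
      exact hcard
  rw [Cardinal.mk_prod, Cardinal.mk_prod]
  simp only [Cardinal.mk_nat, Cardinal.lift_aleph0, Cardinal.lift_uzero]
  refine Cardinal.mul_lt_of_lt Cardinal.aleph0_le_continuum Cardinal.aleph0_lt_continuum ?_
  have := Cardinal.mul_lt_of_lt Cardinal.aleph0_le_continuum h1 Cardinal.aleph0_lt_continuum
  simpa using this

theorem atomic_of_equiv (e : Lp 𝕜 1 μ ≃L[𝕜] (Y →L[𝕜] 𝕜)) (𝒜 : Set (Set Ω))
    (hcard : #𝒜 < 𝔠) (hAm : ∀ A ∈ 𝒜, MeasurableSet A) (hAf : ∀ A ∈ 𝒜, μ A ≠ ∞)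
    (hcov : ∀ E, MeasurableSet E → 0 < μ E → μ E ≠ ∞ → (∀ A ∈ 𝒜, μ (E ∩ A) = 0) →
      ∃ a ⊆ E, IsAtomOf μ a) :
    ∀ E, MeasurableSet E → 0 < μ E → μ E ≠ ∞ → ∃ a ⊆ E, IsAtomOf μ a := by
  classical
  by_contra hcon
  push Not at hcon
  obtain ⟨E₀, hE₀, hE₀0, hE₀t, hE₀a⟩ := hcon
  have hexA : ∃ A ∈ 𝒜, μ (E₀ ∩ A) ≠ 0 := by
    by_contra h
    push Not at h
    obtain ⟨a, ha, ha'⟩ := hcov E₀ hE₀ hE₀0 hE₀t h
    exact hE₀a a ha ha'
  obtain ⟨A₀, hA₀, hA₀'⟩ := hexA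
  set D := E₀ ∩ A₀ with hD
  have hDm : MeasurableSet D := hE₀.inter (hAm A₀ hA₀)
  have hDf : μ D ≠ ∞ := measure_ne_top_of_subset Set.inter_subset_right (hAf A₀ hA₀)
  have hD0 : 0 < μ D := pos_iff_ne_zero.2 hA₀'
  have hatom : ∀ E ⊆ D, MeasurableSet E → 0 < μ E →
      ∃ P ⊆ E, MeasurableSet P ∧ 0 < μ P ∧ 0 < μ (E \ P) := by
    intro E hE hEm hE0
    have h1 : ¬ IsAtomOf μ E := hE₀a E (hE.trans Set.inter_subset_left)
    rw [IsAtomOf] at h1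
    push Not at h1
    obtain ⟨P, hP, hPm, hP1, hP2⟩ := h1 hEm hE0
    exact ⟨P, hP, hPm, pos_iff_ne_zero.2 hP1, pos_iff_ne_zero.2 hP2⟩
  -- constants
  set L : Lp 𝕜 1 μ →L[𝕜] (Y →L[𝕜] 𝕜) := (e : Lp 𝕜 1 μ →L[𝕜] (Y →L[𝕜] 𝕜)) with hL
  set R : (Y →L[𝕜] 𝕜) →L[𝕜] Lp 𝕜 1 μ := (e.symm : (Y →L[𝕜] 𝕜) →L[𝕜] Lp 𝕜 1 μ) with hR
  have hRL : ∀ f, R (L f) = f := fun f => e.symm_apply_apply f
  have hLR : ∀ g, L (R g) = g := fun g => e.apply_symm_apply g
  set δ : ℝ := (‖R‖ + 1)⁻¹ with hδ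
  have hδ0 : 0 < δ := by positivity
  have he : ∀ f, δ * ‖f‖ ≤ ‖L f‖ := by
    intro f
    rw [hδ, inv_mul_le_iff₀ (by positivity)]
    calc ‖f‖ = ‖R (L f)‖ := by rw [hRL]
      _ ≤ ‖R‖ * ‖L f‖ := R.le_opNorm _
      _ ≤ (‖R‖ + 1) * ‖L f‖ := by
        refine mul_le_mul_of_nonneg_right (by linarith) (norm_nonneg _)
  set c : ℝ := δ / 2 with hc
  have hc0 : 0 < c := by positivity
  have hcδ : c < δ := by rw [hc]; linarith
  obtain ⟨y, hy, hyx⟩ := scheme L he hc0.le hcδ hDm hDf hD0 hatom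
  have hgood : ∀ (N : ℕ) (σ : ℕ → Bool), ∃ g : Y →L[𝕜] 𝕜, ‖g‖ ≤ ‖L‖ ∧
      ∀ m < N, c ≤ sg (σ m) * RCLike.re (g (y m)) := by
    intro N σ
    obtain ⟨x, hx, hx'⟩ := hyx N σ
    refine ⟨L x, ?_, hx'⟩
    calc ‖L x‖ ≤ ‖L‖ * ‖x‖ := L.le_opNorm x
      _ ≤ ‖L‖ * 1 := mul_le_mul_of_nonneg_left hx (norm_nonneg L)
      _ = ‖L‖ := mul_one _
  obtain ⟨θ, hθ⟩ := exists_indep
  choose Φ hΦ1 hΦ2 using fun α => averages y hgood (θ α)
  -- the corresponding `L¹` functions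
  set z : (ℕ → Bool) → ℕ → Lp 𝕜 1 μ := fun α n => R (Φ α n) with hz
  have hzm : ∀ α n, Measurable (z α n : Ω → 𝕜) := fun α n => (Lp.stronglyMeasurable _).measurable
  have hzi : ∀ α n, Integrable (z α n : Ω → 𝕜) μ := fun α n => L1.integrable_coeFn _
  have hzP : ∀ α, UpperTwo μ (fun n => (z α n : Ω → 𝕜)) (‖R‖ * ‖L‖) := by
    intro α S a ha
    have h1 : ∫ x, ‖∑ n ∈ S, a n * (z α n : Ω → 𝕜) x‖ ∂μ = ‖∑ n ∈ S, a n • z α n‖ := by
      rw [L1.norm_eq_integral_norm]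
      refine integral_congr_ae ?_
      have h2 := Lp.coeFn_finsetSum S (fun n => a n • z α n)
      have h3 : ∀ᵐ x ∂μ, ∀ n, (a n • z α n : Lp 𝕜 1 μ) x = a n * (z α n : Ω → 𝕜) x := by
        rw [ae_all_iff]
        intro n
        filter_upwards [Lp.coeFn_smul (a n) (z α n)] with x hx
        rw [hx]; rfl
      filter_upwards [h2, h3] with x hx2 hx3
      rw [hx2]
      simp only [Finset.sum_apply, hx3]
    rw [h1]
    have h4 : ∑ n ∈ S, a n • z α n = R (∑ n ∈ S, a n • Φ α n) := by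
      simp only [hz, map_sum, map_smul]
    rw [h4]
    calc ‖R (∑ n ∈ S, a n • Φ α n)‖ ≤ ‖R‖ * ‖∑ n ∈ S, a n • Φ α n‖ := R.le_opNorm _
      _ ≤ ‖R‖ * (‖L‖ * Real.sqrt S.card) :=
          mul_le_mul_of_nonneg_left (hΦ1 α S a ha) (norm_nonneg R)
      _ = _ := by ring
  set η : ℝ := c / (2 * (‖L‖ + 1)) with hη
  have hη0 : 0 < η := by positivity
  choose n F M B hB hBF hBM hBη using fun α => approx (hzm α) (hzi α) (hzP α) 𝒜 hAm hcov hη0
  -- pigeonhole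
  have hinf : ∃ p : ℕ × Finset 𝒜 × ℕ, {α : ℕ → Bool | (n α, F α, M α) = p}.Infinite := by
    obtain ⟨p, hp⟩ := Cardinal.exists_infinite_fiber
      (fun α : ULift.{u} (ℕ → Bool) => (n α.down, F α.down, M α.down)) (by
        rw [Cardinal.mk_uLift]
        have h1 : #(ℕ → Bool) = 𝔠 := by simp
        rw [h1, Cardinal.lift_continuum]
        exact card_lt 𝒜 hcard)
    refine ⟨p, ?_⟩
    have h2 := Set.infinite_coe_iff.1 hp
    have h3 := Set.Infinite.image (f := ULift.down) (fun a _ b _ h => ULift.down_injective h) h2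
    refine h3.mono ?_
    rintro _ ⟨α, hα, rfl⟩
    exact hα
  obtain ⟨⟨n₀, F₀, M₀⟩, hT⟩ := hinf
  set V : Set Ω := ⋃ A ∈ F₀, (A : Set Ω) with hV
  have hVm : MeasurableSet V := Finset.measurableSet_biUnion F₀ (fun A _ => hAm A A.2)
  have hVf : μ V ≠ ∞ := by
    refine (lt_of_le_of_lt (measure_biUnion_finset_le F₀ _) ?_).ne
    exact ENNReal.sum_lt_top.2 (fun A _ => (hAf A A.2).lt_top)
  refine not_forall_mul_le (C := ‖L‖ * (M₀ * μ.real V)) (half_pos hc0) (fun K => ?_)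
  obtain ⟨s, hs, hsK⟩ := hT.exists_subset_card_eq K
  have hsn : ∀ α ∈ s, n α = n₀ ∧ F α = F₀ ∧ M α = M₀ := by
    intro α hα
    have := hs hα
    simp only [Set.mem_ofPred_eq, Prod.mk.injEq] at this
    exact this
  -- lower bound
  have hlow : ∀ ε : s → Bool, K * c ≤ ‖L‖ * ‖∑ α : s, ((sg (ε α) : ℝ) : 𝕜) • z α n₀‖ := by
    intro ε
    obtain ⟨i, hi⟩ := hθ s (fun α => if h : α ∈ s then ε ⟨α, h⟩ else false)
    have h1 : (K : ℝ) * c ≤ RCLike.re ((L (∑ α : s, ((sg (ε α) : ℝ) : 𝕜) • z α n₀))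
        (y (Nat.pair n₀ i))) := by
      rw [map_sum, _root_.sum_apply, map_sum]
      have h2 : (K : ℝ) * c = ∑ α : s, c := by simp [hsK]
      rw [h2]
      refine Finset.sum_le_sum (fun α _ => ?_)
      rw [map_smul, _root_.smul_apply, smul_eq_mul, RCLike.re_ofReal_mul]
      have h3 := hi α α.2
      simp only [α.2, dif_pos] at h3
      have h4 := hΦ2 α n₀ i
      rw [h3] at h4
      simp only [hz, hLR]
      exact h4
    calc (K : ℝ) * c ≤ _ := h1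
      _ ≤ ‖(L (∑ α : s, ((sg (ε α) : ℝ) : 𝕜) • z α n₀)) (y (Nat.pair n₀ i))‖ := RCLike.re_le_norm _
      _ ≤ ‖L (∑ α : s, ((sg (ε α) : ℝ) : 𝕜) • z α n₀)‖ * ‖y (Nat.pair n₀ i)‖ :=
          ContinuousLinearMap.le_opNorm _ _
      _ ≤ ‖L (∑ α : s, ((sg (ε α) : ℝ) : 𝕜) • z α n₀)‖ * 1 :=
          mul_le_mul_of_nonneg_left (hy _) (norm_nonneg _)
      _ = ‖L (∑ α : s, ((sg (ε α) : ℝ) : 𝕜) • z α n₀)‖ := mul_one _
      _ ≤ _ := L.le_opNorm _
  -- upper bound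
  have hup : ∀ ε : s → Bool, ‖∑ α : s, ((sg (ε α) : ℝ) : 𝕜) • z α n₀‖ ≤
      ∫ x, ‖∑ α : s, ((sg (ε α) : ℝ) : 𝕜) * (B α).indicator (z α n₀ : Ω → 𝕜) x‖ ∂μ + K * η := by
    intro ε
    have hBint : ∀ α : ℕ → Bool, Integrable ((B α).indicator (z α n₀ : Ω → 𝕜)) μ :=
      fun α => (hzi α n₀).indicator (hB α)
    have hBcint : ∀ α : ℕ → Bool, Integrable ((B α)ᶜ.indicator (z α n₀ : Ω → 𝕜)) μ :=
      fun α => (hzi α n₀).indicator (hB α).compl
    have h1 : ‖∑ α : s, ((sg (ε α) : ℝ) : 𝕜) • z α n₀‖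
        = ∫ x, ‖∑ α : s, ((sg (ε α) : ℝ) : 𝕜) * (z α n₀ : Ω → 𝕜) x‖ ∂μ := by
      rw [L1.norm_eq_integral_norm]
      refine integral_congr_ae ?_
      have h2 := Lp.coeFn_finsetSum Finset.univ
        (fun α : s => ((sg (ε α) : ℝ) : 𝕜) • z α n₀)
      have h3 : ∀ᵐ x ∂μ, ∀ α : s, (((sg (ε α) : ℝ) : 𝕜) • z α n₀ : Lp 𝕜 1 μ) x
          = ((sg (ε α) : ℝ) : 𝕜) * (z α n₀ : Ω → 𝕜) x := by
        rw [ae_all_iff]
        intro α
        filter_upwards [Lp.coeFn_smul ((sg (ε α) : ℝ) : 𝕜) (z α n₀)] with x hx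
        rw [hx]; rfl
      filter_upwards [h2, h3] with x hx2 hx3
      rw [hx2]
      simp only [Finset.sum_apply, hx3]
    have hpt : ∀ x, ‖∑ α : s, ((sg (ε α) : ℝ) : 𝕜) * (z α n₀ : Ω → 𝕜) x‖ ≤
        ‖∑ α : s, ((sg (ε α) : ℝ) : 𝕜) * (B α).indicator (z α n₀ : Ω → 𝕜) x‖
          + ∑ α : s, ‖(B α)ᶜ.indicator (z α n₀ : Ω → 𝕜) x‖ := by
      intro x
      have h4 : ∑ α : s, ((sg (ε α) : ℝ) : 𝕜) * (z α n₀ : Ω → 𝕜) x
          = ∑ α : s, ((sg (ε α) : ℝ) : 𝕜) * (B α).indicator (z α n₀ : Ω → 𝕜) x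
            + ∑ α : s, ((sg (ε α) : ℝ) : 𝕜) * (B α)ᶜ.indicator (z α n₀ : Ω → 𝕜) x := by
        rw [← Finset.sum_add_distrib]
        refine Finset.sum_congr rfl (fun α _ => ?_)
        rw [← mul_add]
        congr 1
        exact (congrFun (Set.indicator_self_add_compl (B α) (z α n₀ : Ω → 𝕜)) x).symm
      rw [h4]
      refine (norm_add_le _ _).trans (add_le_add le_rfl ?_)
      refine (norm_sum_le _ _).trans (Finset.sum_le_sum (fun α _ => ?_))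
      rw [norm_mul, RCLike.norm_ofReal, abs_sg, one_mul]
    have h5 : ∫ x, ∑ α : s, ‖(B α)ᶜ.indicator (z α n₀ : Ω → 𝕜) x‖ ∂μ ≤ K * η := by
      rw [integral_finsetSum _ (fun (α : s) _ => (hBcint α).norm)]
      have h6 : (K : ℝ) * η = ∑ α : s, η := by simp [hsK]
      rw [h6]
      refine Finset.sum_le_sum (fun α _ => ?_)
      have h7 := hBη α
      rw [(hsn α α.2).1] at h7
      refine le_trans (le_of_eq ?_) h7
      rw [← integral_indicator (hB α).compl]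
      refine integral_congr_ae (Eventually.of_forall (fun x => ?_))
      simp only
      rw [norm_indicator_eq_indicator_norm]
    rw [h1]
    have h8 : Integrable (fun x => ∑ α : s, ((sg (ε α) : ℝ) : 𝕜) *
        (B α).indicator (z α n₀ : Ω → 𝕜) x) μ :=
      integrable_finsetSum _ (fun (α : s) _ => (hBint α).const_mul _)
    have h9 : Integrable (fun x => ∑ α : s, ‖(B α)ᶜ.indicator (z α n₀ : Ω → 𝕜) x‖) μ :=
      integrable_finsetSum _ (fun (α : s) _ => (hBcint α).norm)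
    calc ∫ x, ‖∑ α : s, ((sg (ε α) : ℝ) : 𝕜) * (z α n₀ : Ω → 𝕜) x‖ ∂μ
        ≤ ∫ x, (‖∑ α : s, ((sg (ε α) : ℝ) : 𝕜) * (B α).indicator (z α n₀ : Ω → 𝕜) x‖
          + ∑ α : s, ‖(B α)ᶜ.indicator (z α n₀ : Ω → 𝕜) x‖) ∂μ := by
          refine integral_mono ?_ (h8.norm.add h9) hpt
          exact (integrable_finsetSum _ (fun (α : s) _ => (hzi α n₀).const_mul _)).norm
      _ = _ := integral_add h8.norm h9
      _ ≤ _ := add_le_add le_rfl h5
  have hkh := sum_sign_integral_le (μ := μ) (J := s)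
    (fun α => (B α).indicator (z α n₀ : Ω → 𝕜)) (fun α => (hzi α n₀).indicator (hB α)) hVm hVf
    (M := M₀) (by positivity) (by
      intro α x
      by_cases hx : x ∈ B α
      · rw [Set.indicator_of_mem hx]
        have := hBM α x hx
        rwa [(hsn α α.2).1, (hsn α α.2).2.2] at this
      · rw [Set.indicator_of_notMem hx, norm_zero]
        positivity) (by
      intro α x hx
      refine Set.indicator_of_notMem (fun h => hx ?_) _
      have := hBF α h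
      rwa [(hsn α α.2).2.1] at this)
  rw [Fintype.card_coe, hsK] at hkh
  have hcardε : (Fintype.card (s → Bool) : ℝ) = 2 ^ K := by
    rw [Fintype.card_fun, Fintype.card_bool, Fintype.card_coe, hsK]
    push_cast
    rfl
  have htot : (2 ^ K : ℝ) * (K * c) ≤ ‖L‖ * (2 ^ K * (M₀ * Real.sqrt K * μ.real V)
      + 2 ^ K * (K * η)) := by
    calc (2 ^ K : ℝ) * (K * c) = ∑ ε : s → Bool, K * c := by
          rw [Finset.sum_const, Finset.card_univ, nsmul_eq_mul, hcardε]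
      _ ≤ ∑ ε : s → Bool, ‖L‖ * (∫ x, ‖∑ α : s, ((sg (ε α) : ℝ) : 𝕜) *
            (B α).indicator (z α n₀ : Ω → 𝕜) x‖ ∂μ + K * η) := by
          refine Finset.sum_le_sum (fun ε _ => (hlow ε).trans ?_)
          exact mul_le_mul_of_nonneg_left (hup ε) (norm_nonneg L)
      _ = ‖L‖ * (∑ ε : s → Bool, (∫ x, ‖∑ α : s, ((sg (ε α) : ℝ) : 𝕜) *
            (B α).indicator (z α n₀ : Ω → 𝕜) x‖ ∂μ) + 2 ^ K * (K * η)) := by
          rw [← Finset.mul_sum, Finset.sum_add_distrib, Finset.sum_const, Finset.card_univ,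
            nsmul_eq_mul, hcardε]
      _ ≤ _ := by
          exact mul_le_mul_of_nonneg_left (add_le_add hkh le_rfl) (norm_nonneg L)
  have h2K : (0 : ℝ) < 2 ^ K := by positivity
  have htot2 : (K : ℝ) * c ≤ ‖L‖ * (M₀ * Real.sqrt K * μ.real V + K * η) := by
    have h1 : (2 ^ K : ℝ) * (K * c) ≤ 2 ^ K * (‖L‖ * (M₀ * Real.sqrt K * μ.real V + K * η)) := by
      calc _ ≤ _ := htot
        _ = _ := by ring
    exact le_of_mul_le_mul_left h1 h2K
  have hLη : ‖L‖ * η ≤ c / 2 := by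
    rw [hη]
    have h1 : ‖L‖ * (c / (2 * (‖L‖ + 1))) = (c / 2) * (‖L‖ / (‖L‖ + 1)) := by
      field_simp
    rw [h1]
    have h2 : ‖L‖ / (‖L‖ + 1) ≤ 1 := by
      rw [div_le_one (by positivity)]; linarith
    nlinarith [norm_nonneg L]
  have hKη : ‖L‖ * (K * η) ≤ K * (c / 2) := by
    calc ‖L‖ * (K * η) = K * (‖L‖ * η) := by ring
      _ ≤ K * (c / 2) := mul_le_mul_of_nonneg_left hLη (by positivity)
  have hfin : ‖L‖ * (M₀ * Real.sqrt K * μ.real V + K * η)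
      = ‖L‖ * (M₀ * μ.real V) * Real.sqrt K + ‖L‖ * (K * η) := by ring
  rw [hfin] at htot2
  linarith

end DualL1
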