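import Pool.Agent.Helper2.DualL1.Gen

/-! Separable atomless `L¹` spaces of finite measures. -/

namespace DualL1

open Filter Topology MeasureTheory ProbabilityTheory
open scoped ENNReal Classical

section Coding

variable {Ω : Type*} [MeasurableSpace Ω] {ν : Measure Ω} {𝕜 : Type*} [RCLike 𝕜]

/-- Every set of positive measure splits. -/
def Atomless (ν : Measure Ω) : Prop :=
  ∀ E, MeasurableSet E → 0 < ν E → ∃ P ⊆ E, MeasurableSet P ∧ 0 < ν P ∧ 0 < ν (E \ P)

variable (𝕜) in
lemma measureReal_sdiff_le [IsFiniteMeasure ν] {B B' : Set Ω} (hB : MeasurableSet B)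
    (hB' : MeasurableSet B') : ν.real (B \ B') ≤ ‖ind ν 𝕜 B - ind ν 𝕜 B'‖ := by
  have i1 : Integrable (B.indicator (fun _ => (1 : 𝕜))) ν :=
    (integrable_indicator_iff hB).2 (integrableOn_const (measure_ne_top _ _))
  have i2 : Integrable (B'.indicator (fun _ => (1 : 𝕜))) ν :=
    (integrable_indicator_iff hB').2 (integrableOn_const (measure_ne_top _ _))
  rw [ind_eq_tl hB (measure_ne_top _ _), ind_eq_tl hB' (measure_ne_top _ _), ← tl_sub i1 i2,
    norm_tl (i1.sub i2)]
  have h1 : ν.real (B \ B') = ∫ x, (B \ B').indicator (fun _ => (1 : ℝ)) x ∂ν := by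
    rw [integral_indicator_const _ (hB.diff hB'), smul_eq_mul, mul_one]
  rw [h1]
  refine integral_mono ((integrable_indicator_iff (hB.diff hB')).2
    (integrableOn_const (measure_ne_top _ _))) (i1.sub i2).norm (fun x => ?_)
  by_cases h : x ∈ B \ B'
  · simp [h.1, h.2]
  · rw [Set.indicator_of_notMem h]
    exact norm_nonneg _

variable (ν 𝕜) in
/-- A real random variable generating the measure algebra. -/
theorem exists_coding [TopologicalSpace.SeparableSpace (Lp 𝕜 1 ν)] :
    ∃ G : Ω → ℝ, Measurable G ∧ ∀ B, MeasurableSet B → ∀ ε > 0, ∃ C : Set ℝ,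
      MeasurableSet C ∧ ‖ind ν 𝕜 B - ind ν 𝕜 (G ⁻¹' C)‖ < ε := by
  obtain ⟨t, hts, htc, ht⟩ := (TopologicalSpace.IsSeparable.of_separableSpace
    {f : Lp 𝕜 1 ν | ∃ B, MeasurableSet B ∧ f = ind ν 𝕜 B}).exists_countable_dense_subset
  have hne : t.Nonempty := by
    rw [Set.nonempty_iff_ne_empty]
    rintro rfl
    have : ind ν 𝕜 (∅ : Set Ω) ∈ closure (∅ : Set (Lp 𝕜 1 ν)) := ht ⟨∅, MeasurableSet.empty, rfl⟩
    simp at this
  obtain ⟨q, hq⟩ := htc.exists_eq_range hne
  have hqB : ∀ n, ∃ B, MeasurableSet B ∧ q n = ind ν 𝕜 B := fun n =>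
    hts (hq ▸ Set.mem_range_self n)
  choose B hB hqB using hqB
  set H : Ω → (ℕ → Bool) := fun x n => decide (x ∈ B n) with hH
  have hHm : Measurable H := by
    rw [measurable_pi_iff]
    intro n
    exact measurable_to_bool (by
      have : (fun x => H x n) ⁻¹' {true} = B n := by
        ext x; simp [hH]
      rw [this]; exact hB n)
  refine ⟨embeddingReal (ℕ → Bool) ∘ H, (measurable_embeddingReal _).comp hHm, ?_⟩
  intro A hA ε hε
  have h1 := ht ⟨A, hA, rfl⟩
  rw [Metric.mem_closure_iff] at h1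
  obtain ⟨b, hb, hb'⟩ := h1 ε hε
  rw [hq] at hb
  obtain ⟨n, rfl⟩ := hb
  have hCm : MeasurableSet {s : ℕ → Bool | s n = true} := by
    have h3 : {s : ℕ → Bool | s n = true} = (fun s : ℕ → Bool => s n) ⁻¹' {true} := by
      ext s; simp
    rw [h3]
    exact (measurable_pi_apply n) (measurableSet_singleton true)
  refine ⟨embeddingReal (ℕ → Bool) '' {s | s n = true},
    (measurableEmbedding_embeddingReal _).measurableSet_image.2 hCm, ?_⟩
  have h2 : (embeddingReal (ℕ → Bool) ∘ H) ⁻¹' (embeddingReal (ℕ → Bool) '' {s | s n = true})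
      = B n := by
    rw [Set.preimage_comp, Set.preimage_image_eq _ (measurableEmbedding_embeddingReal _).injective]
    ext x
    simp [hH]
  rw [h2, ← hqB, ← dist_eq_norm]
  exact hb'

variable (𝕜) in
/-- The coding variable has no point masses. -/
lemma coding_no_atoms [IsFiniteMeasure ν] (hν : Atomless ν) {G : Ω → ℝ} (hG : Measurable G)
    (h : ∀ B, MeasurableSet B → ∀ ε > 0, ∃ C : Set ℝ,
      MeasurableSet C ∧ ‖ind ν 𝕜 B - ind ν 𝕜 (G ⁻¹' C)‖ < ε) (t : ℝ) : ν (G ⁻¹' {t}) = 0 := by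
  by_contra hne
  have hm : MeasurableSet (G ⁻¹' {t}) := hG (measurableSet_singleton t)
  obtain ⟨P, hP, hPm, hP1, hP2⟩ := hν _ hm (pos_iff_ne_zero.2 hne)
  have r1 : 0 < ν.real P := ENNReal.toReal_pos hP1.ne' (measure_ne_top _ _)
  have r2 : 0 < ν.real (G ⁻¹' {t} \ P) := ENNReal.toReal_pos hP2.ne' (measure_ne_top _ _)
  obtain ⟨C, hC, hC'⟩ := h P hPm (min (ν.real P) (ν.real (G ⁻¹' {t} \ P))) (lt_min r1 r2)
  have hGC : MeasurableSet (G ⁻¹' C) := hG hC
  by_cases htC : t ∈ C
  · have h1 := measureReal_sdiff_le 𝕜 (ν := ν) hGC hPm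
    rw [norm_sub_rev] at h1
    have h2 : ν.real (G ⁻¹' {t} \ P) ≤ ν.real (G ⁻¹' C \ P) := by
      refine measureReal_mono ?_
      intro x hx
      refine ⟨?_, hx.2⟩
      have : G x = t := hx.1
      show G x ∈ C
      rw [this]; exact htC
    have h3 := min_le_right (ν.real P) (ν.real (G ⁻¹' {t} \ P))
    linarith
  · have h1 := measureReal_sdiff_le 𝕜 (ν := ν) hPm hGC
    have h2 : ν.real P ≤ ν.real (P \ G ⁻¹' C) := by
      refine measureReal_mono ?_
      intro x hx
      refine ⟨hx, fun h' => htC ?_⟩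
      have : G x = t := hP hx
      rw [← this]; exact h'
    have h3 := min_le_left (ν.real P) (ν.real (G ⁻¹' {t} \ P))
    linarith

end Coding

section CDF

variable (ρ : Measure ℝ) [IsProbabilityMeasure ρ]

lemma cdf_continuous (hρ : ∀ t, ρ {t} = 0) : Continuous (cdf ρ) := by
  rw [continuous_iff_continuousAt]
  intro x
  rw [(monotone_cdf ρ).continuousAt_iff_leftLim_eq_rightLim]
  have h1 : Function.rightLim (cdf ρ) x = cdf ρ x := StieltjesFunction.rightLim_eq _ _
  rw [h1]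
  have h2 := StieltjesFunction.measure_singleton (cdf ρ) x
  rw [measure_cdf, hρ] at h2
  have h3 : cdf ρ x - Function.leftLim (cdf ρ) x ≤ 0 := by
    have := h2.symm
    rwa [ENNReal.ofReal_eq_zero] at this
  have h4 : Function.leftLim (cdf ρ) x ≤ cdf ρ x := (monotone_cdf ρ).leftLim_le le_rfl
  linarith

lemma measure_cdf_le (hρ : ∀ t, ρ {t} = 0) {a : ℝ} (ha0 : 0 ≤ a) (ha1 : a ≤ 1) :
    ρ {s | cdf ρ s ≤ a} = ENNReal.ofReal a := by
  have hcont := cdf_continuous ρ hρ
  rcases ha1.eq_or_lt with rfl | ha1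
  · have : {s | cdf ρ s ≤ 1} = Set.univ := by
      ext s; simp [cdf_le_one ρ s]
    rw [this, measure_univ, ENNReal.ofReal_one]
  · by_cases hS : {s | cdf ρ s ≤ a}.Nonempty
    · have hbdd : BddAbove {s | cdf ρ s ≤ a} := by
        obtain ⟨b, hb⟩ := ((tendsto_cdf_atTop ρ).eventually (lt_mem_nhds ha1)).exists
        refine ⟨b, fun s hs => ?_⟩
        by_contra hsb
        push Not at hsb
        have := monotone_cdf ρ hsb.le
        have hs' : cdf ρ s ≤ a := hs
        linarith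
      have hcl : IsClosed {s | cdf ρ s ≤ a} := isClosed_le hcont continuous_const
      have hmem : sSup {s | cdf ρ s ≤ a} ∈ {s | cdf ρ s ≤ a} := hcl.csSup_mem hS hbdd
      have hIic : {s | cdf ρ s ≤ a} = Set.Iic (sSup {s | cdf ρ s ≤ a}) := by
        ext s
        constructor
        · intro hs; exact le_csSup hbdd hs
        · intro hs
          exact (monotone_cdf ρ hs).trans hmem
      have hval : cdf ρ (sSup {s | cdf ρ s ≤ a}) = a := by
        refine le_antisymm hmem ?_
        have hlim : Tendsto (cdf ρ) (𝓝[>] (sSup {s | cdf ρ s ≤ a}))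
            (𝓝 (cdf ρ (sSup {s | cdf ρ s ≤ a}))) :=
          (hcont.tendsto _).mono_left nhdsWithin_le_nhds
        refine ge_of_tendsto hlim ?_
        filter_upwards [self_mem_nhdsWithin] with s hs
        by_contra hlt
        push Not at hlt
        exact absurd (le_csSup hbdd (show s ∈ {s | cdf ρ s ≤ a} from hlt.le)) (not_le.2 hs)
      rw [hIic, ← ofReal_cdf, hval]
    · rw [Set.not_nonempty_iff_eq_empty] at hS
      rw [hS, measure_empty]
      have : a ≤ 0 := by
        by_contra hpos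
        push Not at hpos
        obtain ⟨s, hs⟩ := ((tendsto_cdf_atBot ρ).eventually (gt_mem_nhds hpos)).exists
        have : s ∈ {s | cdf ρ s ≤ a} := le_of_lt hs
        rw [hS] at this
        exact this
      rw [ENNReal.ofReal_of_nonpos this]

/-- Lebesgue measure on the unit interval. -/
noncomputable abbrev UI : Measure ℝ := volume.restrict (Set.Icc 0 1)

lemma map_cdf_eq (hρ : ∀ t, ρ {t} = 0) : ρ.map (cdf ρ) = UI := by
  have hm : Measurable (cdf ρ) := (monotone_cdf ρ).measurable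
  refine Measure.ext_of_Iic _ _ (fun a => ?_)
  rw [Measure.map_apply hm measurableSet_Iic, Measure.restrict_apply measurableSet_Iic]
  have h1 : (cdf ρ) ⁻¹' Set.Iic a = {s | cdf ρ s ≤ a} := rfl
  rw [h1]
  rcases lt_or_ge a 0 with ha | ha
  · have h2 : {s | cdf ρ s ≤ a} = ∅ := by
      ext s
      simp only [Set.mem_ofPred_eq, Set.mem_empty_iff_false, iff_false, not_le]
      exact lt_of_lt_of_le ha (cdf_nonneg ρ s)
    have h3 : Set.Iic a ∩ Set.Icc 0 1 = ∅ := by
      ext s
      simp only [Set.mem_inter_iff, Set.mem_Iic, Set.mem_Icc, Set.mem_empty_iff_false, iff_false]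
      rintro ⟨h4, h5, _⟩
      linarith
    rw [h2, h3, measure_empty, measure_empty]
  · rcases le_or_gt a 1 with ha1 | ha1
    · have h3 : Set.Iic a ∩ Set.Icc 0 1 = Set.Icc 0 a := by
        ext s
        simp only [Set.mem_inter_iff, Set.mem_Iic, Set.mem_Icc]
        constructor
        · rintro ⟨h4, h5, _⟩; exact ⟨h5, h4⟩
        · rintro ⟨h4, h5⟩; exact ⟨h5, h4, h5.trans ha1⟩
      rw [measure_cdf_le ρ hρ ha ha1, h3, Real.volume_Icc, sub_zero]
    · have h2 : {s | cdf ρ s ≤ a} = Set.univ := by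
        ext s
        simp only [Set.mem_ofPred_eq, Set.mem_univ, iff_true]
        exact (cdf_le_one ρ s).trans ha1.le
      have h3 : Set.Iic a ∩ Set.Icc 0 1 = Set.Icc 0 1 := by
        ext s
        simp only [Set.mem_inter_iff, Set.mem_Iic, Set.mem_Icc]
        constructor
        · rintro ⟨_, h5⟩; exact h5
        · rintro ⟨h4, h5⟩; exact ⟨h5.trans ha1.le, h4, h5⟩
      rw [h2, h3, measure_univ, Real.volume_Icc]
      simp

lemma cdf_Iic_ae (hρ : ∀ t, ρ {t} = 0) (t : ℝ) :
    ρ ({s | cdf ρ s ≤ cdf ρ t} \ Set.Iic t) = 0 := by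
  have hm : Measurable (cdf ρ) := (monotone_cdf ρ).measurable
  have hsub : Set.Iic t ⊆ {s | cdf ρ s ≤ cdf ρ t} := fun s hs => monotone_cdf ρ hs
  rw [measure_sdiff hsub measurableSet_Iic.nullMeasurableSet (measure_ne_top _ _),
    measure_cdf_le ρ hρ (cdf_nonneg ρ t) (cdf_le_one ρ t), ofReal_cdf, tsub_self]

end CDF

section Comp

variable {Ω : Type*} [MeasurableSpace Ω] {ν : Measure Ω} {𝕜 : Type*} [RCLike 𝕜]

variable (𝕜) in
/-- Composition with a map `U` whose law is `m` times Lebesgue measure on the unit interval. -/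
noncomputable def compU (U : Ω → ℝ) (hU : Measurable U) (m : ℝ≥0∞) (hm : m ≠ 0) (hm' : m ≠ ∞)
    (hmap : ν.map U = m • UI) : Lp 𝕜 1 UI →ₗᵢ[𝕜] Lp 𝕜 1 ν where
  toFun f := ((m.toReal⁻¹ : ℝ) : 𝕜) • tl ν (fun x => f (U x))
  map_add' f g := by
    have hac : ν.map U ≪ UI := by
      rw [hmap]; exact Measure.smul_absolutelyContinuous
    have hi : ∀ f : Lp 𝕜 1 UI, Integrable (fun x => f (U x)) ν := by
      intro f
      have h1 : Integrable f (ν.map U) := by
        rw [hmap]; exact (L1.integrable_coeFn f).smul_measure hm'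
      exact (integrable_map_measure h1.aestronglyMeasurable hU.aemeasurable).1 h1
    rw [← smul_add, ← tl_add (hi f) (hi g)]
    congr 1
    refine tl_congr ?_
    exact ae_of_ae_map hU.aemeasurable (hac.ae_le (Lp.coeFn_add f g))
  map_smul' c f := by
    have hac : ν.map U ≪ UI := by
      rw [hmap]; exact Measure.smul_absolutelyContinuous
    have hi : ∀ f : Lp 𝕜 1 UI, Integrable (fun x => f (U x)) ν := by
      intro f
      have h1 : Integrable f (ν.map U) := by
        rw [hmap]; exact (L1.integrable_coeFn f).smul_measure hm'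
      exact (integrable_map_measure h1.aestronglyMeasurable hU.aemeasurable).1 h1
    rw [RingHom.id_apply, smul_comm, ← tl_smul c (hi f)]
    congr 1
    refine tl_congr ?_
    exact ae_of_ae_map hU.aemeasurable (hac.ae_le (Lp.coeFn_smul c f))
  norm_map' f := by
    have h1 : Integrable f (ν.map U) := by
      rw [hmap]; exact (L1.integrable_coeFn f).smul_measure hm'
    have hi : Integrable (fun x => f (U x)) ν :=
      (integrable_map_measure h1.aestronglyMeasurable hU.aemeasurable).1 h1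
    show ‖((m.toReal⁻¹ : ℝ) : 𝕜) • tl ν (fun x => f (U x))‖ = ‖f‖
    have hmr : 0 < m.toReal := ENNReal.toReal_pos hm hm'
    rw [norm_smul, norm_tl hi, RCLike.norm_ofReal, abs_of_pos (by positivity),
      L1.norm_eq_integral_norm]
    have h2 : ∫ x, ‖f (U x)‖ ∂ν = ∫ t, ‖f t‖ ∂(ν.map U) :=
      (integral_map hU.aemeasurable h1.norm.aestronglyMeasurable).symm
    rw [h2, hmap, integral_smul_measure, smul_eq_mul, inv_mul_cancel_left₀ hmr.ne']

lemma compU_apply (U : Ω → ℝ) (hU : Measurable U) (m : ℝ≥0∞) (hm : m ≠ 0) (hm' : m ≠ ∞)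
    (hmap : ν.map U = m • UI) (f : Lp 𝕜 1 UI) :
    compU 𝕜 U hU m hm hm' hmap f = ((m.toReal⁻¹ : ℝ) : 𝕜) • tl ν (fun x => f (U x)) := rfl

lemma compU_ind (U : Ω → ℝ) (hU : Measurable U) (m : ℝ≥0∞) (hm : m ≠ 0) (hm' : m ≠ ∞)
    (hmap : ν.map U = m • UI) {C : Set ℝ} (hC : MeasurableSet C) [IsFiniteMeasure ν] :
    compU 𝕜 U hU m hm hm' hmap (((m.toReal : ℝ) : 𝕜) • ind UI 𝕜 C) = ind ν 𝕜 (U ⁻¹' C) := by
  have hmr : 0 < m.toReal := ENNReal.toReal_pos hm hm'
  have hac : ν.map U ≪ UI := by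
    rw [hmap]; exact Measure.smul_absolutelyContinuous
  rw [map_smul, compU_apply, smul_smul, ← RCLike.ofReal_mul, mul_inv_cancel₀ hmr.ne',
    RCLike.ofReal_one, one_smul, ind_eq_tl (hU hC) (measure_ne_top _ _),
    ind_eq_tl hC (measure_ne_top _ _)]
  refine tl_congr ?_
  exact ae_of_ae_map hU.aemeasurable (hac.ae_le (coeFn_tl ((integrable_indicator_iff hC).2
    (integrableOn_const (measure_ne_top _ _)))))

variable (ν 𝕜) in
/-- A separable atomless `L¹` space of a finite nonzero measure is `L¹[0,1]`. -/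
theorem piece_atomless [IsFiniteMeasure ν] (hν0 : ν ≠ 0)
    [TopologicalSpace.SeparableSpace (Lp 𝕜 1 ν)] (hν : Atomless ν) :
    Nonempty (Lp 𝕜 1 UI ≃ₗᵢ[𝕜] Lp 𝕜 1 ν) := by
  obtain ⟨G, hG, hGd⟩ := exists_coding ν 𝕜
  set m : ℝ≥0∞ := ν Set.univ with hm
  have hm0 : m ≠ 0 := by rwa [hm, Ne, Measure.measure_univ_eq_zero]
  have hmt : m ≠ ∞ := measure_ne_top _ _
  -- the normalised law of `G`
  set ρ : Measure ℝ := m⁻¹ • ν.map G with hρ
  have hρp : IsProbabilityMeasure ρ := by
    refine ⟨?_⟩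
    rw [hρ, Measure.smul_apply, Measure.map_apply hG MeasurableSet.univ, Set.preimage_univ, ← hm,
      smul_eq_mul, ENNReal.inv_mul_cancel hm0 hmt]
  have hρ0 : ∀ t, ρ {t} = 0 := by
    intro t
    rw [hρ, Measure.smul_apply, Measure.map_apply hG (measurableSet_singleton t),
      coding_no_atoms 𝕜 hν hG hGd t, smul_zero]
  have hνρ : ν.map G = m • ρ := by
    rw [hρ, smul_smul, ENNReal.mul_inv_cancel hm0 hmt, one_smul]
  have hFm : Measurable (cdf ρ) := (monotone_cdf ρ).measurable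
  set U : Ω → ℝ := fun x => cdf ρ (G x) with hU
  have hUm : Measurable U := hFm.comp hG
  have hmap : ν.map U = m • UI := by
    have h1 : ν.map U = (ν.map G).map (cdf ρ) := (Measure.map_map hFm hG).symm
    rw [h1, hνρ, Measure.map_smul, map_cdf_eq ρ hρ0]
  set T := compU 𝕜 U hUm m hm0 hmt hmap with hT
  have hcl : IsClosed (LinearMap.range T.toLinearMap : Set (Lp 𝕜 1 ν)) := by
    rw [LinearMap.coe_range]
    exact T.isometry.isClosedEmbedding.isClosed_range
  -- preimages of half-lines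
  have hIic : ∀ t, ind ν 𝕜 (G ⁻¹' Set.Iic t) ∈ LinearMap.range T.toLinearMap := by
    intro t
    refine ⟨((m.toReal : ℝ) : 𝕜) • ind UI 𝕜 (Set.Iic (cdf ρ t)), ?_⟩
    have h1 : T (((m.toReal : ℝ) : 𝕜) • ind UI 𝕜 (Set.Iic (cdf ρ t)))
        = ind ν 𝕜 (U ⁻¹' Set.Iic (cdf ρ t)) := compU_ind U hUm m hm0 hmt hmap measurableSet_Iic
    refine h1.trans ?_
    rw [ind_eq_tl (hUm measurableSet_Iic) (measure_ne_top _ _),
      ind_eq_tl (hG measurableSet_Iic) (measure_ne_top _ _)]
    refine tl_congr ?_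
    have h2 : ν (G ⁻¹' ({s | cdf ρ s ≤ cdf ρ t} \ Set.Iic t)) = 0 := by
      have hms : MeasurableSet ({s | cdf ρ s ≤ cdf ρ t} \ Set.Iic t) :=
        (measurableSet_le hFm measurable_const).diff measurableSet_Iic
      rw [← Measure.map_apply hG hms, hνρ, Measure.smul_apply, cdf_Iic_ae ρ hρ0 t, smul_zero]
    have h3 : ∀ᵐ x ∂ν, x ∉ G ⁻¹' ({s | cdf ρ s ≤ cdf ρ t} \ Set.Iic t) :=
      measure_eq_zero_iff_ae_notMem.1 h2
    filter_upwards [h3] with x hx
    by_cases hx1 : G x ≤ t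
    · rw [Set.indicator_of_mem (show x ∈ G ⁻¹' Set.Iic t from hx1),
        Set.indicator_of_mem (show x ∈ U ⁻¹' Set.Iic (cdf ρ t) from monotone_cdf ρ hx1)]
    · have hx2 : x ∉ U ⁻¹' Set.Iic (cdf ρ t) := fun h => hx ⟨h, hx1⟩
      rw [Set.indicator_of_notMem (show x ∉ G ⁻¹' Set.Iic t from hx1),
        Set.indicator_of_notMem hx2]
  have huniv : ind ν 𝕜 (Set.univ : Set Ω) ∈ LinearMap.range T.toLinearMap := by
    refine ⟨((m.toReal : ℝ) : 𝕜) • ind UI 𝕜 Set.univ, ?_⟩
    exact compU_ind U hUm m hm0 hmt hmap MeasurableSet.univ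
  -- preimages of Borel sets
  have hBor : ∀ C : Set ℝ, MeasurableSet C →
      ind ν 𝕜 (G ⁻¹' C) ∈ LinearMap.range T.toLinearMap := by
    have hbor : (inferInstance : MeasurableSpace ℝ)
        = MeasurableSpace.generateFrom (Set.range Set.Iic) := by
      rw [← borel_eq_generateFrom_Iic]
      exact BorelSpace.measurable_eq
    refine MeasurableSpace.induction_on_inter (C := fun C _ => ind ν 𝕜 (G ⁻¹' C) ∈
      LinearMap.range T.toLinearMap) hbor isPiSystem_Iic ?_ ?_ ?_ ?_
    · rw [Set.preimage_empty, ind_empty]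
      exact Submodule.zero_mem _
    · rintro _ ⟨t, rfl⟩
      exact hIic t
    · intro C hC hC'
      have h1 : ind ν 𝕜 (G ⁻¹' Cᶜ) = ind ν 𝕜 Set.univ - ind ν 𝕜 (G ⁻¹' C) := by
        rw [eq_sub_iff_add_eq, ← ind_union 𝕜 (hG hC.compl) (measure_ne_top _ _) (hG hC)
          (measure_ne_top _ _)]
        · rw [Set.preimage_compl, Set.compl_union_self]
        · rw [Set.preimage_compl]
          exact disjoint_compl_left
      rw [h1]
      exact Submodule.sub_mem _ huniv hC'
    · intro f hd hfm hf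
      have h1 := hasSum_ind 𝕜 (μ := ν) MeasurableSet.univ (measure_ne_top _ _)
        (f := fun i => G ⁻¹' f i) (fun i => hG (hfm i)) (fun i j hij => (hd hij).preimage G)
      simp only [Set.inter_univ] at h1
      rw [Set.preimage_iUnion]
      exact hcl.mem_of_tendsto h1 (Eventually.of_forall (fun S =>
        Submodule.sum_mem _ (fun i _ => hf i)))
  have htop : LinearMap.range T.toLinearMap = ⊤ := by
    refine eq_top_of_ind _ hcl (fun B hB _ => ?_)
    rw [← SetLike.mem_coe, ← hcl.closure_eq, Metric.mem_closure_iff]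
    intro ε hε
    obtain ⟨C, hC, hC'⟩ := hGd B hB ε hε
    exact ⟨_, hBor C hC, by rwa [dist_eq_norm]⟩
  exact ⟨LinearIsometryEquiv.ofSurjective T (LinearMap.range_eq_top.1 htop)⟩

end Comp

section AtomPiece

variable {Ω : Type*} [MeasurableSpace Ω] {ν : Measure Ω} {𝕜 : Type*} [RCLike 𝕜]

variable (ν 𝕜) in
/-- If the whole space is an atom of a finite measure, then `L¹` is one-dimensional. -/
theorem piece_atom [IsFiniteMeasure ν] (hν : IsAtomOf ν Set.univ) :
    Nonempty (𝕜 ≃ₗᵢ[𝕜] Lp 𝕜 1 ν) := by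
  have hm : 0 < ν.real Set.univ := ENNReal.toReal_pos hν.2.1.ne' (measure_ne_top _ _)
  let T : 𝕜 →ₗᵢ[𝕜] Lp 𝕜 1 ν :=
    { toFun := fun a => a • (((ν.real Set.univ)⁻¹ : ℝ) : 𝕜) • ind ν 𝕜 Set.univ
      map_add' := fun a b => add_smul _ _ _
      map_smul' := fun c a => by simp [smul_smul, mul_assoc]
      norm_map' := fun a => by
        show ‖a • (((ν.real Set.univ)⁻¹ : ℝ) : 𝕜) • ind ν 𝕜 Set.univ‖ = ‖a‖
        rw [norm_smul, norm_smul, norm_ind 𝕜 MeasurableSet.univ (measure_ne_top _ _),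
          RCLike.norm_ofReal, abs_of_pos (by positivity), inv_mul_cancel₀ hm.ne', mul_one] }
  have hTa : ∀ a, T a = a • (((ν.real Set.univ)⁻¹ : ℝ) : 𝕜) • ind ν 𝕜 Set.univ := fun a => rfl
  have hcl : IsClosed (LinearMap.range T.toLinearMap : Set (Lp 𝕜 1 ν)) := by
    rw [LinearMap.coe_range]
    exact T.isometry.isClosedEmbedding.isClosed_range
  have htop : LinearMap.range T.toLinearMap = ⊤ := by
    refine eq_top_of_ind _ hcl (fun B hB _ => ?_)
    rcases hν.2.2 B (Set.subset_univ _) hB with h | h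
    · have h1 : ind ν 𝕜 B = 0 := by
        rw [← norm_eq_zero, norm_ind 𝕜 hB (measure_ne_top _ _), measureReal_def, h]; simp
      rw [h1]
      exact Submodule.zero_mem _
    · have h1 : ind ν 𝕜 (Set.univ \ B) = 0 := by
        rw [← norm_eq_zero, norm_ind 𝕜 (MeasurableSet.univ.diff hB) (measure_ne_top _ _),
          measureReal_def, h]; simp
      have h2 : ind ν 𝕜 Set.univ = ind ν 𝕜 B + ind ν 𝕜 (Set.univ \ B) := by
        rw [← ind_union 𝕜 hB (measure_ne_top _ _) (MeasurableSet.univ.diff hB) (measure_ne_top _ _)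
          Set.disjoint_sdiff_right, Set.union_sdiff_cancel (Set.subset_univ _)]
      rw [h1, add_zero] at h2
      refine ⟨((ν.real Set.univ : ℝ) : 𝕜), ?_⟩
      refine (hTa _).trans ?_
      rw [smul_smul, ← RCLike.ofReal_mul, mul_inv_cancel₀ hm.ne', RCLike.ofReal_one, one_smul, h2]
  exact ⟨LinearIsometryEquiv.ofSurjective T (LinearMap.range_eq_top.1 htop)⟩

end AtomPiece

end DualL1
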