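import Pool.Agent.Helper2.DualL1.Comb
import Pool.Agent.Helper2.DualL1.Average

/-! Functionals on `C(Δ, 𝕜)`, `Δ = ℕ → Bool` the Cantor space, are given by densities. -/

namespace DualL1

open Filter Topology MeasureTheory
open scoped ENNReal Classical

variable {𝕜 : Type*} [RCLike 𝕜]

/-- The Cantor space. -/
abbrev Δ : Type := ℕ → Bool

/-- projection to the first `n` coordinates, extended by `false`. -/
def proj (n : ℕ) (x : Δ) : Δ := ext (fun i : Fin n => x i)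

lemma continuous_restr (n : ℕ) : Continuous (fun (x : Δ) (i : Fin n) => x i) :=
  continuous_pi (fun i => continuous_apply (i : ℕ))

variable (𝕜) in
/-- indicator of a cylinder. -/
noncomputable def cyl {n : ℕ} (w : Fin n → Bool) : C(Δ, 𝕜) where
  toFun x := if (fun i : Fin n => x i) = w then 1 else 0
  continuous_toFun := by
    have h : Continuous (fun v : Fin n → Bool => (if v = w then 1 else 0 : 𝕜)) :=
      continuous_of_discreteTopology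
    exact h.comp (continuous_restr n)

lemma cyl_apply {n : ℕ} (w : Fin n → Bool) (x : Δ) :
    cyl 𝕜 w x = if (fun i : Fin n => x i) = w then 1 else 0 := rfl

lemma sum_cyl_apply {n : ℕ} (a : (Fin n → Bool) → 𝕜) (x : Δ) :
    (∑ w, a w • cyl 𝕜 w) x = a (fun i => x i) := by
  have h1 : (∑ w, a w • cyl 𝕜 w) x = ∑ w, a w * cyl 𝕜 w x := by
    rw [ContinuousMap.sum_apply]
    rfl
  rw [h1]
  simp [cyl_apply]

lemma sum_norm_cyl_le (Φ : C(Δ, 𝕜) →L[𝕜] 𝕜) (n : ℕ) :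
    ∑ w : Fin n → Bool, ‖Φ (cyl 𝕜 w)‖ ≤ ‖Φ‖ := by
  choose a ha ha' using fun w : Fin n → Bool => RCLike.exists_norm_eq_mul_self (Φ (cyl 𝕜 w))
  have h1 : ‖∑ w, a w • cyl 𝕜 w‖ ≤ 1 := by
    rw [ContinuousMap.norm_le _ zero_le_one]
    intro x
    rw [sum_cyl_apply]
    exact (ha _).le
  have h2 : Φ (∑ w, a w • cyl 𝕜 w) = ((∑ w : Fin n → Bool, ‖Φ (cyl 𝕜 w)‖ : ℝ) : 𝕜) := by
    rw [map_sum]
    push_cast
    refine Finset.sum_congr rfl (fun w _ => ?_)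
    rw [map_smul, smul_eq_mul, ← ha']
  calc ∑ w : Fin n → Bool, ‖Φ (cyl 𝕜 w)‖ = ‖Φ (∑ w, a w • cyl 𝕜 w)‖ := by
        rw [h2, RCLike.norm_ofReal, abs_of_nonneg (Finset.sum_nonneg (fun _ _ => norm_nonneg _))]
    _ ≤ ‖Φ‖ * ‖∑ w, a w • cyl 𝕜 w‖ := Φ.le_opNorm _
    _ ≤ ‖Φ‖ * 1 := mul_le_mul_of_nonneg_left h1 (norm_nonneg _)
    _ = ‖Φ‖ := mul_one _

/-- the approximating positive functionals. -/
noncomputable def lam (Φ : C(Δ, 𝕜) →L[𝕜] 𝕜) (n : ℕ) : C(Δ, ℝ) →L[ℝ] ℝ :=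
  ∑ w : Fin n → Bool, ‖Φ (cyl 𝕜 w)‖ • ContinuousMap.evalCLM ℝ (ext w : Δ)

lemma lam_apply (Φ : C(Δ, 𝕜) →L[𝕜] 𝕜) (n : ℕ) (f : C(Δ, ℝ)) :
    lam Φ n f = ∑ w : Fin n → Bool, ‖Φ (cyl 𝕜 w)‖ * f (ext w) := by
  rw [lam, _root_.sum_apply]
  rfl

lemma norm_lam_le (Φ : C(Δ, 𝕜) →L[𝕜] 𝕜) (n : ℕ) : ‖lam Φ n‖ ≤ ‖Φ‖ := by
  refine ContinuousLinearMap.opNorm_le_bound _ (norm_nonneg _) (fun f => ?_)
  rw [lam_apply]
  calc ‖∑ w : Fin n → Bool, ‖Φ (cyl 𝕜 w)‖ * f (ext w)‖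
      ≤ ∑ w : Fin n → Bool, ‖‖Φ (cyl 𝕜 w)‖ * f (ext w)‖ := norm_sum_le _ _
    _ ≤ ∑ w : Fin n → Bool, ‖Φ (cyl 𝕜 w)‖ * ‖f‖ := by
        refine Finset.sum_le_sum (fun w _ => ?_)
        rw [norm_mul, norm_norm]
        exact mul_le_mul_of_nonneg_left (f.norm_coe_le_norm _) (norm_nonneg _)
    _ = (∑ w : Fin n → Bool, ‖Φ (cyl 𝕜 w)‖) * ‖f‖ := by rw [Finset.sum_mul]
    _ ≤ ‖Φ‖ * ‖f‖ := mul_le_mul_of_nonneg_right (sum_norm_cyl_le Φ n) (norm_nonneg _)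

lemma tendstoUniformly_proj : TendstoUniformly (fun n => proj n) id atTop := by
  rw [tendstoUniformly_iff_tendsto, Pi.uniformity, tendsto_iInf]
  intro i
  rw [tendsto_comap_iff]
  intro V hV
  rw [mem_map]
  have h : {q : ℕ × Δ | i < q.1} ∈ (atTop : Filter ℕ) ×ˢ (⊤ : Filter Δ) :=
    (tendsto_fst.eventually (eventually_gt_atTop i))
  filter_upwards [h] with q hq
  have h1 : proj q.1 q.2 i = q.2 i := by
    have : i < q.1 := hq
    simp [proj, ext, this]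
  show (q.2 i, proj q.1 q.2 i) ∈ V
  rw [h1]
  exact refl_mem_uniformity hV

/-- composition with the projection. -/
noncomputable def approxF (f : C(Δ, 𝕜)) (n : ℕ) : C(Δ, 𝕜) :=
  ∑ w : Fin n → Bool, f (ext w) • cyl 𝕜 w

lemma approxF_apply (f : C(Δ, 𝕜)) (n : ℕ) (x : Δ) : approxF f n x = f (proj n x) :=
  sum_cyl_apply (fun w => f (ext w)) x

lemma tendsto_approxF (f : C(Δ, 𝕜)) : Tendsto (approxF f) atTop (𝓝 f) := by
  rw [ContinuousMap.tendsto_iff_tendstoUniformly]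
  have h1 : UniformContinuous f := CompactSpace.uniformContinuous_of_continuous f.continuous
  have h2 := h1.comp_tendstoUniformly tendstoUniformly_proj
  have h3 : (fun n => ⇑(approxF f n)) = fun n => f ∘ proj n := by
    funext n x
    exact approxF_apply f n x
  rw [h3]
  exact h2

/-- absolute value. -/
noncomputable def absC (f : C(Δ, 𝕜)) : C(Δ, ℝ) := ⟨fun x => ‖f x‖, f.continuous.norm⟩

/-- The positive functional dominating `Φ`. -/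
theorem exists_dominating (Φ : C(Δ, 𝕜) →L[𝕜] 𝕜) :
    ∃ L : C(Δ, ℝ) →L[ℝ] ℝ, (∀ f : C(Δ, ℝ), (∀ x, 0 ≤ f x) → 0 ≤ L f) ∧
      ∀ f : C(Δ, 𝕜), ‖Φ f‖ ≤ L (absC f) := by
  obtain ⟨L, hL⟩ := exists_ultralimit (𝕜 := ℝ) (hyperfilter ℕ) (lam Φ) (norm_lam_le Φ)
  refine ⟨L, fun f hf => ?_, fun f => ?_⟩
  · refine ge_of_tendsto' (hL f) (fun n => ?_)
    rw [lam_apply]
    exact Finset.sum_nonneg (fun w _ => mul_nonneg (norm_nonneg _) (hf _))
  · have h1 : Tendsto (fun n => ‖Φ (approxF f n)‖) (hyperfilter ℕ) (𝓝 ‖Φ f‖) :=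
      (((Φ.continuous.tendsto f).comp (tendsto_approxF f)).norm).mono_left
        Nat.hyperfilter_le_atTop
    refine le_of_tendsto_of_tendsto' h1 (hL (absC f)) (fun n => ?_)
    rw [lam_apply, approxF, map_sum]
    refine (norm_sum_le _ _).trans (Finset.sum_le_sum (fun w _ => ?_))
    rw [map_smul, norm_smul, mul_comm]
    rfl

/-- Riesz: positive functionals on `C(Δ, ℝ)` are integrals. -/
theorem exists_measure (L : C(Δ, ℝ) →L[ℝ] ℝ) (hL : ∀ f : C(Δ, ℝ), (∀ x, 0 ≤ f x) → 0 ≤ L f) :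
    ∃ ν : Measure Δ, IsFiniteMeasure ν ∧ ∀ f : C(Δ, ℝ), ∫ x, f x ∂ν = L f := by
  let L' : CompactlySupportedContinuousMap Δ ℝ →ₗ[ℝ] ℝ :=
    { toFun := fun f => L f.toContinuousMap
      map_add' := fun f g => by
        rw [← map_add]; rfl
      map_smul' := fun c f => by
        rw [RingHom.id_apply, ← map_smul]; rfl }
  let Lp := PositiveLinearMap.mk₀ L' (fun f hf => hL _ (fun x =>
    CompactlySupportedContinuousMap.le_def.1 hf x))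
  refine ⟨RealRMK.rieszMeasure Lp, inferInstance, fun f => ?_⟩
  have h := RealRMK.integral_rieszMeasure Lp ⟨f, HasCompactSupport.of_compactSpace _⟩
  exact h

/-- Every functional on `C(Δ, 𝕜)` is given by a density with respect to a finite measure. -/
theorem exists_density (Φ : C(Δ, 𝕜) →L[𝕜] 𝕜) :
    ∃ ν : Measure Δ, IsFiniteMeasure ν ∧ ∃ h : Δ → 𝕜, Integrable h ν ∧
      ∀ f : C(Δ, 𝕜), Φ f = ∫ x, h x * f x ∂ν := by
  obtain ⟨L, hL, hΦL⟩ := exists_dominating Φ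
  obtain ⟨ν, hν, hνL⟩ := exists_measure L hL
  refine ⟨ν, hν, ?_⟩
  set e : C(Δ, 𝕜) →L[𝕜] Lp 𝕜 2 ν := ContinuousMap.toLp 2 ν 𝕜 with he
  have hde : DenseRange e := ContinuousMap.toLp_denseRange 𝕜 ν 𝕜 (by norm_num)
  have hbound : ∃ C : ℝ, ∀ f : C(Δ, 𝕜), ‖Φ f‖ ≤ C * ‖e f‖ := by
    refine ⟨((ν Set.univ) ^ (1 / (1 : ℝ≥0∞).toReal - 1 / (2 : ℝ≥0∞).toReal)).toReal, fun f => ?_⟩
    have h1 : ‖Φ f‖ ≤ ∫ x, ‖f x‖ ∂ν := by
      refine (hΦL f).trans (le_of_eq ?_)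
      rw [← hνL]
      rfl
    have h2 : ∫ x, ‖f x‖ ∂ν = (eLpNorm f 1 ν).toReal := by
      rw [eLpNorm_one_eq_lintegral_enorm, integral_norm_eq_lintegral_enorm
        f.continuous.aestronglyMeasurable]
    have h3 : ‖e f‖ = (eLpNorm f 2 ν).toReal := by
      rw [Lp.norm_def]
      congr 1
      exact eLpNorm_congr_ae (ContinuousMap.coeFn_toLp ν f)
    have h4 := eLpNorm_le_eLpNorm_mul_rpow_measure_univ (μ := ν) (p := 1) (q := 2)
      (by norm_num) f.continuous.aestronglyMeasurable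
    have h5 : eLpNorm f 2 ν ≠ ∞ := by
      have := Lp.eLpNorm_ne_top (e f)
      rwa [eLpNorm_congr_ae (ContinuousMap.coeFn_toLp ν f)] at this
    have h6 : (ν Set.univ) ^ (1 / (1 : ℝ≥0∞).toReal - 1 / (2 : ℝ≥0∞).toReal) ≠ ∞ :=
      ENNReal.rpow_ne_top_of_nonneg (by norm_num) (measure_ne_top _ _)
    calc ‖Φ f‖ ≤ (eLpNorm f 1 ν).toReal := by rw [← h2]; exact h1
      _ ≤ (eLpNorm f 2 ν * (ν Set.univ) ^ (1 / (1 : ℝ≥0∞).toReal - 1 / (2 : ℝ≥0∞).toReal)).toReal :=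
          ENNReal.toReal_mono (ENNReal.mul_ne_top h5 h6) h4
      _ = _ := by rw [ENNReal.toReal_mul, h3, mul_comm]
  set Ψ : Lp 𝕜 2 ν →L[𝕜] 𝕜 := (Φ : C(Δ, 𝕜) →ₗ[𝕜] 𝕜).extendOfNorm (e : C(Δ, 𝕜) →ₗ[𝕜] Lp 𝕜 2 ν)
    with hΨ
  have hΨe : ∀ f, Ψ (e f) = Φ f := fun f => LinearMap.extendOfNorm_eq hde hbound f
  set h := (InnerProductSpace.toDual 𝕜 (Lp 𝕜 2 ν)).symm Ψ with hh
  have hinner : ∀ f, Φ f = inner 𝕜 h (e f) := by
    intro f
    rw [hh, InnerProductSpace.toDual_symm_apply, hΨe]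
  have hint : Integrable (h : Δ → 𝕜) ν := (Lp.memLp h).integrable (by norm_num)
  refine ⟨fun x => (starRingEnd 𝕜) (h x), ?_, fun f => ?_⟩
  · exact (RCLike.conjCLE (K := 𝕜)).toContinuousLinearMap.integrable_comp hint
  · rw [hinner, L2.inner_def]
    refine integral_congr_ae ?_
    filter_upwards [ContinuousMap.coeFn_toLp (p := 2) (𝕜 := 𝕜) ν f] with x hx
    rw [hx, RCLike.inner_apply, mul_comm]

end DualL1
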