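import Pool.Agent.Helper2.DualL1.Comb

/-! The Cantor scheme in the dual space. -/

namespace DualL1

open Filter Topology MeasureTheory
open scoped ENNReal Classical

section Ind

variable {Ω : Type*} [MeasurableSpace Ω] {μ : Measure Ω} (𝕜 : Type*) [RCLike 𝕜]

variable (μ) in
/-- The class in `L¹` of the indicator of a measurable set of finite measure. -/
noncomputable def ind (G : Set Ω) : Lp 𝕜 1 μ :=
  if h : MeasurableSet G ∧ μ G ≠ ∞ then indicatorConstLp 1 h.1 h.2 (1 : 𝕜) else 0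

lemma ind_of {G : Set Ω} (hG : MeasurableSet G) (hμG : μ G ≠ ∞) :
    ind μ 𝕜 G = indicatorConstLp 1 hG hμG (1 : 𝕜) := by
  rw [ind, dif_pos ⟨hG, hμG⟩]

lemma ind_empty : ind μ 𝕜 (∅ : Set Ω) = 0 := by
  rw [ind_of 𝕜 MeasurableSet.empty (by simp), indicatorConstLp_empty]

lemma norm_ind {G : Set Ω} (hG : MeasurableSet G) (hμG : μ G ≠ ∞) :
    ‖ind μ 𝕜 G‖ = μ.real G := by
  rw [ind_of 𝕜 hG hμG, norm_indicatorConstLp one_ne_zero ENNReal.one_ne_top]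
  simp

lemma ind_union {G H : Set Ω} (hG : MeasurableSet G) (hμG : μ G ≠ ∞) (hH : MeasurableSet H)
    (hμH : μ H ≠ ∞) (hd : Disjoint G H) :
    ind μ 𝕜 (G ∪ H) = ind μ 𝕜 G + ind μ 𝕜 H := by
  have hU : μ (G ∪ H) ≠ ∞ := (measure_union_lt_top hμG.lt_top hμH.lt_top).ne
  rw [ind_of 𝕜 hG hμG, ind_of 𝕜 hH hμH, ind_of 𝕜 (hG.union hH) hU,
    indicatorConstLp_disjoint_union hG hH hμG hμH hd]

lemma ind_biUnion {D : Set Ω} (hD : MeasurableSet D) (hμD : μ D ≠ ∞) {f : ℕ → Set Ω}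
    (hf : ∀ i, MeasurableSet (f i)) (hd : Pairwise (Function.onFun Disjoint f)) (S : Finset ℕ) :
    ind μ 𝕜 ((⋃ i ∈ S, f i) ∩ D) = ∑ i ∈ S, ind μ 𝕜 (f i ∩ D) := by
  classical
  induction S using Finset.induction_on with
  | empty => simp [ind_empty]
  | @insert a S ha ih =>
    rw [Finset.sum_insert ha, ← ih, Finset.set_biUnion_insert, Set.union_inter_distrib_right]
    refine ind_union 𝕜 ((hf a).inter hD) (measure_ne_top_of_subset Set.inter_subset_right hμD)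
      ((Finset.measurableSet_biUnion S (fun i _ => hf i)).inter hD)
      (measure_ne_top_of_subset Set.inter_subset_right hμD) ?_
    refine Disjoint.mono Set.inter_subset_left Set.inter_subset_left ?_
    rw [Set.disjoint_iUnion₂_right]
    intro i hi
    exact hd (fun h => ha (h ▸ hi))

omit 𝕜 in
lemma hasSum_real {D : Set Ω} (hD : MeasurableSet D) (hμD : μ D ≠ ∞) {f : ℕ → Set Ω}
    (hf : ∀ i, MeasurableSet (f i)) (hd : Pairwise (Function.onFun Disjoint f)) :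
    HasSum (fun i => μ.real (f i ∩ D)) (μ.real ((⋃ i, f i) ∩ D)) := by
  have h1 : μ ((⋃ i, f i) ∩ D) = ∑' i, μ (f i ∩ D) := by
    rw [Set.iUnion_inter]
    exact measure_iUnion (fun i j hij => Disjoint.mono Set.inter_subset_left
      Set.inter_subset_left (hd hij)) (fun i => (hf i).inter hD)
  have h2 : (∑' i, μ (f i ∩ D)) ≠ ∞ := by
    rw [← h1]; exact measure_ne_top_of_subset Set.inter_subset_right hμD
  have h3 := ENNReal.hasSum_toReal h2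
  rw [measureReal_def, h1, ENNReal.tsum_toReal_eq (fun i =>
    measure_ne_top_of_subset Set.inter_subset_right hμD)]
  exact h3

lemma hasSum_ind {D : Set Ω} (hD : MeasurableSet D) (hμD : μ D ≠ ∞) {f : ℕ → Set Ω}
    (hf : ∀ i, MeasurableSet (f i)) (hd : Pairwise (Function.onFun Disjoint f)) :
    HasSum (fun i => ind μ 𝕜 (f i ∩ D)) (ind μ 𝕜 ((⋃ i, f i) ∩ D)) := by
  have hreal := hasSum_real (μ := μ) hD hμD hf hd
  rw [HasSum] at hreal ⊢
  rw [tendsto_iff_norm_sub_tendsto_zero]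
  have h4 : Tendsto (fun S : Finset ℕ => μ.real ((⋃ i, f i) ∩ D) - ∑ i ∈ S, μ.real (f i ∩ D))
      (SummationFilter.unconditional ℕ).filter (𝓝 0) := by
    have := hreal.const_sub (μ.real ((⋃ i, f i) ∩ D))
    rwa [sub_self] at this
  refine h4.congr (fun S => ?_)
  rw [← ind_biUnion 𝕜 hD hμD hf hd S]
  set V := (⋃ i ∈ S, f i) ∩ D with hV
  have hVm : MeasurableSet V := (Finset.measurableSet_biUnion S (fun i _ => hf i)).inter hD
  have hVf : μ V ≠ ∞ := measure_ne_top_of_subset Set.inter_subset_right hμD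
  have hWm : MeasurableSet ((⋃ i, f i) ∩ D) := (MeasurableSet.iUnion hf).inter hD
  have hWf : μ ((⋃ i, f i) ∩ D) ≠ ∞ := measure_ne_top_of_subset Set.inter_subset_right hμD
  have hVW : V ⊆ (⋃ i, f i) ∩ D :=
    Set.inter_subset_inter_left _ (Set.iUnion₂_subset (fun i _ => Set.subset_iUnion f i))
  have h5 : ind μ 𝕜 ((⋃ i, f i) ∩ D) = ind μ 𝕜 V + ind μ 𝕜 (((⋃ i, f i) ∩ D) \ V) := by
    rw [← ind_union 𝕜 hVm hVf (hWm.diff hVm) (measure_ne_top_of_subset Set.sdiff_subset hWf)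
      Set.disjoint_sdiff_right, Set.union_sdiff_cancel hVW]
  rw [h5, sub_add_cancel_left, norm_neg, norm_ind 𝕜 (hWm.diff hVm)
    (measure_ne_top_of_subset Set.sdiff_subset hWf), measureReal_sdiff hVW hVm hWf]
  congr 1
  rw [hV, Set.iUnion₂_inter, measureReal_biUnion_finset]
  · intro i _ j _ hij
    exact Disjoint.mono Set.inter_subset_left Set.inter_subset_left (hd hij)
  · intro i _
    exact (hf i).inter hD

end Ind

section Split

variable {Ω : Type*} [MeasurableSpace Ω] {μ : Measure Ω} {𝕜 : Type*} [RCLike 𝕜]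

/-- The signed measure `c μ(G ∩ D) - φ(1_{G ∩ D})`. -/
noncomputable def chg (φ : Lp 𝕜 1 μ →+ ℝ) (hφ : Continuous φ) {D : Set Ω}
    (hD : MeasurableSet D) (hμD : μ D ≠ ∞) (c : ℝ) : SignedMeasure Ω where
  measureOf' G := if MeasurableSet G then c * μ.real (G ∩ D) - φ (ind μ 𝕜 (G ∩ D)) else 0
  empty' := by simp [ind_empty]
  not_measurable' G hG := by simp [hG]
  m_iUnion' f hf hd := by
    have h1 := (hasSum_ind 𝕜 hD hμD hf hd).map φ hφ
    have h3 := ((hasSum_real (μ := μ) hD hμD hf hd).mul_left c).sub h1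
    have h4 : (fun i => if MeasurableSet (f i) then c * μ.real (f i ∩ D) - φ (ind μ 𝕜 (f i ∩ D))
        else 0) = fun i => c * μ.real (f i ∩ D) - (φ ∘ fun i => ind μ 𝕜 (f i ∩ D)) i := by
      funext i
      rw [if_pos (hf i)]
      rfl
    rw [if_pos (MeasurableSet.iUnion hf), h4]
    exact h3

lemma chg_apply (φ : Lp 𝕜 1 μ →+ ℝ) (hφ : Continuous φ) {D : Set Ω}
    (hD : MeasurableSet D) (hμD : μ D ≠ ∞) (c : ℝ) {G : Set Ω} (hG : MeasurableSet G)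
    (hGD : G ⊆ D) : chg φ hφ hD hμD c G = c * μ.real G - φ (ind μ 𝕜 G) := by
  have : chg φ hφ hD hμD c G = if MeasurableSet G then
      c * μ.real (G ∩ D) - φ (ind μ 𝕜 (G ∩ D)) else 0 := rfl
  rw [this, if_pos hG, Set.inter_eq_left.2 hGD]

theorem exists_subset_ge (φ : Lp 𝕜 1 μ →+ ℝ) (hφ : Continuous φ) (c : ℝ) {E : Set Ω}
    (hE : MeasurableSet E) (hμE : μ E ≠ ∞) (h : c * μ.real E < φ (ind μ 𝕜 E)) :
    ∃ F ⊆ E, MeasurableSet F ∧ 0 < μ F ∧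
      ∀ G ⊆ F, MeasurableSet G → c * μ.real G ≤ φ (ind μ 𝕜 G) := by
  have h1 : chg φ hφ hE hμE c E < 0 := by
    rw [chg_apply φ hφ hE hμE c hE subset_rfl]; linarith
  obtain ⟨F, hF, hFE, hF1, hF2⟩ := SignedMeasure.exists_subset_restrict_nonpos h1
  refine ⟨F, hFE, hF, ?_, fun G hG hGm => ?_⟩
  · rw [pos_iff_ne_zero]
    intro h0
    rw [chg_apply φ hφ hE hμE c hF hFE, measureReal_def, h0] at hF2
    have h3 : ind μ 𝕜 F = 0 := by
      rw [← norm_eq_zero, norm_ind 𝕜 hF (by rw [h0]; simp), measureReal_def, h0]; simp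
    rw [h3] at hF2
    simp at hF2
  · have h2 := VectorMeasure.subset_le_of_restrict_le_restrict _ _ hF hF1 hG
    rw [chg_apply φ hφ hE hμE c hGm (hG.trans hFE)] at h2
    simp at h2
    exact h2

end Split

section Functional

variable {Ω : Type*} [MeasurableSpace Ω] {μ : Measure Ω} {𝕜 : Type*} [RCLike 𝕜]
variable {Y : Type*} [NormedAddCommGroup Y] [NormedSpace 𝕜 Y]

/-- `f ↦ ± Re (e f y)`. -/
noncomputable def ph (e : Lp 𝕜 1 μ →L[𝕜] (Y →L[𝕜] 𝕜)) (b : Bool) (y : Y) : Lp 𝕜 1 μ →+ ℝ :=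
  AddMonoidHom.mk' (fun f => sg b * RCLike.re (e f y)) (by
    intro f g
    rw [map_add, _root_.add_apply, map_add, mul_add])

lemma ph_apply (e : Lp 𝕜 1 μ →L[𝕜] (Y →L[𝕜] 𝕜)) (b : Bool) (y : Y) (f : Lp 𝕜 1 μ) :
    ph e b y f = sg b * RCLike.re (e f y) := rfl

lemma continuous_ph (e : Lp 𝕜 1 μ →L[𝕜] (Y →L[𝕜] 𝕜)) (b : Bool) (y : Y) :
    Continuous (ph e b y) := by
  show Continuous (fun f => sg b * RCLike.re (e f y))
  exact continuous_const.mul (RCLike.continuous_re.comp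
    ((ContinuousLinearMap.apply 𝕜 𝕜 y).continuous.comp e.continuous))

lemma norm_sum_ind {ι : Type*} [Fintype ι] (F : ι → Set Ω) (hF : ∀ j, MeasurableSet (F j))
    (hμF : ∀ j, μ (F j) ≠ ∞) (hd : Pairwise (Function.onFun Disjoint F)) (a : ι → ℝ) :
    ‖∑ j, ((a j : ℝ) : 𝕜) • ind μ 𝕜 (F j)‖ = ∑ j, |a j| * μ.real (F j) := by
  rw [L1.norm_eq_integral_norm]
  have h1 : ∀ᵐ x ∂μ, (∑ j, ((a j : ℝ) : 𝕜) • ind μ 𝕜 (F j) : Lp 𝕜 1 μ) x
      = ∑ j, (((a j : ℝ) : 𝕜) • ind μ 𝕜 (F j) : Lp 𝕜 1 μ) x := by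
    have := Lp.coeFn_finsetSum (Finset.univ) (fun j => ((a j : ℝ) : 𝕜) • ind μ 𝕜 (F j))
    filter_upwards [this] with x hx
    rw [hx]
    simp
  have h2 : ∀ᵐ x ∂μ, ∀ j, (((a j : ℝ) : 𝕜) • ind μ 𝕜 (F j) : Lp 𝕜 1 μ) x
      = (F j).indicator (fun _ => ((a j : ℝ) : 𝕜)) x := by
    rw [ae_all_iff]
    intro j
    filter_upwards [Lp.coeFn_smul ((a j : ℝ) : 𝕜) (ind μ 𝕜 (F j)),
      (by rw [ind_of 𝕜 (hF j) (hμF j)]; exact indicatorConstLp_coeFn :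
        (ind μ 𝕜 (F j) : Ω → 𝕜) =ᵐ[μ] (F j).indicator (fun _ => (1 : 𝕜)))] with x hx1 hx2
    rw [hx1, Pi.smul_apply, hx2]
    by_cases hx : x ∈ F j
    · simp [hx]
    · simp [hx]
  have h3 : ∀ᵐ x ∂μ, ‖(∑ j, ((a j : ℝ) : 𝕜) • ind μ 𝕜 (F j) : Lp 𝕜 1 μ) x‖
      = ∑ j, (F j).indicator (fun _ => |a j|) x := by
    filter_upwards [h1, h2] with x hx1 hx2
    rw [hx1]
    simp_rw [hx2]
    by_cases hx : ∃ j, x ∈ F j
    · obtain ⟨j, hj⟩ := hx
      have hne : ∀ k, k ≠ j → x ∉ F k := fun k hk hxk =>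
        Set.disjoint_left.1 (hd hk) hxk hj
      rw [Finset.sum_eq_single j (fun k _ hk => by simp [hne k hk]) (fun h => absurd (Finset.mem_univ j) h),
        Finset.sum_eq_single j (fun k _ hk => by simp [hne k hk]) (fun h => absurd (Finset.mem_univ j) h)]
      simp [hj]
    · push Not at hx
      simp [hx]
  rw [integral_congr_ae h3, integral_finsetSum]
  · refine Finset.sum_congr rfl (fun j _ => ?_)
    rw [integral_indicator_const _ (hF j), smul_eq_mul, mul_comm]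
  · intro j _
    exact (integrable_indicator_iff (hF j)).2 (integrableOn_const (hμF j))

theorem scheme_y (e : Lp 𝕜 1 μ →L[𝕜] (Y →L[𝕜] 𝕜)) {δ δ' : ℝ} (he : ∀ f, δ * ‖f‖ ≤ ‖e f‖)
    (hδ' : 0 ≤ δ') (hδ : δ' < δ) {ι : Type*} [Fintype ι] (F : ι → Set Ω)
    (hF : ∀ j, MeasurableSet (F j)) (hμF : ∀ j, μ (F j) ≠ ∞) (hF0 : ∀ j, 0 < μ (F j))
    (hd : Pairwise (Function.onFun Disjoint F)) (s : ι → Bool) :
    ∃ y : Y, ‖y‖ ≤ 1 ∧ ∀ j, δ' * μ.real (F j) < ph e (s j) y (ind μ 𝕜 (F j)) := by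
  have hpos : ∀ j, 0 < μ.real (F j) := fun j => ENNReal.toReal_pos (hF0 j).ne' (hμF j)
  obtain ⟨y, hy, hy'⟩ := exists_ball_re_gt
    (fun j => ((sg (s j) / μ.real (F j) : ℝ) : 𝕜) • e (ind μ 𝕜 (F j))) hδ' hδ (by
      intro t ht
      have h1 : ∑ j, ((t j : ℝ) : 𝕜) • ((sg (s j) / μ.real (F j) : ℝ) : 𝕜) • e (ind μ 𝕜 (F j))
          = e (∑ j, ((t j * (sg (s j) / μ.real (F j)) : ℝ) : 𝕜) • ind μ 𝕜 (F j)) := by
        rw [map_sum]
        refine Finset.sum_congr rfl (fun j _ => ?_)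
        rw [map_smul, smul_smul, RCLike.ofReal_mul]
      rw [h1]
      refine le_trans (le_of_eq ?_) (he _)
      rw [norm_sum_ind F hF hμF hd]
      congr 1
      refine Finset.sum_congr rfl (fun j _ => ?_)
      rw [abs_mul, abs_div, abs_sg, abs_of_nonneg (ht j), abs_of_pos (hpos j)]
      field_simp [(hpos j).ne'])
  refine ⟨y, hy, fun j => ?_⟩
  have h2 := hy' j
  rw [_root_.smul_apply, smul_eq_mul, RCLike.re_ofReal_mul, div_mul_eq_mul_div,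
    lt_div_iff₀ (hpos j)] at h2
  exact h2

/-- One step of the scheme. -/
theorem scheme_shrink (e : Lp 𝕜 1 μ →L[𝕜] (Y →L[𝕜] 𝕜)) {δ δ' : ℝ} (he : ∀ f, δ * ‖f‖ ≤ ‖e f‖)
    (hδ' : 0 ≤ δ') (hδ : δ' < δ) {ι : Type*} [Fintype ι] (F : ι → Set Ω)
    (hF : ∀ j, MeasurableSet (F j)) (hμF : ∀ j, μ (F j) ≠ ∞) (hF0 : ∀ j, 0 < μ (F j))
    (hd : Pairwise (Function.onFun Disjoint F)) (s : ι → Bool) :
    ∃ (y : Y) (F' : ι → Set Ω), ‖y‖ ≤ 1 ∧ (∀ j, MeasurableSet (F' j)) ∧ (∀ j, F' j ⊆ F j) ∧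
      (∀ j, 0 < μ (F' j)) ∧ ∀ j, ∀ G ⊆ F' j, MeasurableSet G →
        δ' * μ.real G ≤ sg (s j) * RCLike.re (e (ind μ 𝕜 G) y) := by
  obtain ⟨y, hy, hy'⟩ := scheme_y e he hδ' hδ F hF hμF hF0 hd s
  have h1 : ∀ j, ∃ F' ⊆ F j, MeasurableSet F' ∧ 0 < μ F' ∧
      ∀ G ⊆ F', MeasurableSet G → δ' * μ.real G ≤ ph e (s j) y (ind μ 𝕜 G) := fun j =>
    exists_subset_ge (ph e (s j) y) (continuous_ph e (s j) y) δ' (hF j) (hμF j) (hy' j)
  choose F' h2 h3 h4 h5 using h1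
  exact ⟨y, F', hy, h3, h2, h4, h5⟩

variable (μ) in
/-- A good family of sets at level `n`. -/
def Good (D : Set Ω) (n : ℕ) (E : (Fin n → Bool) → Set Ω) : Prop :=
  (∀ τ, MeasurableSet (E τ)) ∧ (∀ τ, E τ ⊆ D) ∧ (∀ τ, 0 < μ (E τ)) ∧
    Pairwise (Function.onFun Disjoint E)

theorem scheme_next (e : Lp 𝕜 1 μ →L[𝕜] (Y →L[𝕜] 𝕜)) {δ δ' : ℝ} (he : ∀ f, δ * ‖f‖ ≤ ‖e f‖)
    (hδ' : 0 ≤ δ') (hδ : δ' < δ) {D : Set Ω} (hμD : μ D ≠ ∞)
    (hatom : ∀ E ⊆ D, MeasurableSet E → 0 < μ E →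
      ∃ P ⊆ E, MeasurableSet P ∧ 0 < μ P ∧ 0 < μ (E \ P))
    (n : ℕ) (E : (Fin n → Bool) → Set Ω) (hE : Good μ D n E) :
    ∃ (E' : (Fin (n + 1) → Bool) → Set Ω) (y : Y), Good μ D (n + 1) E' ∧ ‖y‖ ≤ 1 ∧
      (∀ ρ, E' ρ ⊆ E (Fin.init ρ)) ∧ ∀ ρ, ∀ G ⊆ E' ρ, MeasurableSet G →
        δ' * μ.real G ≤ sg (ρ (Fin.last n)) * RCLike.re (e (ind μ 𝕜 G) y) := by
  obtain ⟨h1, h2, h3, h4⟩ := hE
  choose P hP1 hP2 hP3 hP4 using fun τ => hatom (E τ) (h2 τ) (h1 τ) (h3 τ)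
  set F : (Fin (n + 1) → Bool) → Set Ω := fun ρ =>
    if ρ (Fin.last n) = true then P (Fin.init ρ) else E (Fin.init ρ) \ P (Fin.init ρ) with hF
  have hFE : ∀ ρ, F ρ ⊆ E (Fin.init ρ) := by
    intro ρ
    simp only [hF]
    split_ifs
    · exact hP1 _
    · exact Set.sdiff_subset
  have hFm : ∀ ρ, MeasurableSet (F ρ) := by
    intro ρ
    simp only [hF]
    split_ifs
    · exact hP2 _
    · exact (h1 _).diff (hP2 _)
  have hF0 : ∀ ρ, 0 < μ (F ρ) := by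
    intro ρ
    simp only [hF]
    split_ifs
    · exact hP3 _
    · exact hP4 _
  have hFd : Pairwise (Function.onFun Disjoint F) := by
    intro ρ ρ' hne
    by_cases hi : Fin.init ρ = Fin.init ρ'
    · have hl : ρ (Fin.last n) ≠ ρ' (Fin.last n) := by
        intro hl
        apply hne
        rw [← Fin.snoc_init_self ρ, ← Fin.snoc_init_self ρ', hi, hl]
      simp only [Function.onFun, hF, hi]
      cases hb : ρ (Fin.last n) <;> cases hb' : ρ' (Fin.last n)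
      · rw [hb, hb'] at hl; exact absurd rfl hl
      · simp only [if_true, Bool.false_eq_true, if_false]
        exact Set.disjoint_sdiff_left
      · simp only [if_true, Bool.false_eq_true, if_false]
        exact Set.disjoint_sdiff_right
      · rw [hb, hb'] at hl; exact absurd rfl hl
    · exact Disjoint.mono (hFE ρ) (hFE ρ') (h4 hi)
  have hFf : ∀ ρ, μ (F ρ) ≠ ∞ := fun ρ =>
    measure_ne_top_of_subset ((hFE ρ).trans (h2 _)) hμD
  obtain ⟨y, F', hy, g1, g2, g3, g4⟩ := scheme_shrink e he hδ' hδ F hFm hFf hF0 hFd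
    (fun ρ => ρ (Fin.last n))
  refine ⟨F', y, ⟨g1, fun ρ => (g2 ρ).trans ((hFE ρ).trans (h2 _)), g3, ?_⟩, hy,
    fun ρ => (g2 ρ).trans (hFE ρ), g4⟩
  intro ρ ρ' hne
  exact Disjoint.mono (g2 ρ) (g2 ρ') (hFd hne)

/-- The scheme: a sequence `y` in the unit ball of `Y` all of whose sign patterns are realised. -/
theorem scheme (e : Lp 𝕜 1 μ →L[𝕜] (Y →L[𝕜] 𝕜)) {δ δ' : ℝ} (he : ∀ f, δ * ‖f‖ ≤ ‖e f‖)
    (hδ' : 0 ≤ δ') (hδ : δ' < δ) {D : Set Ω} (hD : MeasurableSet D) (hμD : μ D ≠ ∞)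
    (hD0 : 0 < μ D)
    (hatom : ∀ E ⊆ D, MeasurableSet E → 0 < μ E →
      ∃ P ⊆ E, MeasurableSet P ∧ 0 < μ P ∧ 0 < μ (E \ P)) :
    ∃ y : ℕ → Y, (∀ m, ‖y m‖ ≤ 1) ∧ ∀ (N : ℕ) (σ : ℕ → Bool), ∃ x : Lp 𝕜 1 μ, ‖x‖ ≤ 1 ∧
      ∀ m < N, δ' ≤ sg (σ m) * RCLike.re (e x (y m)) := by
  have hstep := scheme_next e he hδ' hδ hμD hatom
  choose E' Y' hE' hY' hsub hval using hstep
  let st : (n : ℕ) → {E : (Fin n → Bool) → Set Ω // Good μ D n E} := fun n =>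
    Nat.rec (motive := fun n => {E : (Fin n → Bool) → Set Ω // Good μ D n E})
      ⟨fun _ => D, fun _ => hD, fun _ => subset_rfl, fun _ => hD0,
        fun a b hab => absurd (Subsingleton.elim a b) hab⟩
      (fun n E => ⟨E' n E.1 E.2, hE' n E.1 E.2⟩) n
  have hst : ∀ n, (st (n + 1)).1 = E' n (st n).1 (st n).2 := fun n => rfl
  let R : ℕ → (ℕ → Bool) → Set Ω := fun n σ => (st n).1 (fun i => σ i)
  have hR : ∀ n σ, R (n + 1) σ ⊆ R n σ := by
    intro n σ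
    have := hsub n (st n).1 (st n).2 (fun i : Fin (n + 1) => σ i)
    exact this
  have hRmono : ∀ σ n m, n ≤ m → R m σ ⊆ R n σ := by
    intro σ n m hnm
    exact antitone_nat_of_succ_le (f := fun n => R n σ) (fun n => hR n σ) hnm
  refine ⟨fun m => Y' m (st m).1 (st m).2, fun m => hY' m _ _, fun N σ => ?_⟩
  obtain ⟨g1, g2, g3, g4⟩ := (st N).2
  have hm : MeasurableSet (R N σ) := g1 _
  have h0 : 0 < μ (R N σ) := g3 _
  have hf : μ (R N σ) ≠ ∞ := measure_ne_top_of_subset (g2 _) hμD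
  have hr : 0 < μ.real (R N σ) := ENNReal.toReal_pos h0.ne' hf
  refine ⟨(((μ.real (R N σ))⁻¹ : ℝ) : 𝕜) • ind μ 𝕜 (R N σ), ?_, ?_⟩
  · rw [norm_smul, norm_ind 𝕜 hm hf, RCLike.norm_ofReal, abs_of_pos (by positivity),
      inv_mul_cancel₀ hr.ne']
  · intro m hmN
    have h5 := hval m (st m).1 (st m).2 (fun i : Fin (m + 1) => σ i) (R N σ)
      (hRmono σ (m + 1) N hmN) hm
    rw [map_smul, _root_.smul_apply, smul_eq_mul, RCLike.re_ofReal_mul, ← mul_assoc,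
      mul_comm (sg (σ m)), mul_assoc, le_inv_mul_iff₀ hr, mul_comm]
    exact h5

end Functional

end DualL1
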